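import Pool.Agent.Lib.MP_0da313_nt.NC.Q
import Pool.Agent.Lib.MP_0da313_nt.CM.P.one2

set_option autoImplicit false

/-!
Project NC, piece gn: the general expansion over the integers.
-/

namespace Pool.Agent.NC.Q

open Finset Filter Polynomial
open Pool.Agent.MP89da58 (bil pw nn supp part join compat kapD mem_supp)
open Pool.Agent.MT (PJf dvI ZI sp sp_subset disj_sp)
open Pool.Agent.BVall (om PK RepB)
open Pool.Agent.CM.G (Qd Qd_mem Qd_not_mem mem_sp prod_Qd prod_sp' card_sp' prodn_sp' om_Qd_not_mem)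

open Classical in
/-- the number of the classes modulo a squarefree number -/
lemma ns_gn_count (hcr : R_cr) (T : Finset ℕ) (hT : ∀ p ∈ T, p.Prime) (Q : ℕ → ℤ → Prop)
    (hQ : ∀ p ∈ T, ∀ x y : ℤ, (p : ℤ) ∣ x - y → (Q p x ↔ Q p y)) :
    ∑ c ∈ range (∏ p ∈ T, p), ∏ p ∈ T, (if Q p (c : ℤ) then (1 : ℝ) else 0) =
      ∏ p ∈ T, (om Q p : ℝ) := by
  rw [hcr T hT (fun p n => if Q p (n : ℤ) then (1 : ℝ) else 0)]
  · apply Finset.prod_congr rfl
    intro p _
    rw [Finset.sum_boole]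
    rfl
  · intro p hp n n' h
    have h1 : (p : ℤ) ∣ (n' : ℤ) - n := (Nat.modEq_iff_dvd.1 h)
    have h2 := hQ p hp n' n h1
    simp only [h2]

open Classical in
/-- the sum over the integers satisfying the conditions -/
lemma ns_gn_cls (hcr : R_cr) (T : Finset ℕ) (hT : ∀ p ∈ T, p.Prime) (Q : ℕ → ℤ → Prop)
    (hQ : ∀ p ∈ T, ∀ x y : ℤ, (p : ℤ) ∣ x - y → (Q p x ↔ Q p y)) (h : ℕ → ℝ) (M : ℕ) (e : ℝ)
    (he : ∀ q c : ℕ, 1 ≤ q → |∑ x ∈ (Icc 1 M).filter (fun x => x ≡ c [MOD q]), h x -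
      (∑ x ∈ Icc 1 M, h x) / q| ≤ e) :
    |∑ x ∈ Icc 1 M, h x * ∏ p ∈ T, (if Q p (x : ℤ) then (1 : ℝ) else 0) -
      (∑ x ∈ Icc 1 M, h x) * ∏ p ∈ T, (om Q p : ℝ) / p| ≤ e * ∏ p ∈ T, (om Q p : ℝ) := by
  set q : ℕ := ∏ p ∈ T, p with hq
  have hq0 : 0 < q := Finset.prod_pos fun p hp => (hT p hp).pos
  set f : ℕ → ℝ := fun c => ∏ p ∈ T, (if Q p (c : ℤ) then (1 : ℝ) else 0) with hf
  have hf0 : ∀ c, 0 ≤ f c := fun c => Finset.prod_nonneg fun p _ => by
    split_ifs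
    · exact zero_le_one
    · exact le_rfl
  have hfp : ∀ x c : ℕ, x ≡ c [MOD q] → f x = f c := by
    intro x c hxc
    apply Finset.prod_congr rfl
    intro p hp
    have h0 : x ≡ c [MOD p] := hxc.of_dvd (Finset.dvd_prod_of_mem (fun p => p) hp)
    have h1 : (p : ℤ) ∣ (c : ℤ) - x := (Nat.modEq_iff_dvd.1 h0)
    have h2 := hQ p hp c x h1
    simp only [h2]
  have e1 : ∑ x ∈ Icc 1 M, h x * f x =
      ∑ c ∈ range q, f c * ∑ x ∈ (Icc 1 M).filter (fun x => x ≡ c [MOD q]), h x := by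
    have h1 : ∀ x ∈ Icc 1 M, x % q ∈ range q := fun x _ => Finset.mem_range.2 (Nat.mod_lt _ hq0)
    rw [← Finset.sum_fiberwise_of_maps_to h1]
    apply Finset.sum_congr rfl
    intro c hc
    rw [Finset.mul_sum]
    have h2 : (Icc 1 M).filter (fun x => x % q = c) =
        (Icc 1 M).filter (fun x => x ≡ c [MOD q]) := by
      apply Finset.filter_congr
      intro x _
      rw [Nat.ModEq, Nat.mod_eq_of_lt (Finset.mem_range.1 hc)]
    rw [h2]
    apply Finset.sum_congr rfl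
    intro x hx
    rw [hfp x c (Finset.mem_filter.1 hx).2]
    ring
  have hcount := ns_gn_count hcr T hT Q hQ
  have e2 : (∑ x ∈ Icc 1 M, h x) * ∏ p ∈ T, (om Q p : ℝ) / p =
      ∑ c ∈ range q, f c * ((∑ x ∈ Icc 1 M, h x) / q) := by
    rw [← Finset.sum_mul, hcount, Finset.prod_div_distrib, hq]
    push_cast
    ring
  rw [e1, e2, ← Finset.sum_sub_distrib, ← hcount, Finset.mul_sum]
  refine (Finset.abs_sum_le_sum_abs _ _).trans (Finset.sum_le_sum fun c _ => ?_)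
  rw [← mul_sub, abs_mul, abs_of_nonneg (hf0 c), mul_comm e]
  exact mul_le_mul_of_nonneg_left (he q c hq0) (hf0 c)

variable {ι : Type} [Fintype ι] [DecidableEq ι] {P : Finset ℕ}

lemma ns_gn_per {D : PJf P → ι → ℤ → Prop} {Q : ℕ → ℤ → Prop} {γ : PJf P → Option ι}
    (hD : ∀ (j : PJf P) (l : ι) (x y : ℤ), ((j : ℕ) : ℤ) ∣ x - y → (D j l x ↔ D j l y))
    (hQ : ∀ (p : ℕ) (x y : ℤ), (p : ℤ) ∣ x - y → (Q p x ↔ Q p y))
    (p : ℕ) (x y : ℤ) (h : (p : ℤ) ∣ x - y) : Qd D Q γ p x ↔ Qd D Q γ p y := by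
  by_cases hp : p ∈ sp γ
  · obtain ⟨h1, l, h2⟩ := mem_sp.1 hp
    have e1 := Qd_mem (D := D) (Q := Q) ⟨p, h1⟩ h2 x
    have e2 := Qd_mem (D := D) (Q := Q) ⟨p, h1⟩ h2 y
    rw [show ((⟨p, h1⟩ : PJf P) : ℕ) = p from rfl] at e1 e2
    rw [e1, e2]
    exact hD ⟨p, h1⟩ l x y h
  · rw [Qd_not_mem hp, Qd_not_mem hp]
    exact hQ p x y h

open Classical in
lemma ns_gn_om {D : PJf P → ι → ℤ → Prop} {Q : ℕ → ℤ → Prop} {γ : PJf P → Option ι}
    (j : PJf P) {l : ι} (hl : γ j = some l) : om (Qd D Q γ) (j : ℕ) = od D j l := by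
  unfold om od
  congr 1
  apply Finset.filter_congr
  intro y _
  exact Qd_mem j hl _

/-- the product of the densities as a product over the support -/
lemma ns_gn_prr (r : PJf P → ι → ℝ) (γ : PJf P → Option ι) :
    prr r γ = ∏ j ∈ supp γ, (γ j).elim 1 (r j) := by
  unfold prr
  symm
  apply Finset.prod_subset (Finset.subset_univ _)
  intro j _ hj
  have : γ j = none := by
    by_contra h
    exact hj (mem_supp.2 h)
  rw [this]
  rfl

open Classical in
/-- one pair `(γ, T)` -/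
lemma ns_gn_one (hcr : R_cr) {P1 : Finset ℕ} {Dd : PJf P → ι → ℤ → Prop} {Q : ℕ → ℤ → Prop}
    {K0 : ℕ} (hP : ∀ p ∈ P, p.Prime) (hP1 : ∀ p ∈ P1, p.Prime) (hdis : Disjoint P P1)
    (hD : ∀ (j : PJf P) (l : ι) (x y : ℤ), ((j : ℕ) : ℤ) ∣ x - y → (Dd j l x ↔ Dd j l y))
    (hod : ∀ j l, od Dd j l ≤ K0)
    (hQ : ∀ (p : ℕ) (x y : ℤ), (p : ℤ) ∣ x - y → (Q p x ↔ Q p y)) (hom : ∀ p ∈ P1, om Q p ≤ K0)
    (h : ℕ → ℝ) (M : ℕ) (e : ℝ)
    (he : ∀ q c : ℕ, 1 ≤ q → |∑ x ∈ (Icc 1 M).filter (fun x => x ≡ c [MOD q]), h x -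
      (∑ x ∈ Icc 1 M, h x) / q| ≤ e) (he0 : 0 ≤ e) (T : Finset ℕ) (hT : T ⊆ P1)
    (γ : PJf P → Option ι) :
    |∑ x ∈ Icc 1 M, (if dvI Dd (x : ℤ) γ then
        h x * ∏ p ∈ T, (if Q p (x : ℤ) then (1 : ℝ) else 0) else 0) -
      (∑ x ∈ Icc 1 M, h x) * (∏ p ∈ T, (om Q p : ℝ) / p) *
        prr (fun (j : PJf P) l => (od Dd j l : ℝ) / ((j : ℕ) : ℝ)) γ| ≤
      (K0 : ℝ) ^ (T.card + (supp γ).card) * e := by
  have hd : Disjoint T (sp γ) := disj_sp ((hdis.symm).mono_left hT) γ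
  have hTp2 : ∀ p ∈ T ∪ sp γ, p.Prime := by
    intro p hp
    rw [Finset.mem_union] at hp
    rcases hp with hp | hp
    · exact hP1 p (hT hp)
    · exact hP p (sp_subset γ hp)
  have h2 := ns_gn_cls hcr (T ∪ sp γ) hTp2 (Qd Dd Q γ)
    (fun p _ => ns_gn_per hD hQ p) h M e he
  have e4 : ∀ p ∈ T, (om (Qd Dd Q γ) p : ℝ) / p = (om Q p : ℝ) / p := by
    intro p hp
    rw [om_Qd_not_mem (fun h => (Finset.disjoint_left.1 hd) hp h)]
  have e6 : ∀ j ∈ supp γ, (om (Qd Dd Q γ) (j : ℕ) : ℝ) / ((j : ℕ) : ℝ) =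
      (γ j).elim 1 (fun l => (od Dd j l : ℝ) / ((j : ℕ) : ℝ)) := by
    intro j hj
    obtain ⟨l, hl⟩ := Option.ne_none_iff_exists'.1 (mem_supp.1 hj)
    rw [ns_gn_om j hl, hl]
    rfl
  simp only [prod_Qd hd] at h2
  rw [prod_sp' hd (fun p => (om (Qd Dd Q γ) p : ℝ) / p), Finset.prod_congr rfl e4,
    Finset.prod_congr rfl e6] at h2
  rw [ns_gn_prr]
  have e8 : ∀ n : ℕ, (if dvI Dd (n : ℤ) γ then
      h n * ∏ p ∈ T, (if Q p (n : ℤ) then (1 : ℝ) else 0) else 0) =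
      h n * ((∏ p ∈ T, (if Q p (n : ℤ) then (1 : ℝ) else 0)) *
        (if dvI Dd (n : ℤ) γ then (1 : ℝ) else 0)) := by
    intro n
    split_ifs <;> ring
  simp only [e8]
  rw [mul_assoc]
  refine h2.trans ?_
  rw [mul_comm e]
  refine mul_le_mul_of_nonneg_right ?_ he0
  rw [← card_sp' hd, ← Finset.prod_const]
  apply Finset.prod_le_prod
  · intro p _
    positivity
  · intro p hp
    rw [Finset.mem_union] at hp
    rcases hp with hp | hp
    · rw [om_Qd_not_mem (fun h => (Finset.disjoint_left.1 hd) hp h)]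
      exact_mod_cast hom p (hT hp)
    · obtain ⟨h1, l, h2⟩ := mem_sp.1 hp
      have h3 := ns_gn_om (D := Dd) (Q := Q) ⟨p, h1⟩ h2
      rw [show ((⟨p, h1⟩ : PJf P) : ℕ) = p from rfl] at h3
      rw [h3]
      exact_mod_cast hod _ _

open Classical in
theorem p_gn : S_gn := by
  intro hnu hcr hes1 ι _ _ _ P P1 Dd Q K0 hP hP1 hdis hK0 hD hcop hod hQ hom Y0 Ff hF h M e he
    g B Y hB hY
  obtain ⟨c, hc1, hc2, hc3⟩ := hF
  have he0 : 0 ≤ e := (abs_nonneg _).trans (he 1 1 le_rfl)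
  obtain ⟨n1, n2, n3, _, n5⟩ := hnu ι (PJf P) g
  have e1 := n1 Dd hcop (Icc 1 M)
    (fun x => h x * Ff (fun p => if Q p (x : ℤ) then (1 : ℝ) else 0))
  rw [e1]
  unfold qr
  rw [Finset.mul_sum, ← Finset.sum_sub_distrib]
  set Sh : ℝ := ∑ x ∈ Icc 1 M, h x with hSh
  set R : PJf P → ι → ℝ := fun (j : PJf P) l => (od Dd j l : ℝ) / ((j : ℕ) : ℝ) with hR
  -- the error for one support
  set E1 : Finset (PJf P) → ℝ := fun A =>
    ∑ T ∈ P1.powerset.filter (fun T => ∏ p ∈ T, p ≤ Y0),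
      (K0 : ℝ) ^ (T.card + A.card) * e with hE1
  have hE10 : ∀ A, 0 ≤ E1 A := fun A => Finset.sum_nonneg fun T _ =>
    mul_nonneg (by positivity) he0
  have hone : ∀ γ : PJf P → Option ι,
      |(∑ x ∈ Icc 1 M, if dvI Dd (x : ℤ) γ then
          h x * Ff (fun p => if Q p (x : ℤ) then (1 : ℝ) else 0) else 0) -
        Sh * Ff (fun p => (om Q p : ℝ) / p) * prr R γ| ≤ E1 (supp γ) := by
    intro γ
    have f1 : (∑ x ∈ Icc 1 M, if dvI Dd (x : ℤ) γ then
          h x * Ff (fun p => if Q p (x : ℤ) then (1 : ℝ) else 0) else 0) =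
        ∑ T ∈ P1.powerset, c T * ∑ x ∈ Icc 1 M, (if dvI Dd (x : ℤ) γ then
          h x * ∏ p ∈ T, (if Q p (x : ℤ) then (1 : ℝ) else 0) else 0) := by
      simp only [Finset.mul_sum]
      rw [Finset.sum_comm]
      apply Finset.sum_congr rfl
      intro n _
      rw [hc1]
      split_ifs
      · rw [Finset.mul_sum]
        apply Finset.sum_congr rfl
        intro T _
        ring
      · simp
    have f2 : Sh * Ff (fun p => (om Q p : ℝ) / p) * prr R γ =
        ∑ T ∈ P1.powerset, c T * (Sh * (∏ p ∈ T, (om Q p : ℝ) / p) * prr R γ) := by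
      rw [hc1, Finset.mul_sum, Finset.sum_mul]
      apply Finset.sum_congr rfl
      intro T _
      ring
    rw [f1, f2, ← Finset.sum_sub_distrib]
    refine (Finset.abs_sum_le_sum_abs _ _).trans ?_
    simp only [hE1]
    rw [Finset.sum_filter]
    refine Finset.sum_le_sum fun T hT => ?_
    rw [← mul_sub, abs_mul]
    by_cases hcT : c T = 0
    · rw [hcT, abs_zero, zero_mul]
      split_ifs
      · exact mul_nonneg (by positivity) he0
      · exact le_rfl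
    · rw [if_pos (hc3 T hT hcT)]
      have g1 := ns_gn_one hcr hP hP1 hdis hD hod hQ hom h M e he he0 T
        (Finset.mem_powerset.1 hT) γ
      calc |c T| * _ ≤ 1 * ((K0 : ℝ) ^ (T.card + (supp γ).card) * e) :=
            mul_le_mul (hc2 T) g1 (abs_nonneg _) zero_le_one
        _ = _ := one_mul _
  -- the sum over `γ`
  have hsum : |∑ γ : PJf P → Option ι,
      (nu g γ * (∑ x ∈ Icc 1 M, if dvI Dd (x : ℤ) γ then
          h x * Ff (fun p => if Q p (x : ℤ) then (1 : ℝ) else 0) else 0) -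
        Sh * Ff (fun p => (om Q p : ℝ) / p) * (nu g γ * prr R γ))| ≤
      B ^ 2 * ∑ γ : PJf P → Option ι, (fun A : Finset (PJf P) =>
        if nn (fun j : PJf P => (j : ℕ)) A ≤ Y * Y then (3 : ℝ) ^ A.card * E1 A else 0)
          (supp γ) := by
    refine (Finset.abs_sum_le_sum_abs _ _).trans ?_
    rw [Finset.mul_sum]
    refine Finset.sum_le_sum fun γ _ => ?_
    have g1 : nu g γ * (∑ x ∈ Icc 1 M, if dvI Dd (x : ℤ) γ then
          h x * Ff (fun p => if Q p (x : ℤ) then (1 : ℝ) else 0) else 0) -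
        Sh * Ff (fun p => (om Q p : ℝ) / p) * (nu g γ * prr R γ) =
        nu g γ * ((∑ x ∈ Icc 1 M, if dvI Dd (x : ℤ) γ then
          h x * Ff (fun p => if Q p (x : ℤ) then (1 : ℝ) else 0) else 0) -
        Sh * Ff (fun p => (om Q p : ℝ) / p) * prr R γ) := by ring
    rw [g1, abs_mul]
    beta_reduce
    by_cases h0 : nu g γ = 0
    · rw [h0, abs_zero, zero_mul]
      refine mul_nonneg (sq_nonneg B) ?_
      split_ifs
      · exact mul_nonneg (by positivity) (hE10 _)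
      · exact le_rfl
    · obtain ⟨α, β, hα, hβ, hs, _⟩ := n3 γ h0
      have hp1 : ∀ j : PJf P, 1 ≤ (j : ℕ) := fun j => (hP j.1 j.2).one_le
      have hnn : nn (fun j : PJf P => (j : ℕ)) (supp γ) ≤ Y * Y := by
        rw [hs]
        exact (Pool.Agent.MP89da58.nn_union_le hp1 _ _).trans (Nat.mul_le_mul (hY _ hα) (hY _ hβ))
      rw [if_pos hnn]
      calc |nu g γ| * _ ≤ (B ^ 2 * 3 ^ (supp γ).card) * E1 (supp γ) :=
            mul_le_mul (n2 B hB γ) (hone γ) (abs_nonneg _) (by positivity)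
        _ = _ := by ring
  refine hsum.trans ?_
  rw [n5 (fun A : Finset (PJf P) =>
        if nn (fun j : PJf P => (j : ℕ)) A ≤ Y * Y then (3 : ℝ) ^ A.card * E1 A else 0)]
  have hι : 1 ≤ Fintype.card ι := Fintype.card_pos
  have h3 := hes1 P P1 hP hP1 (3 * Fintype.card ι) K0 Y Y0 (by omega) hK0 (fun _ => e)
    (fun _ => he0)
  rw [show 2 * (3 * Fintype.card ι) * K0 = 6 * Fintype.card ι * K0 by ring] at h3
  have h4 : ∑ A : Finset (PJf P), (Fintype.card ι : ℝ) ^ A.card *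
      (if nn (fun j : PJf P => (j : ℕ)) A ≤ Y * Y then (3 : ℝ) ^ A.card * E1 A else 0) =
      (1 / 3) * ∑ a ∈ (univ : Finset (Finset (PJf P))).filter
        (fun a => nn (fun j : PJf P => (j : ℕ)) a ≤ Y * Y),
      ((3 * Fintype.card ι : ℕ) : ℝ) ^ a.card *
        ∑ T ∈ P1.powerset.filter (fun T => ∏ p ∈ T, p ≤ Y0 ∧
          Disjoint T (a.map (Function.Embedding.subtype _))),
          3 * ((K0 : ℝ) ^ (T.card + a.card) * e) := by
    rw [Finset.sum_filter, Finset.mul_sum]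
    apply Finset.sum_congr rfl
    intro A _
    split_ifs
    · have h5 : P1.powerset.filter (fun T => ∏ p ∈ T, p ≤ Y0 ∧
          Disjoint T (A.map (Function.Embedding.subtype _))) =
          P1.powerset.filter (fun T => ∏ p ∈ T, p ≤ Y0) := by
        apply Finset.filter_congr
        intro T hT
        constructor
        · intro h'
          exact h'.1
        · intro h'
          exact ⟨h', ((hdis.symm).mono_left (Finset.mem_powerset.1 hT)).mono_right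
            (Finset.map_subtype_subset _)⟩
      rw [h5, ← Finset.mul_sum]
      simp only [hE1]
      push_cast
      rw [mul_pow]
      ring
    · simp
  rw [h4]
  have hsq : 0 ≤ B ^ 2 := sq_nonneg B
  have h6 : (1 / 3 : ℝ) * ∑ a ∈ (univ : Finset (Finset (PJf P))).filter
        (fun a => nn (fun j : PJf P => (j : ℕ)) a ≤ Y * Y),
      ((3 * Fintype.card ι : ℕ) : ℝ) ^ a.card *
        ∑ T ∈ P1.powerset.filter (fun T => ∏ p ∈ T, p ≤ Y0 ∧
          Disjoint T (a.map (Function.Embedding.subtype _))),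
          3 * ((K0 : ℝ) ^ (T.card + a.card) * e) ≤
      ∑ q ∈ (Icc 1 (Y * Y * Y0)).filter Squarefree,
        ((6 * Fintype.card ι * K0 : ℕ) : ℝ) ^ q.primeFactors.card * e := by
    linarith [h3]
  have h7 : 0 ≤ ∑ q ∈ (Icc 1 (Y * Y * Y0)).filter Squarefree,
      ((6 * Fintype.card ι * K0 : ℕ) : ℝ) ^ q.primeFactors.card :=
    Finset.sum_nonneg fun q _ => by positivity
  calc B ^ 2 * _ ≤ B ^ 2 * ∑ q ∈ (Icc 1 (Y * Y * Y0)).filter Squarefree,
        ((6 * Fintype.card ι * K0 : ℕ) : ℝ) ^ q.primeFactors.card * e :=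
        mul_le_mul_of_nonneg_left h6 hsq
    _ = B ^ 2 * e * ∑ q ∈ (Icc 1 (Y * Y * Y0)).filter Squarefree,
        ((6 * Fintype.card ι * K0 : ℕ) : ℝ) ^ q.primeFactors.card := by
        rw [← Finset.sum_mul]
        ring
    _ ≤ 3 * B ^ 2 * e * ∑ q ∈ (Icc 1 (Y * Y * Y0)).filter Squarefree,
        ((6 * Fintype.card ι * K0 : ℕ) : ℝ) ^ q.primeFactors.card := by
        have h8 : 0 ≤ B ^ 2 * e := mul_nonneg hsq he0
        have h9 := mul_nonneg h8 h7
        linarith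

end Pool.Agent.NC.Q
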