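import Pool.Agent.Lib.MP_0da313_nt.NC.A

set_option autoImplicit false

/-!
[NS la] The local densities of the family.
-/

namespace Pool.Agent.NC.A

open Finset Filter Polynomial
open Pool.Agent.MT (PJf)
open Pool.Agent.BVall (om)
open Pool.Agent.NC.Q (od)

/-- a small nonzero integer is not divisible by `p` -/
lemma ns_la_nd (c : ℤ) (p : ℕ) (hc : c ≠ 0) (h : c.natAbs < p) : ¬ (p : ℤ) ∣ c := by
  intro h1
  rw [Int.natCast_dvd] at h1
  have h2 := Nat.le_of_dvd (Int.natAbs_pos.mpr hc) h1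
  omega

/-- few roots modulo `p` -/
lemma ns_la_roots (G : ℤ[X]) (p D i : ℕ) (hp : p.Prime) (hD : G.natDegree ≤ D)
    (hi : ¬ (p : ℤ) ∣ G.coeff i) (S : Finset ℕ)
    (hS : ∀ y ∈ S, y < p ∧ (p : ℤ) ∣ G.eval (y : ℤ)) : S.card ≤ D := by
  classical
  have hpf : Fact p.Prime := ⟨hp⟩
  obtain ⟨H, hH⟩ : ∃ H : (ZMod p)[X], H = G.map (Int.castRingHom (ZMod p)) := ⟨_, rfl⟩
  have heval : ∀ x : ℤ, H.eval (x : ZMod p) = ((G.eval x : ℤ) : ZMod p) := by
    intro x
    rw [hH, Polynomial.eval_intCast_map]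
    simp
  have hne : H ≠ 0 := by
    intro h0
    apply hi
    have h1 : H.coeff i = 0 := by rw [h0, coeff_zero]
    rw [hH, coeff_map] at h1
    exact (ZMod.intCast_zmod_eq_zero_iff_dvd _ _).mp h1
  have h1 : S.card ≤ H.roots.toFinset.card := by
    apply Finset.card_le_card_of_injOn (fun x : ℕ => (x : ZMod p))
    · intro x hx
      have hx' := hS x (Finset.mem_coe.mp hx)
      simp only [Finset.mem_coe, Multiset.mem_toFinset, mem_roots hne, IsRoot.def]
      have h2 := heval (x : ℤ)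
      rw [Int.cast_natCast] at h2
      rw [h2, ZMod.intCast_zmod_eq_zero_iff_dvd]
      exact hx'.2
    · intro x hx y hy hxy
      have hx' := hS x (Finset.mem_coe.mp hx)
      have hy' := hS y (Finset.mem_coe.mp hy)
      simp only [] at hxy
      rw [ZMod.natCast_eq_natCast_iff] at hxy
      exact Nat.ModEq.eq_of_lt_of_lt hxy hx'.1 hy'.1
  calc _ ≤ H.roots.toFinset.card := h1
    _ ≤ Multiset.card H.roots := Multiset.toFinset_card_le _
    _ ≤ H.natDegree := H.card_roots'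
    _ ≤ G.natDegree := by rw [hH]; exact natDegree_map_le
    _ ≤ D := hD

/-- one solution of a linear congruence -/
lemma ns_la_one (p : ℕ) (hp : p.Prime) (a b : ℤ) (ha : ¬ (p : ℤ) ∣ a) :
    ∃ n0 < p, ∀ n < p, ((p : ℤ) ∣ a * n + b ↔ n = n0) := by
  have hpf : Fact p.Prime := ⟨hp⟩
  have ha' : ((a : ℤ) : ZMod p) ≠ 0 := by
    intro h
    exact ha ((ZMod.intCast_zmod_eq_zero_iff_dvd _ _).mp h)
  refine ⟨(-(b : ZMod p) / (a : ZMod p)).val, ZMod.val_lt _, fun n hn => ?_⟩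
  rw [← ZMod.intCast_zmod_eq_zero_iff_dvd]
  push_cast
  constructor
  · intro h
    have h1 : (n : ZMod p) = -(b : ZMod p) / (a : ZMod p) := by
      rw [eq_div_iff ha']
      linear_combination h
    rw [← h1, ZMod.val_cast_of_lt hn]
  · intro h
    rw [h, ZMod.natCast_val, ZMod.cast_id', id_eq]
    field_simp
    ring

variable {ι : Type} [Fintype ι] [DecidableEq ι] {D d E : ℕ}

/-- periodicity in `n` -/
lemma ns_la_dvd_n (F : Fam ι D d E) (n n' p : ℕ) (h : n ≡ n' [MOD p]) (l : ι) (y : ℤ) :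
    (p : ℤ) ∣ F.L n l y ↔ (p : ℤ) ∣ F.L n' l y := by
  apply dvd_iff_dvd_of_dvd_sub
  have h1 : F.L n l y - F.L n' l y = F.a l * ((n : ℤ) - n') := by
    rw [Fam.L, Fam.L]
    ring
  rw [h1]
  refine Dvd.dvd.mul_left ?_ _
  have h2 := (Int.natCast_modEq_iff.mpr h).symm
  exact h2.dvd

/-- periodicity in `y` -/
lemma ns_la_dvd_y (F : Fam ι D d E) (n p : ℕ) (x y : ℤ) (h : (p : ℤ) ∣ x - y) (l : ι) :
    (p : ℤ) ∣ F.L n l x ↔ (p : ℤ) ∣ F.L n l y := by
  apply dvd_iff_dvd_of_dvd_sub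
  have h1 : F.L n l x - F.L n l y = (F.g l).eval x - (F.g l).eval y := by
    rw [Fam.L, Fam.L]
    ring
  rw [h1]
  exact h.trans (Polynomial.sub_dvd_eval_sub x y (F.g l))

lemma ns_la_Cm (F : Fam ι D d E) (n n' p : ℕ) (h : n ≡ n' [MOD p]) : Cm F n p ↔ Cm F n' p := by
  rw [Cm, Cm]
  refine exists_congr fun l => exists_congr fun l' => exists_congr fun y => ?_
  rw [ns_la_dvd_n F n n' p h l y, ns_la_dvd_n F n n' p h l' y]

lemma ns_la_mem_ol (F : Fam ι D d E) (n : ℕ) (l : ι) (p : ℕ) :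
    ∃ S : Finset ℕ, S.card = ol F n l p ∧ ∀ y, y ∈ S ↔ y < p ∧ (p : ℤ) ∣ F.L n l y := by
  unfold ol om
  exact ⟨_, rfl, fun y => by rw [mem_filter, mem_range]⟩

lemma ns_la_mem_od (F : Fam ι D d E) (P : Finset ℕ) (n : ℕ) (j : PJf P) (l : ι) :
    ∃ S : Finset ℕ, S.card = od (DN F P n) j l ∧ ∀ y, y ∈ S ↔ y < (j : ℕ) ∧
      (((j : ℕ) : ℤ) ∣ F.L n l y ∧ ¬ Cm F n (j : ℕ)) := by
  classical
  unfold od
  refine ⟨_, rfl, fun y => ?_⟩
  refine Finset.mem_filter.trans ?_
  rw [mem_range]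
  rfl

/-- the number of the roots of a member -/
lemma ns_la_few (F : Fam ι D d E) (p : ℕ) (hp : p.Prime)
    (h2 : ∀ l, ¬ (p : ℤ) ∣ (F.g l).coeff d) (n : ℕ) (l : ι) (S : Finset ℕ)
    (hS : ∀ y ∈ S, y < p ∧ (p : ℤ) ∣ F.L n l y) : S.card ≤ d := by
  have hd := F.hd
  have hd0 : d ≠ 0 := by omega
  refine ns_la_roots (C (F.a l * n) + F.g l) p d d hp ?_ ?_ S ?_
  · rw [natDegree_C_add, F.hg l]
  · rw [coeff_add, coeff_C, if_neg hd0, zero_add]
    exact h2 l
  · intro y hy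
    obtain ⟨h3, h4⟩ := hS y hy
    refine ⟨h3, ?_⟩
    rw [eval_add, eval_C]
    exact h4

lemma ns_la_ol_le (F : Fam ι D d E) (p : ℕ) (hp : p.Prime)
    (h2 : ∀ l, ¬ (p : ℤ) ∣ (F.g l).coeff d) (n : ℕ) (l : ι) : ol F n l p ≤ d := by
  obtain ⟨S, hS, hm⟩ := ns_la_mem_ol F n l p
  rw [← hS]
  exact ns_la_few F p hp h2 n l S (fun y hy => (hm y).mp hy)

/-- the number of the pairs -/
lemma ns_la_sum (F : Fam ι D d E) (p : ℕ) (hp : p.Prime) (h1 : ∀ l, ¬ (p : ℤ) ∣ F.a l) (l : ι) :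
    ∑ n ∈ range p, ol F n l p = p := by
  classical
  have e : ∀ n, ol F n l p = ∑ y ∈ range p, (if (p : ℤ) ∣ F.L n l (y : ℤ) then 1 else 0) := by
    intro n
    obtain ⟨S, hS, hm⟩ := ns_la_mem_ol F n l p
    rw [← hS, ← card_filter]
    congr 1
    ext y
    rw [hm, mem_filter, mem_range]
  simp only [e]
  rw [sum_comm]
  have e2 : ∀ y ∈ range p, (∑ n ∈ range p, (if (p : ℤ) ∣ F.L n l (y : ℤ) then 1 else 0)) = 1 := by
    intro y _
    obtain ⟨n0, hn0, hn⟩ := ns_la_one p hp (F.a l) ((F.g l).eval (y : ℤ)) (h1 l)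
    rw [sum_eq_single n0]
    · rw [if_pos]
      exact (hn n0 hn0).mpr rfl
    · intro n hn1 hn2
      rw [if_neg]
      intro h3
      exact hn2 ((hn n (mem_range.mp hn1)).mp h3)
    · intro h3
      exact absurd (mem_range.mpr hn0) h3
  rw [sum_congr rfl e2, sum_const, card_range, smul_eq_mul, mul_one]

/-- the number of the classes with a common root of two members -/
lemma ns_la_cm (F : Fam ι D d E) (p : ℕ) (hp : p.Prime) (h1 : ∀ l, ¬ (p : ℤ) ∣ F.a l)
    (h3 : ∀ l l', l ≠ l' → ¬ (p : ℤ) ∣ (C (F.a l') * F.g l - C (F.a l) * F.g l').leadingCoeff)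
    (S : Finset ℕ) (hS : ∀ n ∈ S, n < p ∧ Cm F n p) :
    S.card ≤ Fintype.card ι ^ 2 * d := by
  classical
  have hp0 : (0 : ℤ) < p := by exact_mod_cast hp.pos
  have hsub : S ⊆ (univ : Finset (ι × ι)).biUnion (fun q => S.filter (fun n => q.1 ≠ q.2 ∧
      ∃ y : ℤ, (p : ℤ) ∣ F.L n q.1 y ∧ (p : ℤ) ∣ F.L n q.2 y)) := by
    intro n hn
    obtain ⟨_, l, l', y, hl, hy, hy'⟩ := hS n hn
    rw [mem_biUnion]
    exact ⟨(l, l'), mem_univ _, mem_filter.mpr ⟨hn, hl, y, hy, hy'⟩⟩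
  have hcard := (card_le_card hsub).trans (card_biUnion_le_card_mul _ _ d ?_)
  · rw [card_univ, Fintype.card_prod] at hcard
    rw [sq]
    exact hcard
  · rintro ⟨l, l'⟩ _
    obtain ⟨T, hT⟩ : ∃ T : Finset ℕ, T = S.filter (fun n => (l, l').1 ≠ (l, l').2 ∧
      ∃ y : ℤ, (p : ℤ) ∣ F.L n (l, l').1 y ∧ (p : ℤ) ∣ F.L n (l, l').2 y) := ⟨_, rfl⟩
    rw [← hT]
    by_cases hll : l = l'
    · have : T = ∅ := by
        rw [hT]
        apply filter_false_of_mem
        rintro n _ ⟨h, _⟩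
        exact h hll
      rw [this, card_empty]
      exact Nat.zero_le _
    · have hex : ∀ n ∈ T, ∃ m : ℕ, m < p ∧ (p : ℤ) ∣ F.L n l m ∧ (p : ℤ) ∣ F.L n l' m := by
        intro n hn
        rw [hT, mem_filter] at hn
        obtain ⟨_, _, y, hy, hy'⟩ := hn
        have h5 : 0 ≤ y % p := Int.emod_nonneg _ hp0.ne'
        have h6 : y % p < p := Int.emod_lt_of_pos _ hp0
        have h7 : (((y % p).toNat : ℕ) : ℤ) = y % p := Int.toNat_of_nonneg h5
        have h8 : (p : ℤ) ∣ ((((y % p).toNat : ℕ) : ℤ)) - y := by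
          rw [h7]
          have : y % p - y = -(p * (y / p)) := by
            have := Int.emod_add_mul_ediv y p
            linarith
          rw [this]
          exact (dvd_mul_right _ _).neg_right
        refine ⟨(y % p).toNat, by omega, ?_, ?_⟩
        · exact (ns_la_dvd_y F n p _ y h8 l).mpr hy
        · exact (ns_la_dvd_y F n p _ y h8 l').mpr hy'
      choose! f hf using hex
      have hinj : Set.InjOn f (T : Set ℕ) := by
        intro n hn n' hn' hnn
        obtain ⟨_, h5, _⟩ := hf n (mem_coe.mp hn)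
        obtain ⟨_, h6, _⟩ := hf n' (mem_coe.mp hn')
        have hn1 : n < p := by
          have := mem_coe.mp hn
          rw [hT, mem_filter] at this
          exact (hS n this.1).1
        have hn1' : n' < p := by
          have := mem_coe.mp hn'
          rw [hT, mem_filter] at this
          exact (hS n' this.1).1
        obtain ⟨n0, hn0, hn2⟩ := ns_la_one p hp (F.a l) ((F.g l).eval ((f n' : ℕ) : ℤ)) (h1 l)
        rw [hnn] at h5
        rw [(hn2 n hn1).mp h5, (hn2 n' hn1').mp h6]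
      rw [← card_image_of_injOn hinj]
      refine ns_la_roots (C (F.a l') * F.g l - C (F.a l) * F.g l') p d _ hp ?_ (h3 l l' hll)
        (T.image f) ?_
      · refine (natDegree_sub_le _ _).trans (max_le ?_ ?_)
        · exact (natDegree_C_mul_le _ _).trans (F.hg l).le
        · exact (natDegree_C_mul_le _ _).trans (F.hg l').le
      · intro y hy
        rw [mem_image] at hy
        obtain ⟨n, hn, rfl⟩ := hy
        obtain ⟨h4, h5, h6⟩ := hf n hn
        refine ⟨h4, ?_⟩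
        have h7 : (C (F.a l') * F.g l - C (F.a l) * F.g l').eval ((f n : ℕ) : ℤ) =
            F.a l' * F.L n l (f n : ℕ) - F.a l * F.L n l' (f n : ℕ) := by
          rw [eval_sub, eval_mul, eval_mul, eval_C, eval_C, Fam.L, Fam.L]
          ring
        rw [h7]
        exact dvd_sub (Dvd.dvd.mul_left h5 _) (Dvd.dvd.mul_left h6 _)

theorem p_la : S_la := by
  intro ι _ _ D d E F
  classical
  obtain ⟨K1, hK1⟩ : ∃ K1 : ℕ, K1 = Fintype.card ι ^ 2 * d ^ 2 + d + 2 := ⟨_, rfl⟩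
  refine ⟨K1, by omega, ?_⟩
  obtain ⟨kk, hkk⟩ : ∃ kk : ι × ι → ℤ, kk = fun q =>
    (C (F.a q.2) * F.g q.1 - C (F.a q.1) * F.g q.2).leadingCoeff := ⟨_, rfl⟩
  obtain ⟨Z0, hZ0⟩ : ∃ Z0 : ℕ, Z0 = (∑ l, (F.a l).natAbs) + (∑ l, ((F.g l).coeff d).natAbs) +
    (∑ q, (kk q).natAbs) + Fintype.card ι * K1 + 2 := ⟨_, rfl⟩
  filter_upwards [eventually_ge_atTop Z0] with z hz
  have hg0 : ∀ l, (F.g l).coeff d ≠ 0 := by
    intro l h
    have h1 : F.g l ≠ 0 := by
      intro h0
      have := F.hg l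
      rw [h0, natDegree_zero] at this
      have := F.hd
      omega
    have h2 := leadingCoeff_ne_zero.mpr h1
    rw [leadingCoeff, F.hg l] at h2
    exact h2 h
  have hpa : ∀ p : ℕ, z < p → ∀ l, ¬ (p : ℤ) ∣ F.a l := by
    intro p hp l
    refine ns_la_nd _ _ (F.ha l) ?_
    have := single_le_sum (f := fun l => (F.a l).natAbs) (fun _ _ => Nat.zero_le _) (mem_univ l)
    omega
  have hpg : ∀ p : ℕ, z < p → ∀ l, ¬ (p : ℤ) ∣ (F.g l).coeff d := by
    intro p hp l
    refine ns_la_nd _ _ (hg0 l) ?_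
    have := single_le_sum (f := fun l => ((F.g l).coeff d).natAbs) (fun _ _ => Nat.zero_le _)
      (mem_univ l)
    omega
  have hpk : ∀ p : ℕ, z < p → ∀ l l', l ≠ l' →
      ¬ (p : ℤ) ∣ (C (F.a l') * F.g l - C (F.a l) * F.g l').leadingCoeff := by
    intro p hp l l' hll
    refine ns_la_nd _ _ ?_ ?_
    · rw [Ne, leadingCoeff_eq_zero, sub_eq_zero]
      exact F.hk l l' hll
    · have h6 : (kk (l, l')).natAbs ≤ ∑ q, (kk q).natAbs :=
        single_le_sum (f := fun q => (kk q).natAbs) (fun _ _ => Nat.zero_le _) (mem_univ (l, l'))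
      have h7 : kk (l, l') = (C (F.a l') * F.g l - C (F.a l) * F.g l').leadingCoeff := by rw [hkk]
      rw [← h7]
      omega
  have hcard : Fintype.card ι * K1 < z := by omega
  -- the local conditions
  have hod : ∀ (P : Finset ℕ) (n : ℕ) (j : PJf P) (l : ι), od (DN F P n) j l ≤ ol F n l (j : ℕ) := by
    intro P n j l
    obtain ⟨S, hS, hm⟩ := ns_la_mem_od F P n j l
    obtain ⟨T, hT, hm'⟩ := ns_la_mem_ol F n l (j : ℕ)
    rw [← hS, ← hT]
    refine card_le_card fun y hy => ?_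
    rw [hm] at hy
    rw [hm']
    exact ⟨hy.1, hy.2.1⟩
  have hdK : d ≤ K1 := by omega
  refine ⟨fun P hP => ?_, ?_⟩
  · have hprime : ∀ j : PJf P, (j : ℕ).Prime ∧ z < (j : ℕ) := fun j => hP j j.2
    have hodK : ∀ n (j : PJf P) l, od (DN F P n) j l ≤ d := fun n j l =>
      (hod P n j l).trans (ns_la_ol_le F _ (hprime j).1 (hpg _ (hprime j).2) n l)
    have hle : ∀ n (j : PJf P) l, rn F P n j l ≤ K1 / ((j : ℕ) : ℝ) := by
      intro n j l
      rw [rn]
      refine div_le_div_of_nonneg_right ?_ (Nat.cast_nonneg _)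
      exact_mod_cast (hodK n j l).trans hdK
    refine ⟨⟨hP, ?_, ?_, hle, ?_⟩, ?_, fun n j l => (hodK n j l).trans hdK, ?_, ?_⟩
    · intro j l n n' h
      show rn F P n j l = rn F P n' j l
      rw [rn, rn]
      congr 2
      obtain ⟨S, hS, hm⟩ := ns_la_mem_od F P n j l
      obtain ⟨T, hT, hm'⟩ := ns_la_mem_od F P n' j l
      rw [← hS, ← hT]
      congr 1
      ext y
      rw [hm, hm', ns_la_dvd_n F n n' _ h l y, ns_la_Cm F n n' _ h]
    · intro n j l
      show 0 ≤ rn F P n j l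
      rw [rn]
      positivity
    · intro j l
      obtain ⟨p, hp⟩ : ∃ p : ℕ, p = (j : ℕ) := ⟨_, rfl⟩
      have hpp : p.Prime := by rw [hp]; exact (hprime j).1
      have hpz : z < p := by rw [hp]; exact (hprime j).2
      obtain ⟨S, hS⟩ : ∃ S : Finset ℕ, S = (range p).filter (fun n => Cm F n p) := ⟨_, rfl⟩
      have hScard : S.card ≤ Fintype.card ι ^ 2 * d := by
        refine ns_la_cm F p hpp (hpa p hpz) (hpk p hpz) S fun n hn => ?_
        rw [hS, mem_filter, mem_range] at hn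
        exact hn
      have hsum := ns_la_sum F p hpp (hpa p hpz) l
      have hup : ∑ n ∈ range p, od (DN F P n) j l ≤ p := by
        calc ∑ n ∈ range p, od (DN F P n) j l ≤ ∑ n ∈ range p, ol F n l p :=
              sum_le_sum fun n _ => by rw [hp]; exact hod P n j l
          _ = p := hsum
      have hlow : p ≤ ∑ n ∈ range p, od (DN F P n) j l + Fintype.card ι ^ 2 * d ^ 2 := by
        have h1 : ∀ n ∈ range p, ol F n l p ≤ od (DN F P n) j l + (if Cm F n p then d else 0) := by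
          intro n _
          by_cases hc : Cm F n p
          · rw [if_pos hc]
            exact (ns_la_ol_le F p hpp (hpg p hpz) n l).trans (Nat.le_add_left _ _)
          · rw [if_neg hc, add_zero]
            obtain ⟨T, hT, hm⟩ := ns_la_mem_od F P n j l
            obtain ⟨T', hT', hm'⟩ := ns_la_mem_ol F n l p
            rw [← hT, ← hT']
            refine card_le_card fun y hy => ?_
            rw [hm'] at hy
            rw [hm, ← hp]
            exact ⟨hy.1, hy.2, hc⟩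
        have h2 := sum_le_sum h1
        rw [hsum, sum_add_distrib, ← sum_filter, ← hS, sum_const, smul_eq_mul] at h2
        have h3 : S.card * d ≤ Fintype.card ι ^ 2 * d ^ 2 := by
          calc S.card * d ≤ Fintype.card ι ^ 2 * d * d := Nat.mul_le_mul_right _ hScard
            _ = Fintype.card ι ^ 2 * d ^ 2 := by ring
        omega
      have hr : ∑ n ∈ range p, rn F P n j l =
          ((∑ n ∈ range p, od (DN F P n) j l : ℕ) : ℝ) / (p : ℝ) := by
        rw [Nat.cast_sum, sum_div]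
        refine sum_congr rfl fun n _ => ?_
        rw [rn, hp]
      show |(∑ n ∈ range (j : ℕ), rn F P n j l) / ((j : ℕ) : ℝ) - 1 / (((j : ℕ) : ℝ) - 1)| ≤
        K1 / ((j : ℕ) : ℝ) ^ 2
      rw [← hp, hr]
      obtain ⟨s, hs⟩ : ∃ s : ℝ, s = ((∑ n ∈ range p, od (DN F P n) j l : ℕ) : ℝ) := ⟨_, rfl⟩
      obtain ⟨x, hx⟩ : ∃ x : ℝ, x = (p : ℝ) := ⟨_, rfl⟩
      have hs1 : s ≤ x := by rw [hs, hx]; exact_mod_cast hup
      have hs2 : x + 2 ≤ s + K1 := by
        rw [hs, hx]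
        have h4 : p + 2 ≤ ∑ n ∈ range p, od (DN F P n) j l + K1 := by omega
        exact_mod_cast h4
      have hs0 : 0 ≤ s := by rw [hs]; exact Nat.cast_nonneg _
      have hx2 : 2 ≤ x := by rw [hx]; exact_mod_cast hpp.two_le
      rw [← hs, ← hx, abs_le]
      have hx0 : 0 < x := by linarith
      have hx1 : 0 < x - 1 := by linarith
      have hxx : 0 < x ^ 2 := by positivity
      have e1 : s / x / x = s / x ^ 2 := by rw [div_div, sq]
      rw [e1]
      constructor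
      · have h5 : 1 / (x - 1) ≤ (s + K1) / x ^ 2 := by
          rw [div_le_div_iff₀ hx1 hxx]
          nlinarith
        rw [add_div] at h5
        linarith
      · have h5 : s / x ^ 2 ≤ 1 / (x - 1) := by
          rw [div_le_div_iff₀ hxx hx1]
          nlinarith
        have h6 : 0 ≤ (K1 : ℝ) / x ^ 2 := by positivity
        linarith
    · intro n j
      have h1 : ∑ l, rn F P n j l ≤ ∑ l : ι, (K1 : ℝ) / ((j : ℕ) : ℝ) :=
        sum_le_sum fun l _ => hle n j l
      rw [sum_const, card_univ, nsmul_eq_mul] at h1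
      refine h1.trans ?_
      have hj0 : (0 : ℝ) < ((j : ℕ) : ℝ) := by exact_mod_cast (hprime j).1.pos
      rw [mul_div_assoc', div_le_one hj0]
      have h2 : Fintype.card ι * K1 ≤ (j : ℕ) := by
        have := (hprime j).2
        omega
      exact_mod_cast h2
    · intro n j l x y hxy
      show (((j : ℕ) : ℤ) ∣ F.L n l x ∧ ¬ Cm F n (j : ℕ)) ↔
        (((j : ℕ) : ℤ) ∣ F.L n l y ∧ ¬ Cm F n (j : ℕ))
      rw [ns_la_dvd_y F n _ x y hxy l]
    · rintro n j l l' y hll ⟨⟨h1, h2⟩, h3, _⟩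
      exact h2 ⟨l, l', y, hll, h1, h3⟩
  · intro p hp hzp l
    refine ⟨fun n => (ns_la_ol_le F p hp (hpg p hzp) n l).trans hdK, ?_,
      ns_la_sum F p hp (hpa p hzp) l⟩
    intro n n' h
    obtain ⟨S, hS, hm⟩ := ns_la_mem_ol F n l p
    obtain ⟨T, hT, hm'⟩ := ns_la_mem_ol F n' l p
    rw [← hS, ← hT]
    congr 1
    ext y
    rw [hm, hm', ns_la_dvd_n F n n' p h l y]

end Pool.Agent.NC.A
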