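import Pool.Agent.Lib.MP_0da313_nt.NC.F
import Pool.Agent.Lib.MP_0da313_nt.CM.P.cnt
import Pool.Agent.Lib.MP_0da313_nt.TC.P.cn2

set_option autoImplicit false

/-!
[NS cn]: the final count for a good `n`.
-/

namespace Pool.Agent.NC.F

open Finset Filter Polynomial
open Pool.Agent.MP89da58 (bil pw nn supp part kapD tri mem_part)
open Pool.Agent.MT (PJf dvI ZI)
open Pool.Agent.BVall (om PK lev RepB Dens mem_PK)
open Pool.Agent.Lib.MP_0da313_nt (Admissible lineRestrict val singV W small)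
open Pool.Agent.CH (thP)
open Pool.Agent.CM (z0)
open Pool.Agent.CM.F (Pre)
open Pool.Agent.TC (wN)
open Pool.Agent.TC.W (qf WP2)
open Pool.Agent.TC.F (tc_cn2_thP_nonneg tc_cn2_thP_prime tc_cn2_link)
open Pool.Agent.NC.Q (qr od)
open Pool.Agent.NC.A (DN rn sl Par3 Wt3)
open Pool.Agent.NC.M (mN)

/-- The combinatorial core. -/
theorem ns_cn_core (S : Finset ℕ) (h a Z : ℕ → ℝ) {A1 Zm r : ℝ}
    (hh : ∀ x ∈ S, 0 ≤ h x ∧ h x ≤ 1) (ha : ∀ x ∈ S, h x ≠ 0 → 0 ≤ a x ∧ a x ≤ A1)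
    (hZ : ∀ x ∈ S, h x ≠ 0 → 0 ≤ Z x ∧ Z x ≤ Zm) (hr : 0 ≤ r) :
    ∑ x ∈ S, h x * (a x * Z x) - r * ∑ x ∈ S, h x * Z x ≤
      A1 * Zm * ((S.filter (fun x => h x ≠ 0 ∧ r < a x)).card : ℝ) := by
  classical
  have h1 : ∑ x ∈ S, h x * (a x * Z x) - r * ∑ x ∈ S, h x * Z x =
      ∑ x ∈ S, h x * ((a x - r) * Z x) := by
    rw [Finset.mul_sum, ← Finset.sum_sub_distrib]
    apply Finset.sum_congr rfl
    intro x _
    ring
  rw [h1]
  have h2 : ∀ x ∈ S, h x * ((a x - r) * Z x) ≤ if h x ≠ 0 ∧ r < a x then A1 * Zm else 0 := by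
    intro x hx
    obtain ⟨b0, b1⟩ := hh x hx
    by_cases h0 : h x = 0
    · rw [h0, zero_mul, if_neg (by tauto)]
    obtain ⟨a0, a1⟩ := ha x hx h0
    obtain ⟨z0, z1⟩ := hZ x hx h0
    split_ifs with hc
    · have e1 : (a x - r) * Z x ≤ A1 * Zm := by
        calc (a x - r) * Z x ≤ a x * Z x := mul_le_mul_of_nonneg_right (by linarith) z0
          _ ≤ A1 * Zm := mul_le_mul a1 z1 z0 (a0.trans a1)
      have e2 : 0 ≤ (a x - r) * Z x := mul_nonneg (by linarith [hc.2]) z0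
      calc h x * ((a x - r) * Z x) ≤ 1 * ((a x - r) * Z x) := mul_le_mul_of_nonneg_right b1 e2
        _ = (a x - r) * Z x := one_mul _
        _ ≤ A1 * Zm := e1
    · have hc' : a x ≤ r := by
        by_contra h3
        exact hc ⟨h0, not_le.1 h3⟩
      apply mul_nonpos_of_nonneg_of_nonpos b0
      exact mul_nonpos_of_nonpos_of_nonneg (by linarith) z0
  refine (Finset.sum_le_sum h2).trans ?_
  rw [← Finset.sum_filter, Finset.sum_const, nsmul_eq_mul, mul_comm]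

/-- The number of the primes. -/
theorem ns_cn_num {κ : Type} [Fintype κ] (θ : κ → ℝ) (p : κ → Prop) [DecidablePred p]
    {l h τ : ℝ} {d : ℕ} (hd : 1 ≤ d) (hl : 0 < l) (hlh : l ≤ 2 * d * h) (hτ : 0 ≤ τ)
    (h0 : ∀ i, θ i ≤ 2 * l) (hp : ∀ i, ¬ p i → θ i ≤ 0)
    (hs : Fintype.card κ * τ * h / 10 < ∑ i, θ i) :
    Fintype.card κ * τ / 40 ≤ d * ((univ.filter p).card : ℝ) ∧ 1 ≤ (univ.filter p).card := by
  classical
  have hdr : (1 : ℝ) ≤ d := by exact_mod_cast hd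
  have h1 : ∑ i, θ i ≤ ((univ.filter p).card : ℝ) * (2 * l) := by
    calc ∑ i, θ i ≤ ∑ i, (if p i then 2 * l else 0) := by
          apply Finset.sum_le_sum
          intro i _
          split_ifs with hi
          · exact h0 i
          · exact hp i hi
      _ = _ := by rw [← Finset.sum_filter, Finset.sum_const, nsmul_eq_mul]
  have hKτ : 0 ≤ (Fintype.card κ : ℝ) * τ := by positivity
  have h2 : (Fintype.card κ * τ / 40) * (2 * l) < d * ((univ.filter p).card : ℝ) * (2 * l) := by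
    have e1 : (Fintype.card κ * τ / 40) * (2 * l) ≤ d * (Fintype.card κ * τ * h / 10) := by
      have e2 : (Fintype.card κ : ℝ) * τ * l ≤ Fintype.card κ * τ * (2 * d * h) :=
        mul_le_mul_of_nonneg_left hlh hKτ
      nlinarith
    have e3 : (d : ℝ) * (Fintype.card κ * τ * h / 10) < d * ∑ i, θ i :=
      mul_lt_mul_of_pos_left hs (by linarith)
    have e4 : (d : ℝ) * ∑ i, θ i ≤ d * (((univ.filter p).card : ℝ) * (2 * l)) :=
      mul_le_mul_of_nonneg_left h1 (by linarith)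
    calc _ ≤ _ := e1
      _ < _ := e3
      _ ≤ _ := e4
      _ = _ := by ring
  have h3 : Fintype.card κ * τ / 40 < d * ((univ.filter p).card : ℝ) :=
    lt_of_mul_lt_mul_right h2 (by positivity)
  refine ⟨h3.le, ?_⟩
  have h4 : (0 : ℝ) < d * ((univ.filter p).card : ℝ) := lt_of_le_of_lt (by positivity) h3
  have h5 : (0 : ℝ) < ((univ.filter p).card : ℝ) := by
    by_contra h6
    have h7 : ((univ.filter p).card : ℝ) ≤ 0 := not_lt.1 h6
    nlinarith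
  exact_mod_cast h5

/-- The lower bound for `V`. -/
theorem ns_cn_V {ι : Type} [Fintype ι] [DecidableEq ι] {D d E : ℕ} (F : Fam ι D d E) (hD : 1 ≤ D)
    {n n' : ℕ} (hn : F.N0 ≤ n) {l : ℝ} (hl : (2 : ℝ) ^ (2 * D + n') ≤ l) :
    (∏ p ∈ small (2 * D), (1 / (p : ℝ))) * (1 / l ^ (8 * D)) ≤ F.V n n' := by
  classical
  have hdens := Pool.Agent.MT.dens_poly (F.G n) D (2 * D) (F.hdeg n hn) (by omega) (F.hloc n hn)
  have h := Pool.Agent.MT.W_ge hdens n' hl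
  rw [show 4 * (2 * D) = 8 * D by ring] at h
  exact h

/-- The upper bound for `V`. -/
theorem ns_cn_V1 {ι : Type} [Fintype ι] [DecidableEq ι] {D d E : ℕ} (F : Fam ι D d E) {n n' : ℕ}
    (hn : F.N0 ≤ n) : F.V n n' ≤ 1 := by
  classical
  have hdens := Pool.Agent.MT.dens_poly (F.G n) D (2 * D) (F.hdeg n hn) (by omega) (F.hloc n hn)
  unfold Fam.V
  apply Pool.Agent.Lib.MP_0da313_nt.W_le_one
  · intro p hp
    exact (hdens.lt_one (mem_PK.1 hp).1).le
  · intro p _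
    exact hdens.nonneg p

/-- The size of `H`. -/
theorem ns_cn_H (d : ℕ) (hd : 1 ≤ d) : ∀ᶠ N : ℕ in atTop, 1 ≤ Hn d N ∧ Hn d N ≤ N ∧
    Real.log N ≤ 2 * d * Real.log (Hn d N) ∧ Real.log (Hn d N) ≤ Real.log N := by
  have hdr : (1 : ℝ) ≤ d := by exact_mod_cast hd
  have hd0 : (0 : ℝ) < 1 / (2 * d) := by positivity
  have h1 : ∀ᶠ N : ℕ in atTop, (2 : ℝ) ≤ (N : ℝ) ^ (1 / (2 * d) : ℝ) :=
    ((tendsto_rpow_atTop hd0).comp tendsto_natCast_atTop_atTop).eventually_ge_atTop _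
  filter_upwards [h1, eventually_ge_atTop 1] with N h2 hN
  have hN1 : (1 : ℝ) ≤ N := by exact_mod_cast hN
  have hN0 : (0 : ℝ) < N := by linarith
  have e1 : (N : ℝ) ^ (1 / (d : ℝ)) = (N : ℝ) ^ (1 / (2 * d) : ℝ) * (N : ℝ) ^ (1 / (2 * d) : ℝ) := by
    rw [← Real.rpow_add hN0]
    congr 1
    field_simp
    norm_num
  have e2 : (N : ℝ) ^ (1 / (2 * d) : ℝ) ≤ Hn d N := by
    unfold Hn
    have e3 := Nat.lt_floor_add_one ((N : ℝ) ^ (1 / (d : ℝ)))
    nlinarith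
  have e4 : Hn d N ≤ N := by
    unfold Hn
    have e5 : (N : ℝ) ^ (1 / (d : ℝ)) ≤ (N : ℝ) ^ (1 : ℝ) := by
      apply Real.rpow_le_rpow_of_exponent_le hN1
      rw [div_le_one (by linarith)]
      exact hdr
    rw [Real.rpow_one] at e5
    exact_mod_cast (Nat.floor_le (by positivity)).trans e5
  have e6 : (1 : ℝ) ≤ Hn d N := by linarith
  refine ⟨by exact_mod_cast e6, e4, ?_, ?_⟩
  · have e7 := Real.log_le_log (by positivity) e2
    rw [Real.log_rpow hN0] at e7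
    rw [one_div, inv_mul_le_iff₀ (by positivity)] at e7
    exact e7
  · exact Real.log_le_log (by linarith) (by exact_mod_cast e4)

theorem p_cn : S_cn := by
  classical
  intro hnm hla hqp hwin hmas _ _ hT hS hwm hpre ι _ _ _ D d E B0 t0 hD hd hE hB0 ht0
  obtain ⟨K, hK⟩ : ∃ K : ℝ, K = (Fintype.card ι : ℝ) := ⟨_, rfl⟩
  have hK1 : 1 ≤ K := by
    rw [hK]
    exact_mod_cast Fintype.card_pos
  obtain ⟨B, hB⟩ : ∃ B : ℕ, B = B0 ^ Fintype.card ι := ⟨_, rfl⟩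
  have hB1' : 1 ≤ B := by rw [hB]; exact Nat.one_le_pow _ _ hB0
  have hBr : (1 : ℝ) ≤ B := by exact_mod_cast hB1'
  have hBB : (B : ℝ) = (B0 : ℝ) ^ Fintype.card ι := by rw [hB]; push_cast; rfl
  obtain ⟨Zm, hZm⟩ : ∃ Z : ℝ, Z = (2 ^ (Fintype.card ι * (B0 + 1)) * (B : ℝ)) ^ 2 := ⟨_, rfl⟩
  have hZm0 : 0 < Zm := by rw [hZm]; positivity
  have hdr : (2 : ℝ) ≤ d := by exact_mod_cast hd
  have hEr : (1 : ℝ) ≤ E := by exact_mod_cast hE
  refine ⟨t0 / (8 * d * Zm * (10000 * d * E)), by positivity, ?_⟩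
  intro F B1 hB1
  obtain ⟨c1, hc1⟩ : ∃ c : ℝ, c = ∏ p ∈ small (2 * D), (1 / (p : ℝ)) := ⟨_, rfl⟩
  have hc1pos : 0 < c1 := by
    rw [hc1]
    apply Finset.prod_pos
    intro p hp
    have hpp : p.Prime := (Finset.mem_filter.mp hp).2
    have : (0 : ℝ) < p := by exact_mod_cast hpp.pos
    positivity
  have hCC : 1 ≤ 10000 * d * E := by
    have : 0 < 10000 * d * E := by positivity
    omega
  obtain ⟨l0, hnm⟩ := hnm ι D d (10000 * d * E) B c1 t0 (by omega) hCC hc1pos ht0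
  obtain ⟨-, C, hC1, hwin⟩ := hwin ι D d E F
  have hCr : (1 : ℝ) ≤ C := by exact_mod_cast hC1
  obtain ⟨K1, hK11, hla⟩ := hla ι D d E F
  obtain ⟨Z0, hZ0⟩ := eventually_atTop.1 hla
  have hcast : Tendsto (fun n : ℕ => (n : ℝ)) atTop atTop := tendsto_natCast_atTop_atTop
  have evlog : ∀ᶠ n : ℕ in atTop, max l0 1 ≤ Real.log n :=
    hcast.eventually (Real.tendsto_log_atTop.eventually_ge_atTop _)
  have ev1 : ∀ᶠ n : ℕ in atTop, (C : ℝ) * (n : ℝ) ^ (1 / 10000 : ℝ) < n := by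
    filter_upwards [eventually_ge_atTop (C ^ 2 + 1)] with n hn
    have hn' : ((C : ℝ)) ^ 2 + 1 ≤ n := by exact_mod_cast hn
    have hn1 : (1 : ℝ) ≤ n := by nlinarith [sq_nonneg (C : ℝ)]
    have e1 : (n : ℝ) ^ (1 / 10000 : ℝ) ≤ Real.sqrt n := by
      rw [Real.sqrt_eq_rpow]
      exact Real.rpow_le_rpow_of_exponent_le hn1 (by norm_num)
    have e2 : (C : ℝ) < Real.sqrt n := by
      apply Real.lt_sqrt_of_sq_lt
      linarith
    have e3 : Real.sqrt n * Real.sqrt n = n := Real.mul_self_sqrt (by linarith)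
    have e4 : 0 < Real.sqrt n := by linarith
    calc (C : ℝ) * (n : ℝ) ^ (1 / 10000 : ℝ) ≤ C * Real.sqrt n :=
          mul_le_mul_of_nonneg_left e1 (by linarith)
      _ < Real.sqrt n * Real.sqrt n := mul_lt_mul_of_pos_right e2 e4
      _ = n := e3
  filter_upwards [hwin, hmas ι D d E F, hT ι D d E F B0 B B1 (8 * D + 8) hD hB0 hB1,
    hS ι D d E F B0 B (8 * D + 8) hD hB0, hwm ι D d E F B0 B hD hB0, evlog, ev1,
    ns_cn_H d (by omega), eventually_ge_atTop (Z0 ^ B0 + 2)]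
    with N hwin hmas hT hS hwm evlog ev1 hH hNN
  intro n hnI n' P hPar hl2 Y g g1 a τ hY hW hτ0 hτ1 hEr hq0 hq1 hsl
  obtain ⟨hN0, hwin⟩ := hwin
  have hwin := hwin n hnI
  obtain ⟨hwh, -, hm1, hm2⟩ := hmas
  have hT := hT n hnI n' P hPar
  have hS := hS n hnI n' P hPar
  have hwm := hwm n hnI n' P hPar
  obtain ⟨hH1, hHN, hH2, hH3⟩ := hH
  have hl0 : l0 ≤ Real.log N := (le_max_left _ _).trans evlog
  have hlog1 : 1 ≤ Real.log N := (le_max_right _ _).trans evlog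
  have hnN0 : F.N0 ≤ n := by
    have := (Finset.mem_Ioc.1 hnI).1
    omega
  have hNR : (1 : ℝ) ≤ N := by
    have : 1 ≤ N := by omega
    exact_mod_cast this
  obtain ⟨Fp, Fm, hFp, hFm, hpt, hmt⟩ := hpre (2 * D) (by omega) n'
  have hPre : Pre D n' Fp Fm := ⟨hFp, hFm, hpt, hmt⟩
  -- `z` is large
  have hZz : Z0 ≤ z0 D n' := by
    by_contra hc
    have h1 : z0 D n' ^ B0 ≤ Z0 ^ B0 := Nat.pow_le_pow_left (not_le.1 hc).le _
    have h2 := hPar.hzB
    omega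
  have hlaP := (hZ0 (z0 D n') hZz).1 P (fun p hp => ⟨(hPar.hP p hp).1, (hPar.hP p hp).2.1⟩)
  obtain ⟨hLd, hsum, -, -, -⟩ := hlaP
  have hqpos : ∀ g : (PJf P → Option ι) → ℝ, 0 ≤ qr (rn F P n) g := fun g =>
    hqp ι (PJf P) (rn F P n) g (fun j l => hLd.nn n j l) (hsum n)
  have hzlev := CM.F.cnt_z_le_lev D n'
  have hz1 := CM.F.cnt_z_pos D n'
  have hlev1 : (1 : ℝ) ≤ lev (2 * D) n' := by exact_mod_cast hz1.trans hzlev
  have hzlevR : (z0 D n' : ℝ) ≤ lev (2 * D) n' := by exact_mod_cast hzlev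
  have hz2 : 2 ≤ z0 D n' := by
    unfold z0
    calc 2 = 2 ^ 1 := rfl
      _ ≤ _ := Nat.pow_le_pow_right (by norm_num) Nat.one_le_two_pow
  have hHR : (1 : ℝ) ≤ Hn d N := by exact_mod_cast hH1
  have hHNR : (Hn d N : ℝ) ≤ N := by exact_mod_cast hHN
  have hHe : (Hn d N : ℝ) ^ (1 / 10000 : ℝ) ≤ (N : ℝ) ^ (1 / 10000 : ℝ) :=
    Real.rpow_le_rpow (by linarith) hHNR (by norm_num)
  have hzn : (z0 D n' : ℝ) ≤ N := by
    calc (z0 D n' : ℝ) ≤ lev (2 * D) n' := hzlevR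
      _ = (lev (2 * D) n' : ℝ) ^ 1 := (pow_one _).symm
      _ ≤ (lev (2 * D) n' : ℝ) ^ 3 := pow_le_pow_right₀ hlev1 (by omega)
      _ ≤ (Hn d N : ℝ) ^ (1 / 10000 : ℝ) := hPar.hlev
      _ ≤ (N : ℝ) ^ (1 / 10000 : ℝ) := hHe
      _ ≤ (N : ℝ) ^ (1 : ℝ) := Real.rpow_le_rpow_of_exponent_le hNR (by norm_num)
      _ = N := Real.rpow_one _
  obtain ⟨κ, hκ⟩ : ∃ κ : ℝ, κ = kapD (z0 D n') := ⟨_, rfl⟩
  have hκ0 : 0 < κ := by
    rw [hκ]
    exact Pool.Agent.MT.kapD_pos _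
  have hmer : 1 ≤ 1000 * (κ * Real.log N) := by
    have e1 := Pool.Agent.MT.mertens (z0 D n') hz2
    rw [← hκ] at e1
    have e2 : Real.log (z0 D n') ≤ Real.log N := by
      apply Real.log_le_log _ hzn
      exact_mod_cast (by omega : 0 < z0 D n')
    calc (1 : ℝ) ≤ 1000 * κ * Real.log (z0 D n') := e1
      _ ≤ 1000 * κ * Real.log N := mul_le_mul_of_nonneg_left e2 (by positivity)
      _ = _ := by ring
  have hVlo : c1 / (Real.log N) ^ (8 * D) ≤ F.V n n' := by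
    have e1 := ns_cn_V F hD hnN0 hl2
    rw [← hc1] at e1
    refine le_trans (le_of_eq ?_) e1
    ring
  have hV1 := ns_cn_V1 F (n' := n') hnN0
  have hV0 : 0 ≤ F.V n n' := le_trans (by positivity) hVlo
  have hτp : 0 < τ := lt_of_lt_of_le ht0 hτ0
  -- the weights
  have hWt : Wt3 d N B g := by
    refine ⟨fun α => by rw [hBB]; exact hW.bd α, fun α hα => ?_⟩
    exact le_trans (by exact_mod_cast hW.sup α hα) hY
  have hWt1 : ∀ l, Wt3 d N B (g1 l) := by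
    intro l
    refine ⟨fun α => by rw [hBB]; exact hW.bdi l α, fun α hα => ?_⟩
    exact le_trans (by exact_mod_cast (hW.supi l α hα).2) hY
  have hne1 : ∀ l α, g1 l α ≠ 0 → ∀ j, α j ≠ some l := by
    intro l α hα j hj
    have e1 := (hW.supi l α hα).1
    have e2 : j ∈ part α l := mem_part.2 hj
    rw [e1] at e2
    exact absurd e2 (Finset.notMem_empty _)
  -- the points
  obtain ⟨X, hX⟩ : ∃ X : Finset ℕ,
    X = (Icc 1 (Hn d N)).filter (fun x : ℕ => F.Rg n (z0 D n') x) := ⟨_, rfl⟩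
  have hXm : ∀ x ∈ X, x ∈ Icc 1 (Hn d N) ∧ F.Rg n (z0 D n') x := by
    intro x hx
    rw [hX, Finset.mem_filter] at hx
    exact hx
  have hX1 : ∀ x ∈ X, 1 ≤ x := fun x hx => (Finset.mem_Icc.1 (hXm x hx).1).1
  obtain ⟨θ, hθ⟩ : ∃ θ : ι → ℕ → ℝ, θ = fun l (x : ℕ) => thP (F.L n l (x : ℤ)).toNat := ⟨_, rfl⟩
  have hθ0 : ∀ l x, 0 ≤ θ l x := fun l x => by
    rw [hθ]
    exact tc_cn2_thP_nonneg _
  obtain ⟨Z, hZ⟩ : ∃ Z : ℕ → ℝ, Z = fun x : ℕ => ZI (DN F P n) g (x : ℤ) ^ 2 := ⟨_, rfl⟩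
  have hwmX : ∀ x ∈ X, F.wh N x ≠ 0 → (∀ l, θ l x ≤ 2 * Real.log N) ∧ Z x ≤ Zm := by
    intro x hx hx0
    obtain ⟨e1, e2⟩ := hwm g (fun α => by rw [hBB]; exact hW.bd α) x (hX1 x hx) hx0 (hXm x hx).2
    refine ⟨fun l => ?_, ?_⟩
    · rw [hθ]
      exact e1 l
    · rw [hZ, hZm]
      exact e2
  have hlarge : ∀ x ∈ X, F.wh N x ≠ 0 → ∀ l,
      (Hn d N : ℝ) ^ (1 / 10000 : ℝ) < F.L n l (x : ℤ) := by
    intro x hx hx0 l
    obtain ⟨-, -, -, e1⟩ := hwin x (hX1 x hx) hx0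
    have e2 := (e1 l).1
    have e4 : (C : ℝ) * (N : ℝ) ^ (1 / 10000 : ℝ) < C * F.L n l (x : ℤ) := ev1.trans_le e2
    exact hHe.trans_lt (lt_of_mul_lt_mul_left e4 (by linarith))
  have hPp : ∀ p ∈ P, p.Prime ∧ (p : ℝ) ≤ (Hn d N : ℝ) ^ (1 / 10000 : ℝ) := fun p hp =>
    ⟨(hPar.hP p hp).1, (hPar.hP p hp).2.2⟩
  have hlink : ∀ x ∈ X, ∀ l, F.wh N x * (θ l x * Z x) =
      F.wh N x * (θ l x * ZI (DN F P n) (g1 l) (x : ℤ) ^ 2) := by
    intro x hx l
    by_cases h1 : F.wh N x = 0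
    · rw [h1, zero_mul, zero_mul]
    by_cases h2 : θ l x = 0
    · rw [h2, zero_mul, zero_mul]
    rw [hZ]
    simp only
    rw [hθ] at h2
    have h3 := tc_cn2_link h2 hPp (hlarge x hx h1 l)
    rw [hW.link l (DN F P n) (x : ℤ) (fun j hj => h3 j j.2 hj.1)]
  -- the numerical inequality
  obtain ⟨T, hTd⟩ : ∃ T : ι → ℝ, T = fun l => ∑ x ∈ X, F.wh N x * (θ l x * Z x) := ⟨_, rfl⟩
  obtain ⟨S, hSd⟩ : ∃ S : ℝ, S = ∑ x ∈ X, F.wh N x * Z x := ⟨_, rfl⟩
  have hTl : ∀ l, 9 / 10 * (mN F N * (F.V n n' / κ)) * qr (rn F P n) (g1 l) -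
      (N : ℝ) ^ (1 / (d : ℝ)) / Real.log N ^ (8 * D + 8) -
      3 * (B : ℝ) ^ 2 * ((N : ℝ) ^ (1 / (d : ℝ)) / Real.log N ^ (8 * D + 8)) ≤ T l := by
    intro l
    have e1 := hT Fp Fm hPre l (g1 l) (hWt1 l) (hne1 l) (hqpos _) (hsl l)
    have e2 : 3 * (B : ℝ) ^ 2 * ErS F N (wN B1 N) n (6 * Fintype.card ι) l ≤
        3 * (B : ℝ) ^ 2 * ((N : ℝ) ^ (1 / (d : ℝ)) / Real.log N ^ (8 * D + 8)) :=
      mul_le_mul_of_nonneg_left (hEr l) (by positivity)
    have e3 : T l = ∑ x ∈ X, F.wh N x * (thP (F.L n l (x : ℤ)).toNat *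
        ZI (DN F P n) (g1 l) (x : ℤ) ^ 2) := by
      rw [hTd]
      apply Finset.sum_congr rfl
      intro x hx
      rw [hlink x hx l, hθ]
    rw [e3, hκ, hX]
    linarith
  have hSl : S ≤ 1001 / 1000 * (mN F N * F.V n n') * qr (rn F P n) g +
      (N : ℝ) ^ (1 / (d : ℝ)) / Real.log N ^ (8 * D + 8) := by
    have e1 := hS Fp Fm hPre g hWt (hqpos _)
    rw [hSd, hX, hZ]
    exact e1
  have hm0 : 0 ≤ mN F N := by
    unfold M.mN
    exact Finset.sum_nonneg fun x _ => (hwh x).1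
  have key := hnm (Real.log N) (Real.log (Hn d N)) (mN F N) ((N : ℝ) ^ (1 / (d : ℝ))) (F.V n n') κ
    τ a (qr (rn F P n) g) S (fun l => qr (rn F P n) (g1 l)) T hl0 hH2 hH3 hm0 hm2
    (by push_cast; exact hm1) hVlo hV1 hκ0 hmer hτ0 hτ1 hW.one
    (fun l => by
      have e1 := abs_le.1 (hq1 l)
      have e2 := hW.lo l
      rw [← hκ] at e2
      have e3 : τ * (κ * Real.log (Hn d N)) * a ≤ qf (g1 l) := e2
      linarith [e1.1])
    (by
      have e1 := abs_le.1 hq0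
      have e2 : qf g ≤ 2 * a := hW.up
      linarith [e1.2])
    hTl hSl
  rw [← hK] at key
  have ha1 := hW.one
  -- the points with many primes
  have hcore := ns_cn_core X (fun x => F.wh N x) (fun x => ∑ l, θ l x) Z
    (A1 := K * (2 * Real.log N)) (Zm := Zm) (r := K * τ * Real.log (Hn d N) / 10)
    (fun x _ => hwh x)
    (fun x hx hx0 => ⟨Finset.sum_nonneg fun l _ => hθ0 l x, by
      calc ∑ l, θ l x ≤ ∑ _l : ι, 2 * Real.log N :=
            Finset.sum_le_sum fun l _ => (hwmX x hx hx0).1 l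
        _ = K * (2 * Real.log N) := by
            rw [Finset.sum_const, Finset.card_univ, nsmul_eq_mul, hK]⟩)
    (fun x hx hx0 => ⟨by rw [hZ]; positivity, (hwmX x hx hx0).2⟩)
    (by
      have : 0 ≤ Real.log (Hn d N) := Real.log_nonneg hHR
      positivity)
  have hTS : ∑ l, T l = ∑ x ∈ X, F.wh N x * ((∑ l, θ l x) * Z x) := by
    rw [hTd]
    simp only
    rw [Finset.sum_comm]
    apply Finset.sum_congr rfl
    intro x _
    rw [← Finset.mul_sum, Finset.sum_mul]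
  rw [hTS, hSd] at key
  have h1 := key.trans hcore
  obtain ⟨R, hR⟩ : ∃ R : ℝ, R = ((X.filter (fun x => F.wh N x ≠ 0 ∧
    K * τ * Real.log (Hn d N) / 10 < ∑ l, θ l x)).card : ℝ) := ⟨_, rfl⟩
  have h2 : t0 / (8 * d * Zm * (10000 * d * E)) * ((N : ℝ) ^ (1 / (d : ℝ)) * F.V n n') ≤ R := by
    rw [← hR] at h1
    have hl1 : 0 < Real.log N := by linarith
    have hh1 : Real.log N / (2 * d) ≤ Real.log (Hn d N) := by
      rw [div_le_iff₀ (by positivity)]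
      linarith
    have e1 : K * t0 * (Real.log N / (2 * d)) * 1 * (mN F N * F.V n n') ≤
        K * τ * Real.log (Hn d N) * a * (mN F N * F.V n n') := by
      apply mul_le_mul_of_nonneg_right _ (mul_nonneg hm0 hV0)
      apply mul_le_mul _ ha1 zero_le_one (by positivity)
      apply mul_le_mul _ hh1 (by positivity) (by positivity)
      exact mul_le_mul_of_nonneg_left hτ0 (by linarith)
    have e2 : (N : ℝ) ^ (1 / (d : ℝ)) * F.V n n' ≤ (10000 * d * E) * (mN F N * F.V n n') := by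
      calc (N : ℝ) ^ (1 / (d : ℝ)) * F.V n n' ≤ (10000 * d * E * mN F N) * F.V n n' :=
            mul_le_mul_of_nonneg_right hm1 hV0
        _ = _ := by ring
    have e3 : (K * Real.log N) * (t0 * (mN F N * F.V n n') / (4 * d)) ≤
        (K * Real.log N) * (2 * Zm * R) := by
      calc (K * Real.log N) * (t0 * (mN F N * F.V n n') / (4 * d)) =
            1 / 2 * (K * t0 * (Real.log N / (2 * d)) * 1 * (mN F N * F.V n n')) := by
              field_simp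
              ring
        _ ≤ 1 / 2 * (K * τ * Real.log (Hn d N) * a * (mN F N * F.V n n')) := by linarith
        _ ≤ K * (2 * Real.log N) * Zm * R := h1
        _ = _ := by ring
    have e4 : t0 * (mN F N * F.V n n') / (4 * d) ≤ 2 * Zm * R :=
      le_of_mul_le_mul_left e3 (by positivity)
    rw [div_le_iff₀ (by positivity)] at e4
    calc t0 / (8 * d * Zm * (10000 * d * E)) * ((N : ℝ) ^ (1 / (d : ℝ)) * F.V n n')
        ≤ t0 / (8 * d * Zm * (10000 * d * E)) * ((10000 * d * E) * (mN F N * F.V n n')) :=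
          mul_le_mul_of_nonneg_left e2 (by positivity)
      _ = t0 * (mN F N * F.V n n') / (8 * d * Zm) := by
          field_simp
      _ ≤ R := by
          rw [div_le_iff₀ (by positivity)]
          calc t0 * (mN F N * F.V n n') ≤ 2 * Zm * R * (4 * d) := e4
            _ = R * (8 * d * Zm) := by ring
  refine h2.trans ?_
  rw [hR]
  have h3 : (X.filter (fun x => F.wh N x ≠ 0 ∧
      K * τ * Real.log (Hn d N) / 10 < ∑ l, θ l x)) ⊆
      (Icc 1 (Hn d N)).filter (fun x : ℕ => F.wh N x ≠ 0 ∧ F.Rg n (z0 D n') x ∧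
        Fintype.card ι * τ / 40 ≤
          d * ((univ.filter (fun i : ι => (F.L n i x).natAbs.Prime)).card : ℝ) ∧
        1 ≤ (univ.filter (fun i : ι => (F.L n i x).natAbs.Prime)).card) := by
    intro x hx
    rw [Finset.mem_filter] at hx
    obtain ⟨hxX, hx0, hxs⟩ := hx
    rw [Finset.mem_filter]
    obtain ⟨hx1, hx2⟩ := hXm x hxX
    refine ⟨hx1, hx0, hx2, ?_⟩
    apply ns_cn_num (fun l => θ l x) (fun i : ι => (F.L n i x).natAbs.Prime) (by omega)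
      (by linarith) hH2 hτp.le (fun l => (hwmX x hxX hx0).1 l) _ (by rw [← hK]; exact hxs)
    intro i hi
    by_contra hc
    apply hi
    have h4 : thP (F.L n i (x : ℤ)).toNat ≠ 0 := by
      intro h5
      apply hc
      rw [hθ]
      exact h5.le
    have h5 := tc_cn2_thP_prime h4
    have h6 := h5.pos
    have h7 : (F.L n i (x : ℤ)).natAbs = (F.L n i (x : ℤ)).toNat := by omega
    rw [h7]
    exact h5
  exact_mod_cast Finset.card_le_card h3

end Pool.Agent.NC.F
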