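import Pool.Agent.Lib.MP_0da313_nt.NC.M
import Pool.Agent.Lib.MP_89da58_nt.BvW

set_option autoImplicit false

/-!
Project NC, section M, piece S: the upper bound for the sum without primes.
-/

namespace Pool.Agent.NC.M

open Finset Filter Polynomial
open Pool.Agent.MP89da58 (bil pw nn supp part kapD tri sum_omega_le)
open Pool.Agent.MT (PJf dvI ZI)
open Pool.Agent.BVall (om PK lev RepB Dens mem_PK)
open Pool.Agent.Lib.MP_0da313_nt (W)
open Pool.Agent.CH (thP)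
open Pool.Agent.CM (wd z0)
open Pool.Agent.CM.F (Pre)
open Pool.Agent.TC (Lw wN)
open Pool.Agent.TC.W (qf)
open Pool.Agent.NC.Q (prr nu qr od)
open Pool.Agent.NC.A (Cm DN rn ol sl Par3 Wt3)

private lemma ns_S_ev (m : ℕ) (c s : ℝ) (hs : 0 < s) :
    ∀ᶠ N : ℕ in atTop, c * (Real.log N) ^ m ≤ (N : ℝ) ^ s := by
  have h := isLittleO_log_rpow_rpow_atTop (s := s) (m : ℝ) hs
  have h2 := h.def (show (0 : ℝ) < 1 / (|c| + 1) by positivity)
  have h3 : ∀ᶠ X : ℝ in atTop, c * (Real.log X) ^ m ≤ X ^ s := by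
    filter_upwards [h2, eventually_ge_atTop (1 : ℝ)] with X h4 hX
    rw [Real.rpow_natCast, Real.norm_of_nonneg (pow_nonneg (Real.log_nonneg hX) _),
      Real.norm_of_nonneg (Real.rpow_nonneg (by linarith) _), one_div, inv_mul_eq_div,
      le_div_iff₀ (by positivity)] at h4
    have h5 : 0 ≤ Real.log X ^ m := pow_nonneg (Real.log_nonneg hX) _
    have h6 : c ≤ |c| := le_abs_self c
    nlinarith
  exact tendsto_natCast_atTop_atTop.eventually h3

/-- `z0` is large. -/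
private lemma ns_S_small {ι : Type} [Fintype ι] [DecidableEq ι] {D d E : ℕ} (F : Fam ι D d E)
    (B0 T : ℕ) : ∀ᶠ N : ℕ in atTop, ∀ (n' : ℕ) (P : Finset ℕ), Par3 F B0 N n' P →
    T ≤ z0 D n' ∧ (Real.log N) ^ 2 ≤ (z0 D n' : ℝ) := by
  have h0 : ∀ᶠ n : ℕ in atTop, (Real.log n) ^ (2 * B0) < n := by
    have h1 := (Real.isLittleO_pow_log_id_atTop (n := 2 * B0)).bound
      (show (0 : ℝ) < 1 / 2 by norm_num)
    have h2 := tendsto_natCast_atTop_atTop (R := ℝ) |>.eventually h1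
    filter_upwards [h2, eventually_ge_atTop 1] with n hn h1n
    have h3 : (1 : ℝ) ≤ n := by exact_mod_cast h1n
    simp only [id, Real.norm_eq_abs] at hn
    have h4 := (le_abs_self _).trans hn
    rw [abs_of_pos (by linarith : (0 : ℝ) < n)] at h4
    linarith
  filter_upwards [eventually_ge_atTop (T ^ B0 + 4), h0] with n hn h0 n' P hp
  refine ⟨?_, ?_⟩
  · by_contra hcon
    push Not at hcon
    have h2 := Nat.pow_le_pow_left hcon.le B0
    have h3 := hp.hzB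
    omega
  · by_contra hcon
    push Not at hcon
    have h2 : ((z0 D n' : ℕ) : ℝ) ^ B0 ≤ ((Real.log n) ^ 2) ^ B0 :=
      pow_le_pow_left₀ (Nat.cast_nonneg _) hcon.le B0
    have h3 : (n : ℝ) ≤ (z0 D n' : ℝ) ^ B0 := by exact_mod_cast hp.hzB
    rw [← pow_mul] at h2
    linarith

/-- Pointwise bounds for the upper sieve. -/
private lemma ns_S_pt {ι : Type} [Fintype ι] [DecidableEq ι] {D d E : ℕ} {F : Fam ι D d E}
    {n n' : ℕ} {Fp Fm : (ℕ → ℝ) → ℝ} (hpre : Pre D n' Fp Fm) (l : ι) (x : ℤ) :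
    0 ≤ Fp (r3 F n (z0 D n') (z0 D n') l x) ∧
      (F.Rg n (z0 D n') x → 1 ≤ Fp (r3 F n (z0 D n') (z0 D n') l x)) := by
  classical
  have h01 : ∀ p ∈ PK (2 * D) n', 0 ≤ r3 F n (z0 D n') (z0 D n') l x p ∧
      r3 F n (z0 D n') (z0 D n') l x p ≤ 1 := by
    intro p _
    unfold r3
    split_ifs <;> norm_num
  have h1 := (hpre.pt _ h01).2
  refine ⟨le_trans ?_ h1, fun hr => le_trans ?_ h1⟩
  · unfold W
    exact Finset.prod_nonneg fun p hp => by linarith [(h01 p hp).2]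
  · unfold W
    rw [Finset.prod_eq_one]
    intro p hp
    have h2 : r3 F n (z0 D n') (z0 D n') l x p = 0 := by
      unfold r3
      rw [if_neg]
      rintro ⟨h2, h3, -⟩
      exact hr p (mem_PK.1 hp).1 h2 h3
    rw [h2]
    norm_num

/-- The number of divisors type sum. -/
private lemma ns_S_om (k Q : ℕ) : ∑ q ∈ (Icc 1 Q).filter Squarefree,
    (k : ℝ) ^ q.primeFactors.card ≤ Q * (1 + Real.log Q) ^ k := by
  rcases Nat.eq_zero_or_pos Q with hQ | hQ
  · subst hQ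
    simp
  · have h1 := sum_omega_le k Q hQ
    calc ∑ q ∈ (Icc 1 Q).filter Squarefree, (k : ℝ) ^ q.primeFactors.card ≤
        ∑ q ∈ (Icc 1 Q).filter Squarefree, Q * ((k : ℝ) ^ q.primeFactors.card / q) := by
          apply Finset.sum_le_sum
          intro q hq
          rw [mem_filter, mem_Icc] at hq
          have h2 : (0 : ℝ) < q := by exact_mod_cast hq.1.1
          have h3 : (q : ℝ) ≤ Q := by exact_mod_cast hq.1.2
          have h4 : 0 ≤ (k : ℝ) ^ q.primeFactors.card := by positivity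
          rw [← mul_div_assoc, le_div_iff₀ h2, mul_comm]
          exact mul_le_mul_of_nonneg_right h3 h4
      _ = Q * ∑ q ∈ (Icc 1 Q).filter Squarefree, ((k : ℝ) ^ q.primeFactors.card / q) := by
          rw [Finset.mul_sum]
      _ ≤ Q * (1 + Real.log Q) ^ k := mul_le_mul_of_nonneg_left h1 (by positivity)

/-- The error term. -/
private lemma ns_S_err (d A k B : ℕ) (hd : 1 ≤ d) : ∀ᶠ N : ℕ in atTop, ∀ Q : ℕ,
    (Q : ℝ) ≤ (N : ℝ) ^ (1 / (2 * d : ℝ)) →
    3 * (B : ℝ) ^ 2 * 4 * ∑ q ∈ (Icc 1 Q).filter Squarefree,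
    (k : ℝ) ^ q.primeFactors.card ≤ (N : ℝ) ^ (1 / (d : ℝ)) / (Real.log N) ^ A := by
  have hd0 : (0 : ℝ) < d := by exact_mod_cast hd
  have hd1 : (1 : ℝ) ≤ d := by exact_mod_cast hd
  have hlog : ∀ᶠ n : ℕ in atTop, 1 ≤ Real.log n :=
    (Real.tendsto_log_atTop.comp tendsto_natCast_atTop_atTop).eventually_ge_atTop _
  filter_upwards [ns_S_ev (k + A) (12 * (B : ℝ) ^ 2 * 2 ^ k) (1 / (2 * d)) (by positivity), hlog,
    eventually_ge_atTop 3] with N h1 h2 h3 Q hQ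
  have hN : (3 : ℝ) ≤ N := by exact_mod_cast h3
  have hN0 : (0 : ℝ) < N := by linarith
  set L : ℝ := Real.log N with hL
  have hL0 : 0 < L := by linarith
  have hNN : (N : ℝ) ^ (1 / (2 * d : ℝ)) ≤ N := by
    calc (N : ℝ) ^ (1 / (2 * d : ℝ)) ≤ (N : ℝ) ^ (1 : ℝ) := by
          apply Real.rpow_le_rpow_of_exponent_le (by linarith)
          rw [div_le_one (by positivity)]
          linarith
      _ = N := Real.rpow_one _
  have hlogQ : 0 ≤ Real.log Q := Real.log_natCast_nonneg Q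
  have hlogQ2 : 1 + Real.log Q ≤ 2 * L := by
    rcases Nat.eq_zero_or_pos Q with hQ0 | hQ0
    · rw [hQ0, Nat.cast_zero, Real.log_zero]
      linarith
    · have : Real.log Q ≤ L := Real.log_le_log (by exact_mod_cast hQ0) (hQ.trans hNN)
      linarith
  have h4 := ns_S_om k Q
  have h5 : (1 + Real.log Q) ^ k ≤ 2 ^ k * L ^ k := by
    rw [← mul_pow]
    exact pow_le_pow_left₀ (by linarith) hlogQ2 k
  have h6 : (Q : ℝ) * (1 + Real.log Q) ^ k ≤ (N : ℝ) ^ (1 / (2 * d : ℝ)) * (2 ^ k * L ^ k) :=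
    mul_le_mul hQ h5 (by positivity) (by positivity)
  rw [le_div_iff₀ (by positivity)]
  have e : (N : ℝ) ^ (1 / (d : ℝ)) = (N : ℝ) ^ (1 / (2 * d : ℝ)) * (N : ℝ) ^ (1 / (2 * d : ℝ)) := by
    rw [← Real.rpow_add hN0]
    congr 1
    field_simp
    norm_num
  rw [e]
  calc 3 * (B : ℝ) ^ 2 * 4 * (∑ q ∈ (Icc 1 Q).filter Squarefree,
        (k : ℝ) ^ q.primeFactors.card) * L ^ A ≤
      3 * (B : ℝ) ^ 2 * 4 * ((N : ℝ) ^ (1 / (2 * d : ℝ)) * (2 ^ k * L ^ k)) * L ^ A := by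
        apply mul_le_mul_of_nonneg_right _ (by positivity)
        apply mul_le_mul_of_nonneg_left (h4.trans h6) (by positivity)
    _ = (N : ℝ) ^ (1 / (2 * d : ℝ)) * (12 * (B : ℝ) ^ 2 * 2 ^ k * L ^ (k + A)) := by
        rw [pow_add]; ring
    _ ≤ (N : ℝ) ^ (1 / (2 * d : ℝ)) * (N : ℝ) ^ (1 / (2 * d : ℝ)) :=
        mul_le_mul_of_nonneg_left h1 (by positivity)

theorem p_S : S_S := by
  classical
  intro hla hmas hdn hgn ι _ _ _ D d E F B0 B A hD hB0
  obtain ⟨K1, hK1, hz⟩ := hla ι D d E F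
  obtain ⟨Z, hZ⟩ := eventually_atTop.1 hz
  have hd2 : 2 ≤ d := F.hd
  have hd1 : 1 ≤ d := by omega
  have hd0 : (0 : ℝ) < d := by exact_mod_cast hd1
  set K0 : ℕ := max D K1 with hK0
  filter_upwards [hmas ι D d E F, hdn ι D d E F hD, ns_S_small F B0 Z,
    ns_S_err d A (6 * Fintype.card ι * K0) B hd1, eventually_ge_atTop 3] with N hm hdn hsm herr hN3
  intro n hn n' P hp Fp Fm hpre g hg hq
  obtain ⟨m1, m2, -, -⟩ := hm
  obtain ⟨s1, s2⟩ := hsm n' P hp
  obtain ⟨d1, d2, d3', -, d5, d6, -⟩ := hdn n hn n' (z0 D n') s2 le_rfl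
  set z := z0 D n' with hzdef
  obtain ⟨hz1, -⟩ := hZ z s1
  obtain ⟨-, -, p3, p4, p5⟩ := hz1 P (fun p hp' => ⟨(hp.hP p hp').1, (hp.hP p hp').2.1⟩)
  obtain ⟨l⟩ := (inferInstance : Nonempty ι)
  have hNr : (3 : ℝ) ≤ N := by exact_mod_cast hN3
  have hN0 : (0 : ℝ) < N := by linarith
  have hH1 : 1 ≤ Hn d N := by
    unfold Hn
    rw [Nat.one_le_floor_iff]
    exact Real.one_le_rpow (by linarith) (by positivity)
  have hH1r : (1 : ℝ) ≤ Hn d N := by exact_mod_cast hH1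
  have hHN : (Hn d N : ℝ) ≤ (N : ℝ) ^ (1 / (d : ℝ)) := Nat.floor_le (by positivity)
  set Y : ℕ := ⌊(Hn d N : ℝ) ^ (1 / 10000 : ℝ)⌋₊ with hY
  have hY2 : (Y : ℝ) ≤ (Hn d N : ℝ) ^ (1 / 10000 : ℝ) := Nat.floor_le (by positivity)
  -- the general expansion
  have key := hgn ι P (PK (2 * D) n') (DN F P n) (Q3 F n z z l) K0
    (fun p hp' => (hp.hP p hp').1) (fun p hp' => (mem_PK.1 hp').1)
    (by
      rw [Finset.disjoint_left]
      intro p h1 h2
      have h3 := (hp.hP p h1).2.1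
      have h4 := (mem_PK.1 h2).2
      have h5 : z = 2 ^ (2 ^ (2 * D + n')) := rfl
      omega)
    (hK1.trans (le_max_right _ _)) (fun j l x y => p4 n j l x y) (fun j l l' y => p5 n j l l' y)
    (fun j l => (p3 n j l).trans (le_max_right _ _)) (d1 l)
    (by
      intro p hp'
      have h1 := d2 l p (mem_PK.1 hp').1
      have h2 : (p : ℝ) ≠ 0 := by exact_mod_cast (mem_PK.1 hp').1.ne_zero
      have h3 : d3 F n z z l p * p = (om (Q3 F n z z l) p : ℝ) := by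
        unfold d3
        field_simp
      rw [h3] at h1
      have h4 : om (Q3 F n z z l) p ≤ D := by exact_mod_cast h1
      exact h4.trans (le_max_left _ _))
    (lev (2 * D) n' ^ 3) Fp hpre.rp (F.wh N) (Hn d N) 4 m2 g B Y hg.bd
    (fun α hα => Nat.le_floor (hg.sup α hα))
  have hQ : ((Y * Y * lev (2 * D) n' ^ 3 : ℕ) : ℝ) ≤ (N : ℝ) ^ (1 / (2 * d : ℝ)) := by
    push_cast
    have h1 : (Y : ℝ) * Y * (lev (2 * D) n' : ℝ) ^ 3 ≤ (Hn d N : ℝ) ^ (1 / 10000 : ℝ) *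
        (Hn d N : ℝ) ^ (1 / 10000 : ℝ) * (Hn d N : ℝ) ^ (1 / 10000 : ℝ) := by
      apply mul_le_mul (mul_le_mul hY2 hY2 (by positivity) (by positivity)) hp.hlev
        (by positivity) (by positivity)
    refine h1.trans ?_
    have hH0 : (0 : ℝ) < Hn d N := by linarith
    rw [← Real.rpow_add hH0, ← Real.rpow_add hH0]
    calc (Hn d N : ℝ) ^ ((1 / 10000 : ℝ) + 1 / 10000 + 1 / 10000)
        ≤ (Hn d N : ℝ) ^ (1 / 2 : ℝ) :=
          Real.rpow_le_rpow_of_exponent_le hH1r (by norm_num)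
      _ ≤ ((N : ℝ) ^ (1 / (d : ℝ))) ^ (1 / 2 : ℝ) :=
          Real.rpow_le_rpow (by linarith) hHN (by norm_num)
      _ = (N : ℝ) ^ (1 / (2 * d : ℝ)) := by
          rw [← Real.rpow_mul hN0.le]
          congr 1
          field_simp
  have herr2 := herr _ hQ
  have key2 := (abs_le.1 key).2
  -- pointwise
  have hpt : ∑ x ∈ (Icc 1 (Hn d N)).filter (fun x : ℕ => F.Rg n z x),
      F.wh N x * ZI (DN F P n) g x ^ 2 ≤
      ∑ x ∈ Icc 1 (Hn d N), F.wh N x * Fp (r3 F n z z l x) * ZI (DN F P n) g x ^ 2 := by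
    refine (Finset.sum_le_sum (g := fun x : ℕ => F.wh N x * Fp (r3 F n z z l x) *
      ZI (DN F P n) g x ^ 2) ?_).trans
      (Finset.sum_le_sum_of_subset_of_nonneg (Finset.filter_subset _ _) ?_)
    · intro x hx
      obtain ⟨-, hr⟩ := Finset.mem_filter.1 hx
      have k1 := (ns_S_pt (F := F) (n := n) hpre l (x : ℤ)).2 hr
      have k3 : 0 ≤ ZI (DN F P n) g x ^ 2 := sq_nonneg _
      apply mul_le_mul_of_nonneg_right _ k3
      exact le_mul_of_one_le_right (m1 x).1 k1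
    · intro x _ _
      have k1 := (ns_S_pt (F := F) (n := n) hpre l (x : ℤ)).1
      have k3 : 0 ≤ ZI (DN F P n) g x ^ 2 := sq_nonneg _
      exact mul_nonneg (mul_nonneg (m1 x).1 k1) k3
  -- the main term
  have hm0 : 0 ≤ mN F N := Finset.sum_nonneg fun x _ => (m1 x).1
  have hFp : Fp (d3 F n z z l) ≤ (1 + 1 / 1000) * F.V n n' := by
    have := (hpre.mt _ (d3' l)).1
    rwa [d5 l] at this
  have hmain : mN F N * Fp (d3 F n z z l) * qr (rn F P n) g ≤
      1001 / 1000 * (mN F N * F.V n n') * qr (rn F P n) g := by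
    apply mul_le_mul_of_nonneg_right _ hq
    calc mN F N * Fp (d3 F n z z l) ≤ mN F N * ((1 + 1 / 1000) * F.V n n') :=
          mul_le_mul_of_nonneg_left hFp hm0
      _ = 1001 / 1000 * (mN F N * F.V n n') := by ring
  have key3 : ∑ x ∈ Icc 1 (Hn d N), F.wh N x * Fp (r3 F n z z l x) * ZI (DN F P n) g x ^ 2 -
      mN F N * Fp (d3 F n z z l) * qr (rn F P n) g ≤
      3 * (B : ℝ) ^ 2 * 4 * ∑ q ∈ (Icc 1 (Y * Y * lev (2 * D) n' ^ 3)).filter Squarefree,
        ((6 * Fintype.card ι * K0 : ℕ) : ℝ) ^ q.primeFactors.card := key2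
  linarith

end Pool.Agent.NC.M
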