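import Pool.Agent.Lib.MP_0da313_nt.NC.M

set_option autoImplicit false

/-!
[NS T]: the lower bound for the sum with the prime member, from the model sum and the expansion of
the error.
-/

namespace Pool.Agent.NC.M

open Finset Filter Polynomial
open Pool.Agent.MP89da58 (bil pw nn supp part kapD tri)
open Pool.Agent.MT (PJf dvI ZI)
open Pool.Agent.BVall (om PK lev RepB Dens)
open Pool.Agent.Lib.MP_0da313_nt (W)
open Pool.Agent.CH (thP)
open Pool.Agent.CM (wd z0)
open Pool.Agent.CM.F (Pre)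
open Pool.Agent.TC (Lw wN)
open Pool.Agent.TC.W (qf)
open Pool.Agent.NC.Q (prr nu qr od)
open Pool.Agent.NC.A (Cm DN rn ol sl Par3 Wt3)

private theorem ns_T_thP_nonneg (m : ℕ) : 0 ≤ thP m := by
  unfold thP
  split_ifs
  · exact Real.log_natCast_nonneg m
  · exact le_refl _

private theorem ns_T_wh_nonneg {ι : Type} [Fintype ι] [DecidableEq ι] {D d E : ℕ}
    (F : Fam ι D d E) (N x : ℕ) : 0 ≤ F.wh N x := by
  unfold Fam.wh wd tri
  exact le_max_left _ _

theorem p_T : S_T := by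
  classical
  intro _ hpw hmd hex
  intro ι _ _ _ D d E F B0 B B1 A hD hB0 hB1
  filter_upwards [hpw ι D d E F B0 B1 hD hB0 hB1,
    hmd ι D d E F B0 B B1 A hD hB0 hB1, hex ι D d E F B0 B B1 hD hB0 hB1]
    with N h2 h3 h4
  intro n hn n' P hP Fp Fm hpre l g hg hgl hqr hsl
  obtain ⟨-, h2'⟩ := h2 n hn n' P hP
  have h2'' := h2' Fp Fm hpre l
  have h3' := h3 n hn n' P hP Fp Fm hpre l g hg hqr hsl
  have h4' := h4 n hn n' P hP Fp Fm hpre l g hg hgl
  -- pointwise
  have key : ∀ x ∈ Icc 1 (Hn d N), F.wh N x * (thP (F.L n l x).toNat *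
      (Fm (r3 F n (wN B1 N) (z0 D n') l x) * ZI (DN F P n) g x ^ 2)) ≤
      if F.Rg n (z0 D n') x then
        F.wh N x * (thP (F.L n l x).toNat * ZI (DN F P n) g x ^ 2) else 0 := by
    intro x hx
    have hx1 : 1 ≤ x := (Finset.mem_Icc.mp hx).1
    have hR : 0 ≤ if F.Rg n (z0 D n') x then
        F.wh N x * (thP (F.L n l x).toNat * ZI (DN F P n) g x ^ 2) else 0 := by
      split_ifs
      · exact mul_nonneg (ns_T_wh_nonneg F N x) (mul_nonneg (ns_T_thP_nonneg _) (sq_nonneg _))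
      · exact le_refl _
    by_cases hs : F.wh N x = 0
    · refine le_trans (le_of_eq ?_) hR
      rw [hs, zero_mul]
    · have h5 := (h2'' x hx1 hs).2
      have e : F.wh N x * (thP (F.L n l x).toNat *
          (Fm (r3 F n (wN B1 N) (z0 D n') l x) * ZI (DN F P n) g x ^ 2)) =
          F.wh N x * ((thP (F.L n l x).toNat * Fm (r3 F n (wN B1 N) (z0 D n') l x)) *
            ZI (DN F P n) g x ^ 2) := by ring
      rw [e]
      by_cases hRg : F.Rg n (z0 D n') x
      · rw [if_pos hRg]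
        rw [if_pos hRg] at h5
        exact mul_le_mul_of_nonneg_left (mul_le_mul_of_nonneg_right h5 (sq_nonneg _))
          (ns_T_wh_nonneg F N x)
      · rw [if_neg hRg]
        rw [if_neg hRg] at h5
        exact mul_nonpos_of_nonneg_of_nonpos (ns_T_wh_nonneg F N x)
          (mul_nonpos_of_nonpos_of_nonneg h5 (sq_nonneg _))
  have hsum := Finset.sum_le_sum key
  rw [← Finset.sum_filter] at hsum
  have hsplit : ∑ x ∈ Icc 1 (Hn d N), F.wh N x * (thP (F.L n l x).toNat *
      (Fm (r3 F n (wN B1 N) (z0 D n') l x) * ZI (DN F P n) g x ^ 2)) =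
      ∑ x ∈ Icc 1 (Hn d N), F.wh N x * (Lw (wN B1 N) (F.L n l x).toNat *
        (Fm (r3 F n (wN B1 N) (z0 D n') l x) * ZI (DN F P n) g x ^ 2)) +
      ∑ x ∈ Icc 1 (Hn d N), F.wh N x *
        ((thP (F.L n l x).toNat - Lw (wN B1 N) (F.L n l x).toNat) *
        (Fm (r3 F n (wN B1 N) (z0 D n') l x) * ZI (DN F P n) g x ^ 2)) := by
    rw [← Finset.sum_add_distrib]
    refine Finset.sum_congr rfl fun x _ => ?_
    ring
  rw [hsplit] at hsum
  have h7 := (abs_le.1 h4').1
  refine le_trans ?_ hsum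
  linarith

end Pool.Agent.NC.M
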