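import Pool.Agent.Lib.MP_0da313_nt.NC.Q

set_option autoImplicit false

/-!
Project NC, piece [NS cr]: independence of the residue classes modulo different primes.
-/

namespace Pool.Agent.NC.Q

open Finset

/-- Two coprime moduli. -/
private theorem ns_cr_two (a b : ℕ) (ha : a ≠ 0) (hb : b ≠ 0) (hab : Nat.Coprime a b)
    (F G : ℕ → ℝ) (hF : ∀ n n' : ℕ, n ≡ n' [MOD a] → F n = F n')
    (hG : ∀ n n' : ℕ, n ≡ n' [MOD b] → G n = G n') :
    ∑ n ∈ range (a * b), F n * G n = (∑ n ∈ range a, F n) * ∑ n ∈ range b, G n := by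
  rw [Finset.sum_mul_sum, ← Finset.sum_product']
  refine Finset.sum_nbij' (fun n => (n % a, n % b))
    (fun x => (Nat.chineseRemainder hab x.1 x.2 : ℕ)) ?_ ?_ ?_ ?_ ?_
  · intro n _
    simp only [mem_product, mem_range]
    exact ⟨Nat.mod_lt _ (Nat.pos_of_ne_zero ha), Nat.mod_lt _ (Nat.pos_of_ne_zero hb)⟩
  · intro x _
    simp only [mem_range]
    exact Nat.chineseRemainder_lt_mul hab x.1 x.2 ha hb
  · intro n hn
    simp only [mem_range] at hn
    have h1 := (Nat.chineseRemainder hab (n % a) (n % b)).2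
    have h2 : (Nat.chineseRemainder hab (n % a) (n % b) : ℕ) ≡ n [MOD a * b] := by
      refine (Nat.modEq_and_modEq_iff_modEq_mul hab).1 ⟨?_, ?_⟩
      · exact h1.1.trans (Nat.mod_modEq n a)
      · exact h1.2.trans (Nat.mod_modEq n b)
    have h3 := Nat.chineseRemainder_lt_mul hab (n % a) (n % b) ha hb
    exact Nat.ModEq.eq_of_lt_of_lt h2 h3 hn
  · intro x hx
    simp only [mem_product, mem_range] at hx
    have h1 := (Nat.chineseRemainder hab x.1 x.2).2
    have e1 : (Nat.chineseRemainder hab x.1 x.2 : ℕ) % a = x.1 % a := h1.1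
    have e2 : (Nat.chineseRemainder hab x.1 x.2 : ℕ) % b = x.2 % b := h1.2
    exact Prod.ext (e1.trans (Nat.mod_eq_of_lt hx.1)) (e2.trans (Nat.mod_eq_of_lt hx.2))
  · intro n _
    show F n * G n = F (n % a) * G (n % b)
    rw [hF n (n % a) (Nat.mod_modEq n a).symm, hG n (n % b) (Nat.mod_modEq n b).symm]

theorem p_cr : S_cr := by
  intro T
  induction T using Finset.induction_on with
  | empty =>
    intro _ f _
    simp
  | insert q T hq ih =>
    intro hT f hf
    rw [Finset.prod_insert hq, Finset.prod_insert hq]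
    have hqp : q.Prime := hT q (Finset.mem_insert_self q T)
    have hTp : ∀ p ∈ T, p.Prime := fun p hp => hT p (Finset.mem_insert_of_mem hp)
    have hco : Nat.Coprime q (∏ p ∈ T, p) := by
      refine Nat.Coprime.prod_right fun p hp => ?_
      exact (Nat.coprime_primes hqp (hTp p hp)).2 (fun h => hq (h ▸ hp))
    have hne : (∏ p ∈ T, p) ≠ 0 := Finset.prod_ne_zero_iff.2 fun p hp => (hTp p hp).ne_zero
    have h1 : ∑ n ∈ range (q * ∏ p ∈ T, p), ∏ p ∈ insert q T, f p n =
        ∑ n ∈ range (q * ∏ p ∈ T, p), f q n * ∏ p ∈ T, f p n :=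
      Finset.sum_congr rfl fun n _ => Finset.prod_insert hq
    rw [h1, ns_cr_two q (∏ p ∈ T, p) hqp.ne_zero hne hco (f q) (fun n => ∏ p ∈ T, f p n)
      (hf q (Finset.mem_insert_self q T)) ?_,
      ih hTp f (fun p hp => hf p (Finset.mem_insert_of_mem hp))]
    intro n n' hn
    refine Finset.prod_congr rfl fun p hp => ?_
    exact hf p (Finset.mem_insert_of_mem hp) n n' (hn.of_dvd (Finset.dvd_prod_of_mem _ hp))

end Pool.Agent.NC.Q
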