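import Pool.Agent.Lib.MP_0da313_nt.NC.M

set_option autoImplicit false

/-!
Project NC, piece [NS dn]: the densities.
-/

namespace Pool.Agent.NC.M

open Finset Filter Polynomial
open Pool.Agent.MP89da58 (kapD)
open Pool.Agent.MT (PJf PK_eq kapD_pos)
open Pool.Agent.BVall (om PK Dens mem_PK)
open Pool.Agent.Lib.MP_0da313_nt
open Pool.Agent.CM (z0)
open Pool.Agent.NC.A (ol sl)

private lemma ns_dn_congr (P : ℤ[X]) {p : ℕ} {x y : ℤ} (h : (p : ℤ) ∣ x - y) :
    (p : ℤ) ∣ P.eval x ↔ (p : ℤ) ∣ P.eval y := by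
  have h1 : (p : ℤ) ∣ P.eval x - P.eval y := h.trans (Polynomial.sub_dvd_eval_sub x y P)
  constructor
  · intro h2
    have := dvd_sub h2 h1
    simpa using this
  · intro h2
    have := dvd_add h1 h2
    simpa using this

section

variable {ι : Type} [Fintype ι] [DecidableEq ι] {D d E : ℕ} (F : Fam ι D d E)

private lemma ns_dn_eval {n : ℕ} (hn : F.N0 ≤ n) (l : ι) (y : ℤ) :
    (F.G n).eval y = F.L n l y * (F.Gc n l).eval y := by
  rw [F.hG n hn l]
  simp [Fam.L]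

private lemma ns_dn_L (n : ℕ) (l : ι) (p : ℕ) (x y : ℤ) (h : (p : ℤ) ∣ x - y) :
    (p : ℤ) ∣ F.L n l x ↔ (p : ℤ) ∣ F.L n l y := by
  have h1 := ns_dn_congr (C (F.a l * n) + F.g l) h
  simpa [Fam.L] using h1

private lemma ns_dn_per {n w z : ℕ} (l : ι) (p : ℕ) (x y : ℤ) (h : (p : ℤ) ∣ x - y) :
    Q3 F n w z l p x ↔ Q3 F n w z l p y := by
  unfold Q3
  rw [ns_dn_congr (F.G n) h, ns_dn_L F n l p x y h]

private lemma ns_dn_lt {n : ℕ} (hn : F.N0 ≤ n) {p : ℕ} (hp : p.Prime) :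
    om (fun p y => (p : ℤ) ∣ (F.G n).eval y) p < p := by
  unfold om
  exact card_roots_mod_lt (F.G n) p hp (F.hloc n hn p hp)

private lemma ns_dn_le {n : ℕ} (hn : F.N0 ≤ n) {p : ℕ} (hp : p.Prime) :
    om (fun p y => (p : ℤ) ∣ (F.G n).eval y) p ≤ D := by
  unfold om
  exact card_roots_mod_le (F.G n) p D hp (F.hdeg n hn) (F.hloc n hn p hp)

open Classical in
private lemma ns_dn_om_le (n w z : ℕ) (l : ι) (p : ℕ) :
    om (Q3 F n w z l) p ≤ om (fun p y => (p : ℤ) ∣ (F.G n).eval y) p := by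
  unfold om
  apply Finset.card_le_card
  intro x hx
  rw [Finset.mem_filter] at hx ⊢
  exact ⟨hx.1, hx.2.2.1⟩

open Classical in
private lemma ns_dn_om_eq {n w z : ℕ} (l : ι) {p : ℕ} (hz : p ≤ z) (hw : p ≤ w) :
    om (Q3 F n w z l) p = om (fun p y => (p : ℤ) ∣ (F.G n).eval y) p := by
  unfold om
  congr 1
  ext x
  simp only [Finset.mem_filter]
  constructor
  · rintro ⟨h1, h2⟩
    exact ⟨h1, h2.2.1⟩
  · rintro ⟨h1, h2⟩
    exact ⟨h1, hz, h2, fun h => absurd h (by omega)⟩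

open Classical in
private lemma ns_dn_om_add {n w z : ℕ} (hn : F.N0 ≤ n) (l : ι) {p : ℕ} (hz : p ≤ z)
    (hw : w < p) :
    om (Q3 F n w z l) p + ol F n l p = om (fun p y => (p : ℤ) ∣ (F.G n).eval y) p := by
  unfold ol om
  rw [← Finset.card_union_of_disjoint]
  · congr 1
    ext x
    simp only [Finset.mem_filter, Finset.mem_union]
    constructor
    · rintro (⟨h1, h2⟩ | ⟨h1, h2⟩)
      · exact ⟨h1, h2.2.1⟩
      · refine ⟨h1, ?_⟩
        rw [ns_dn_eval F hn l]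
        exact h2.mul_right _
    · rintro ⟨h1, h2⟩
      by_cases h3 : (p : ℤ) ∣ F.L n l x
      · exact Or.inr ⟨h1, h3⟩
      · exact Or.inl ⟨h1, hz, h2, fun _ => h3⟩
  · rw [Finset.disjoint_left]
    intro x h1 h2
    rw [Finset.mem_filter] at h1 h2
    exact h1.2.2.2 hw h2.2

/-- the elementary inequality -/
private lemma ns_dn_log {p r : ℝ} (hp : 2 ≤ p) (hr : 0 ≤ r) :
    (r - 1) / p - (r ^ 2 + 2) * (p ^ 2)⁻¹ ≤ Real.log ((1 + r / p) * (1 - 1 / p)) := by
  have hp0 : 0 < p := by linarith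
  have h1 : 0 < 1 + r / p := by positivity
  have h2 : 1 / p ≤ 1 / 2 := one_div_le_one_div_of_le (by norm_num) hp
  have h3 : 0 < 1 - 1 / p := by linarith
  rw [Real.log_mul h1.ne' h3.ne']
  have h4 := Real.one_sub_inv_le_log_of_pos h1
  have h5 := Real.one_sub_inv_le_log_of_pos h3
  have h6 : r / p - r ^ 2 * (p ^ 2)⁻¹ ≤ 1 - (1 + r / p)⁻¹ := by
    have e : r / p - r ^ 2 * (p ^ 2)⁻¹ = r / p - (r / p) ^ 2 := by
      rw [div_pow]
      ring
    rw [e]
    set t := r / p with ht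
    have ht0 : 0 ≤ t := by positivity
    have e2 : 1 - (1 + t)⁻¹ = t / (1 + t) := by
      field_simp
      ring
    rw [e2, le_div_iff₀ h1]
    nlinarith [pow_nonneg ht0 3]
  have h7 : -(1 / p) - 2 * (p ^ 2)⁻¹ ≤ 1 - (1 - 1 / p)⁻¹ := by
    have e : -(1 / p) - 2 * (p ^ 2)⁻¹ = -(1 / p) - 2 * (1 / p) ^ 2 := by
      rw [div_pow]
      ring
    rw [e]
    set t := 1 / p with ht
    have ht0 : 0 < t := by positivity
    have e2 : 1 - (1 - t)⁻¹ = -(t / (1 - t)) := by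
      field_simp
      ring
    rw [e2]
    have h8 : t / (1 - t) ≤ t + 2 * t ^ 2 := by
      rw [div_le_iff₀ h3]
      nlinarith [pow_pos ht0 2, mul_nonneg (pow_nonneg ht0.le 2) (show 0 ≤ 1 - 2 * t by linarith)]
    linarith
  have e : (r - 1) / p - (r ^ 2 + 2) * (p ^ 2)⁻¹ =
      (r / p - r ^ 2 * (p ^ 2)⁻¹) + (-(1 / p) - 2 * (p ^ 2)⁻¹) := by
    ring
  rw [e]
  linarith

/-- the product of the local factors -/
private lemma ns_dn_prod (S : Finset ℕ) (ρ : ℕ → ℕ) (K1 w z : ℕ) (hw : 1 ≤ w) (hwz : w ≤ z)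
    (hS : S ⊆ Ioc w z) (hS2 : ∀ p ∈ S, p.Prime) (hρ : ∀ p ∈ S, ρ p ≤ K1)
    (hsl : -(1 / 100) ≤ ∑ p ∈ S, ((ρ p : ℝ) - 1) / p)
    (hwK : 25 * ((K1 : ℝ) ^ 2 + 2) ≤ w) :
    95 / 100 ≤ ∏ p ∈ S, ((1 + (ρ p : ℝ) / p) * (1 - 1 / (p : ℝ))) := by
  have hw0 : (0 : ℝ) < w := by exact_mod_cast hw
  have hpos : ∀ p ∈ S, 0 < (1 + (ρ p : ℝ) / p) * (1 - 1 / (p : ℝ)) := by
    intro p hp
    have hp2 : (2 : ℝ) ≤ p := by exact_mod_cast (hS2 p hp).two_le
    have h2 : 1 / (p : ℝ) ≤ 1 / 2 := one_div_le_one_div_of_le (by norm_num) hp2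
    have h3 : 0 < 1 - 1 / (p : ℝ) := by linarith
    positivity
  have h1 : ∑ p ∈ S, (((ρ p : ℝ) - 1) / p - ((K1 : ℝ) ^ 2 + 2) * ((p : ℝ) ^ 2)⁻¹) ≤
      Real.log (∏ p ∈ S, ((1 + (ρ p : ℝ) / p) * (1 - 1 / (p : ℝ)))) := by
    rw [Real.log_prod (fun p hp => (hpos p hp).ne')]
    apply Finset.sum_le_sum
    intro p hp
    have hp2 : (2 : ℝ) ≤ p := by exact_mod_cast (hS2 p hp).two_le
    refine le_trans ?_ (ns_dn_log hp2 (Nat.cast_nonneg (ρ p)))
    have h2 : (ρ p : ℝ) ^ 2 ≤ (K1 : ℝ) ^ 2 :=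
      pow_le_pow_left₀ (Nat.cast_nonneg _) (by exact_mod_cast hρ p hp) 2
    have h3 : 0 ≤ ((p : ℝ) ^ 2)⁻¹ := by positivity
    nlinarith
  rw [Finset.sum_sub_distrib, ← Finset.mul_sum] at h1
  have h2 : ∑ p ∈ S, ((p : ℝ) ^ 2)⁻¹ ≤ 1 / w := by
    have h3 : ∑ p ∈ S, ((p : ℝ) ^ 2)⁻¹ ≤ ∑ p ∈ Ioc w z, ((p : ℝ) ^ 2)⁻¹ :=
      Finset.sum_le_sum_of_subset_of_nonneg hS fun p _ _ => by positivity
    have h4 := sum_Ioc_inv_sq_le_sub (α := ℝ) (k := w) (n := z) (by omega) hwz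
    have h5 : (0 : ℝ) ≤ (z : ℝ)⁻¹ := by positivity
    rw [one_div]
    linarith
  have h3 : ((K1 : ℝ) ^ 2 + 2) * ∑ p ∈ S, ((p : ℝ) ^ 2)⁻¹ ≤ 4 / 100 := by
    have h4 := mul_le_mul_of_nonneg_left h2 (show 0 ≤ (K1 : ℝ) ^ 2 + 2 by positivity)
    refine h4.trans ?_
    rw [mul_one_div, div_le_iff₀ hw0]
    linarith
  have h4 : -(5 / 100 : ℝ) ≤ Real.log (∏ p ∈ S, ((1 + (ρ p : ℝ) / p) * (1 - 1 / (p : ℝ)))) := by
    linarith
  have h5 : 0 < ∏ p ∈ S, ((1 + (ρ p : ℝ) / p) * (1 - 1 / (p : ℝ))) := Finset.prod_pos hpos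
  rw [Real.le_log_iff_exp_le h5] at h4
  have h6 := Real.add_one_le_exp (-(5 / 100 : ℝ))
  linarith

end

theorem p_dn : S_dn := by
  classical
  intro hla ι _ _ D d E F hD
  obtain ⟨K1, hK1, hev⟩ := hla ι D d E F
  obtain ⟨z1, hz1⟩ := eventually_atTop.1 hev
  have hol : ∀ p : ℕ, p.Prime → z1 < p → ∀ l n, ol F n l p ≤ K1 :=
    fun p hp hzp l n => (((hz1 z1 le_rfl).2 p hp hzp l).1 n)
  have hlog : Tendsto (fun n : ℕ => Real.log n) atTop atTop :=
    Real.tendsto_log_atTop.comp tendsto_natCast_atTop_atTop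
  filter_upwards [eventually_ge_atTop F.N0, hlog.eventually_ge_atTop 1,
    hlog.eventually_ge_atTop z1, hlog.eventually_ge_atTop (25 * ((K1 : ℝ) ^ 2 + 2))]
    with N hN hlog1 hlogz hlogK
  intro n hn n' w hw hwz
  have hnN : F.N0 ≤ n := hN.trans (mem_Ioc.1 hn).1.le
  have hwR : Real.log N ≤ w := by nlinarith
  have hw1 : 1 ≤ w := by
    have : (1 : ℝ) ≤ w := by linarith
    exact_mod_cast this
  have hwz1 : z1 ≤ w := by
    have : (z1 : ℝ) ≤ w := by linarith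
    exact_mod_cast this
  have hVdef : F.V n n' = W (fun p => (om (fun p y => (p : ℤ) ∣ (F.G n).eval y) p : ℝ) / p)
      (PK (2 * D) n') := rfl
  have hg : ∀ p : ℕ, p.Prime →
      0 ≤ 1 - (om (fun p y => (p : ℤ) ∣ (F.G n).eval y) p : ℝ) / p ∧
      1 - (om (fun p y => (p : ℤ) ∣ (F.G n).eval y) p : ℝ) / p ≤ 1 := by
    intro p hpp
    have hp0 : (0 : ℝ) < p := by exact_mod_cast hpp.pos
    have h1 : (om (fun p y => (p : ℤ) ∣ (F.G n).eval y) p : ℝ) / p ≤ 1 := by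
      rw [div_le_one hp0]
      exact_mod_cast (ns_dn_lt F hnN hpp).le
    have h2 : 0 ≤ (om (fun p y => (p : ℤ) ∣ (F.G n).eval y) p : ℝ) / p := by positivity
    constructor <;> linarith
  have hV0 : 0 ≤ F.V n n' := by
    rw [hVdef]
    exact Finset.prod_nonneg fun p hp => (hg p (mem_PK.1 hp).1).1
  refine ⟨fun l p x y h => ns_dn_per F l p x y h, ?_, ?_, ?_, ?_, hV0, ?_⟩
  · intro l p hp
    have hp0 : (p : ℝ) ≠ 0 := by exact_mod_cast hp.ne_zero
    unfold d3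
    rw [div_mul_cancel₀ _ hp0]
    exact_mod_cast (ns_dn_om_le F n w (z0 D n') l p).trans (ns_dn_le F hnN hp)
  · intro l
    refine ⟨fun p => ?_, fun p hp => ?_, fun p hp => ?_⟩
    · unfold d3
      positivity
    · unfold d3
      have hp0 : (0 : ℝ) < p := by exact_mod_cast hp.pos
      have h1 : om (Q3 F n w (z0 D n') l) p + 1 ≤ p :=
        Nat.succ_le_of_lt ((ns_dn_om_le F n w (z0 D n') l p).trans_lt (ns_dn_lt F hnN hp))
      have h2 : (om (Q3 F n w (z0 D n') l) p : ℝ) + 1 ≤ p := by exact_mod_cast h1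
      rw [div_le_iff₀ hp0, sub_mul, one_mul, div_mul_cancel₀ _ hp0.ne']
      linarith
    · unfold d3
      have hp0 : (0 : ℝ) < p := by exact_mod_cast hp.pos
      have h1 := (ns_dn_om_le F n w (z0 D n') l p).trans (ns_dn_le F hnN hp)
      have h2 : (om (Q3 F n w (z0 D n') l) p : ℝ) ≤ ((2 * D : ℕ) : ℝ) := by
        exact_mod_cast h1.trans (by omega)
      exact div_le_div_of_nonneg_right h2 hp0.le
  · intro l hsl
    set z := z0 D n' with hz
    have hκz : 0 < kapD z := kapD_pos _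
    have hκw : 0 < kapD w := kapD_pos _
    set S := (Ioc w z).filter Nat.Prime with hSdef
    have hP := ns_dn_prod S (fun p => ol F n l p) K1 w z hw1 hwz (Finset.filter_subset _ _)
      (fun p hp => (Finset.mem_filter.1 hp).2)
      (fun p hp => hol p (Finset.mem_filter.1 hp).2
        (lt_of_le_of_lt hwz1 (Finset.mem_Ioc.1 (Finset.mem_filter.1 hp).1).1) l n)
      hsl (by linarith)
    rw [Finset.prod_mul_distrib] at hP
    have hκ : kapD z = kapD w * ∏ p ∈ S, (1 - 1 / (p : ℝ)) := by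
      unfold kapD
      rw [← Finset.prod_union]
      · apply Finset.prod_congr _ fun _ _ => rfl
        ext p
        simp only [hSdef, Finset.mem_union, Finset.mem_filter, Finset.mem_Icc, Finset.mem_Ioc]
        constructor
        · rintro ⟨⟨h1, h2⟩, h3⟩
          by_cases h4 : p ≤ w
          · exact Or.inl ⟨⟨h1, h4⟩, h3⟩
          · exact Or.inr ⟨⟨by omega, h2⟩, h3⟩
        · rintro (⟨⟨h1, h2⟩, h3⟩ | ⟨⟨h1, h2⟩, h3⟩)
          · exact ⟨⟨h1, h2.trans hwz⟩, h3⟩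
          · exact ⟨⟨h3.one_le, h2⟩, h3⟩
      · rw [Finset.disjoint_left]
        intro p h1 h2
        simp only [hSdef, Finset.mem_filter, Finset.mem_Icc, Finset.mem_Ioc] at h1 h2
        omega
    have hW : F.V n n' * ∏ p ∈ S, (1 + (ol F n l p : ℝ) / p) ≤
        W (d3 F n w z l) (PK (2 * D) n') := by
      have e1 : ∏ p ∈ S, (1 + (ol F n l p : ℝ) / p) =
          ∏ p ∈ PK (2 * D) n', (if w < p then 1 + (ol F n l p : ℝ) / p else 1) := by
        rw [← Finset.prod_filter]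
        apply Finset.prod_congr _ fun _ _ => rfl
        ext p
        simp only [hSdef, Finset.mem_filter, mem_PK, Finset.mem_Ioc]
        constructor
        · rintro ⟨⟨h1, h2⟩, h3⟩
          exact ⟨⟨h3, h2⟩, h1⟩
        · rintro ⟨⟨h3, h2⟩, h1⟩
          exact ⟨⟨h1, h2⟩, h3⟩
      rw [e1, hVdef]
      unfold W
      rw [← Finset.prod_mul_distrib]
      apply Finset.prod_le_prod
      · intro p hp
        apply mul_nonneg (hg p (mem_PK.1 hp).1).1
        split_ifs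
        · positivity
        · norm_num
      · intro p hp
        obtain ⟨hpp, hpz⟩ := mem_PK.1 hp
        have hp0 : (0 : ℝ) < p := by exact_mod_cast hpp.pos
        unfold d3
        beta_reduce
        by_cases hwp : w < p
        · rw [if_pos hwp]
          have h1 := ns_dn_om_add F hnN l (w := w) (z := z) (p := p) hpz hwp
          have h2 : (om (Q3 F n w z l) p : ℝ) + ol F n l p =
              (om (fun p y => (p : ℤ) ∣ (F.G n).eval y) p : ℝ) := by exact_mod_cast h1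
          rw [← h2]
          have h3 : 0 ≤ (om (Q3 F n w z l) p : ℝ) := Nat.cast_nonneg _
          have h4 : 0 ≤ (ol F n l p : ℝ) := Nat.cast_nonneg _
          have e2 : 1 - (om (Q3 F n w z l) p : ℝ) / p -
              (1 - ((om (Q3 F n w z l) p : ℝ) + ol F n l p) / p) * (1 + (ol F n l p : ℝ) / p) =
              ((om (Q3 F n w z l) p : ℝ) + ol F n l p) * ol F n l p / p ^ 2 := by
            field_simp
            ring
          have h5 : 0 ≤ ((om (Q3 F n w z l) p : ℝ) + ol F n l p) * ol F n l p / p ^ 2 := by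
            positivity
          linarith
        · rw [if_neg hwp, mul_one, ns_dn_om_eq F (z := z) l hpz (by omega)]
    refine le_trans ?_ hW
    have h1 : 95 / 100 * (F.V n n' / kapD z * kapD w) =
        F.V n n' * (95 / 100 * kapD w / kapD z) := by ring
    rw [h1]
    apply mul_le_mul_of_nonneg_left _ hV0
    have hS0 : 0 < ∏ p ∈ S, (1 - 1 / (p : ℝ)) := by
      apply Finset.prod_pos
      intro p hp
      have hp2 : (2 : ℝ) ≤ p := by exact_mod_cast (Finset.mem_filter.1 hp).2.two_le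
      have : 1 / (p : ℝ) ≤ 1 / 2 := one_div_le_one_div_of_le (by norm_num) hp2
      linarith
    have e3 : 95 / 100 * kapD w / kapD z = 95 / 100 / ∏ p ∈ S, (1 - 1 / (p : ℝ)) := by
      rw [hκ]
      field_simp
    rw [e3, div_le_iff₀ hS0]
    exact hP
  · intro l
    rw [hVdef]
    unfold W
    apply Finset.prod_congr rfl
    intro p hp
    obtain ⟨hpp, hpz⟩ := mem_PK.1 hp
    unfold d3
    beta_reduce
    rw [ns_dn_om_eq F (w := z0 D n') (z := z0 D n') l hpz hpz]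
  · rw [hVdef]
    exact Finset.prod_le_one (fun p hp => (hg p (mem_PK.1 hp).1).1)
      fun p hp => (hg p (mem_PK.1 hp).1).2

end Pool.Agent.NC.M
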