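import Pool.Agent.Lib.MP_0da313_nt.NC.F
import Pool.Agent.Lib.MP_0da313_nt.CM.P.fin
import Pool.Agent.Lib.MP_0da313_nt.CM.Fin2
import Pool.Agent.Lib.MP_0da313_nt.CM.P.app
import Pool.Agent.Lib.MP_0da313_nt.MT.Core

set_option autoImplicit false

/-!
[NS fin]: the final theorem.
-/

namespace Pool.Agent.NC.F

open Finset Filter Polynomial
open ArithmeticFunction (cardFactors)
open Pool.Agent.MP89da58 (bil pw nn supp part kapD tri)
open Pool.Agent.MT (PJf dvI ZI)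
open Pool.Agent.BVall (om PK lev RepB Dens)
open Pool.Agent.Lib.MP_0da313_nt (Admissible lineRestrict val singV W small nroots abs_val_le
  eval_lineRestrict)
open Pool.Agent.MT (choose_levS ev_err card_unit_le good_of_rough singV_le level_facts dens_poly
  W_ge card_filter_sub)
open Pool.Agent.CM (z0)
open Pool.Agent.TC (wN)
open Pool.Agent.TC.W (qf WP2)
open Pool.Agent.NC.Q (qr)
open Pool.Agent.NC.A (DN rn sl Par3 Wt3)

open Classical in
/-- The exceptional set. -/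
private def ns_fin_S {m : ℕ} (D d : ℕ) (c0 c : ℝ) (B : ℕ) (f : Fin m → MvPolynomial (Fin 2) ℤ)
    (I : Finset (Fin m)) : Set ℕ :=
  {n : ℕ | ¬ (c * ((n : ℝ) ^ (1 / (d : ℝ)) * singV f n) ≤
    (Set.ncard {x : ℕ | 0 < x ∧ x < n ∧ x ^ d ≤ n ∧
      (c0 * Real.log I.card ≤
          d * ((I.filter (fun k => (val (f k) x ((n : ℤ) - x)).natAbs.Prime)).card : ℝ) ∧
        1 ≤ (I.filter (fun k => (val (f k) x ((n : ℤ) - x)).natAbs.Prime)).card) ∧
      ∀ k, 1 < |val (f k) x ((n : ℤ) - x)| ∧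
      (∀ p : ℕ, p.Prime → (p : ℤ) ∣ val (f k) x ((n : ℤ) - x) → n < p ^ B) ∧
      cardFactors (val (f k) x ((n : ℤ) - x)).natAbs ≤ B * D} : ℝ))}

/-- The exceptional set is monotone. -/
private theorem ns_fin_mono {m : ℕ} (D d : ℕ) (c0 : ℝ) {c c' : ℝ} (hc : c ≤ c') {B B' : ℕ}
    (hB : B' ≤ B) (f : Fin m → MvPolynomial (Fin 2) ℤ) (I : Finset (Fin m)) :
    ns_fin_S D d c0 c B f I ⊆ ns_fin_S D d c0 c' B' f I := by
  intro n hn hcon
  apply hn
  have h1 : c * ((n : ℝ) ^ (1 / (d : ℝ)) * singV f n) ≤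
      c' * ((n : ℝ) ^ (1 / (d : ℝ)) * singV f n) :=
    mul_le_mul_of_nonneg_right hc (mul_nonneg (Real.rpow_nonneg (Nat.cast_nonneg _) _)
      (Pool.Agent.CM.singV_nonneg f n))
  refine h1.trans (hcon.trans ?_)
  refine Nat.cast_le.2 (Set.ncard_le_ncard ?_ ((Set.finite_lt_nat n).subset fun x hx => hx.2.1))
  rintro x ⟨g1, g2, g3, g4, g5⟩
  refine ⟨g1, g2, g3, g4, fun k => ⟨(g5 k).1, fun p hp hd => ?_, ?_⟩⟩
  · exact ((g5 k).2.1 p hp hd).trans_le (Nat.pow_le_pow_right hp.pos hB)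
  · exact (g5 k).2.2.trans (Nat.mul_le_mul_right D hB)

open Classical in
/-- The end of the proof for a fixed `n`. -/
private theorem ns_fin_n {m D d E : ℕ} {c0 c τ : ℝ} (hc : 0 < c)
    (I : Finset (Fin m)) (F : Fam {k // k ∈ I} (m * D) d E)
    (f : Fin m → MvPolynomial (Fin 2) ℤ) (hdeg : ∀ k, (f k).totalDegree ≤ D)
    {Cf : Fin m → ℕ}
    (hCf : ∀ k, ∀ n : ℕ, 1 ≤ n → ∀ x y : ℤ, |x| ≤ n → |y| ≤ n →
      |val (f k) x y| ≤ Cf k * (n : ℤ) ^ D)
    {N n n' B : ℕ} (hB1 : 1 ≤ B) (hCz : (∑ k, Cf k) + 2 ≤ z0 (m * D) n')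
    (hzB : n ≤ z0 (m * D) n' ^ B) (hzn : z0 (m * D) n' ≤ n)
    (hFG : F.G n = ∏ k, lineRestrict (f k) n)
    (hirr : ∀ k, Irreducible (lineRestrict (f k) n))
    (hloc : ∀ p : ℕ, p.Prime → ¬ ∀ x : ℤ, (p : ℤ) ∣ ∏ k, (lineRestrict (f k) n).eval x)
    (hL : ∀ (i : {k // k ∈ I}) (x : ℤ),
      (F.L n i x).natAbs = (val (f i) x ((n : ℤ) - x)).natAbs)
    (hd1 : 1 ≤ d) (hn2 : n ≤ 2 * N)
    (hlog : c0 * Real.log (Fintype.card {k // k ∈ I}) ≤ Fintype.card {k // k ∈ I} * τ / 40)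
    (hwin : ∀ x : ℕ, 1 ≤ x → F.wh N x ≠ 0 → x < n ∧ x ^ d ≤ n)
    (h2 : 2 * ((m * D : ℕ) : ℝ) ≤ c / 2 * ((N : ℝ) ^ (1 / (d : ℝ)) * F.V n n'))
    (hmain : c * ((N : ℝ) ^ (1 / (d : ℝ)) * F.V n n') ≤ (((Icc 1 (Hn d N)).filter (fun x : ℕ =>
      F.wh N x ≠ 0 ∧ F.Rg n (z0 (m * D) n') x ∧
      Fintype.card {k // k ∈ I} * τ / 40 ≤
        d * ((univ.filter (fun i : {k // k ∈ I} => (F.L n i x).natAbs.Prime)).card : ℝ) ∧
      1 ≤ (univ.filter (fun i : {k // k ∈ I} => (F.L n i x).natAbs.Prime)).card)).card : ℝ)) :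
    n ∉ ns_fin_S D d c0 (c / 4) B f I := by
  intro hcon
  apply hcon
  have hsing : singV f n ≤ F.V n n' := by
    refine (singV_le f n (2 * (m * D)) n' hloc hzn).trans (le_of_eq ?_)
    unfold Fam.V
    rw [hFG]
  set U := (Ioo 0 n).filter (fun x : ℕ => ∃ k, (lineRestrict (f k) n).eval (x : ℤ) ^ 2 - 1 = 0)
    with hU
  have hUc : U.card ≤ 2 * (m * D) := by
    have h := card_unit_le f hdeg hirr (Ioo 0 n)
    refine le_trans (le_of_eq ?_) h
    rw [hU]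
  have ecI : ∀ x : ℕ, (univ.filter (fun i : {k // k ∈ I} =>
      (F.L n i x).natAbs.Prime)).card =
      (I.filter (fun k => (val (f k) x ((n : ℤ) - x)).natAbs.Prime)).card := by
    intro x
    rw [← card_filter_sub I (fun k => (val (f k) x ((n : ℤ) - x)).natAbs.Prime)]
    congr 1
    apply Finset.filter_congr
    intro i _
    rw [hL]
  set Gd := (Icc 1 (Hn d N)).filter (fun x : ℕ =>
      F.wh N x ≠ 0 ∧ F.Rg n (z0 (m * D) n') x ∧
      Fintype.card {k // k ∈ I} * τ / 40 ≤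
        d * ((univ.filter (fun i : {k // k ∈ I} => (F.L n i x).natAbs.Prime)).card : ℝ) ∧
      1 ≤ (univ.filter (fun i : {k // k ∈ I} => (F.L n i x).natAbs.Prime)).card) with hGd
  set good := (Ioo 0 n).filter (fun x : ℕ => x ^ d ≤ n ∧
      (c0 * Real.log I.card ≤
          d * ((I.filter (fun k => (val (f k) x ((n : ℤ) - x)).natAbs.Prime)).card : ℝ) ∧
        1 ≤ (I.filter (fun k => (val (f k) x ((n : ℤ) - x)).natAbs.Prime)).card) ∧
      ∀ k, 1 < |val (f k) x ((n : ℤ) - x)| ∧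
      (∀ p : ℕ, p.Prime → (p : ℤ) ∣ val (f k) x ((n : ℤ) - x) → n < p ^ B) ∧
      cardFactors (val (f k) x ((n : ℤ) - x)).natAbs ≤ B * D) with hgood
  have hGsub : Gd ⊆ good ∪ U := by
    intro x hx
    rw [hGd, Finset.mem_filter] at hx
    obtain ⟨hxI, hxw, hxr, hx1, hx2⟩ := hx
    have hx0 := (Finset.mem_Icc.1 hxI).1
    obtain ⟨hxn, hxd⟩ := hwin x hx0 hxw
    have hxI' : x ∈ Ioo 0 n := Finset.mem_Ioo.2 ⟨by omega, hxn⟩
    by_cases hHx : ∃ k, (lineRestrict (f k) n).eval (x : ℤ) ^ 2 - 1 = 0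
    · exact Finset.mem_union_right _ (Finset.mem_filter.2 ⟨hxI', hHx⟩)
    apply Finset.mem_union_left
    rw [hgood, Finset.mem_filter]
    have hrough : ∀ k, ∀ p : ℕ, p.Prime → (p : ℤ) ∣ val (f k) x ((n : ℤ) - x) →
        z0 (m * D) n' < p := by
      intro k p hp hdv
      by_contra hcon
      apply hxr p hp (by omega)
      rw [hFG, eval_prod]
      have h5 : (p : ℤ) ∣ (lineRestrict (f k) n).eval (x : ℤ) := by
        rw [eval_lineRestrict]
        exact hdv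
      exact h5.trans (Finset.dvd_prod_of_mem _ (Finset.mem_univ k))
    rw [ecI x] at hx1 hx2
    have hx1' := hlog.trans hx1
    rw [Fintype.card_coe] at hx1'
    refine ⟨hxI', hxd, ⟨hx1', hx2⟩, fun k => ?_⟩
    exact good_of_rough f hCf (z := z0 (m * D) n') hCz hzB hB1 (by omega) hxn
        hrough (fun k h => hHx ⟨k, h⟩) k
  have hGc : (Gd.card : ℝ) ≤ good.card + 2 * ((m * D : ℕ) : ℝ) := by
    have h11 := (Finset.card_le_card hGsub).trans (Finset.card_union_le _ _)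
    have h12 : Gd.card ≤ good.card + 2 * (m * D) := by omega
    exact_mod_cast h12
  have hset : {x : ℕ | 0 < x ∧ x < n ∧ x ^ d ≤ n ∧
      (c0 * Real.log I.card ≤
          d * ((I.filter (fun k => (val (f k) x ((n : ℤ) - x)).natAbs.Prime)).card : ℝ) ∧
        1 ≤ (I.filter (fun k => (val (f k) x ((n : ℤ) - x)).natAbs.Prime)).card) ∧
      ∀ k, 1 < |val (f k) x ((n : ℤ) - x)| ∧
      (∀ p : ℕ, p.Prime → (p : ℤ) ∣ val (f k) x ((n : ℤ) - x) → n < p ^ B) ∧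
      cardFactors (val (f k) x ((n : ℤ) - x)).natAbs ≤ B * D} = (good : Set ℕ) := by
    ext x
    rw [hgood]
    simp only [Set.mem_ofPred_eq, Finset.coe_filter, Finset.mem_Ioo, and_assoc]
  rw [hset, Set.ncard_coe_finset]
  have hd0 : (0 : ℝ) < d := by exact_mod_cast (by omega : 0 < d)
  have hpow : (n : ℝ) ^ (1 / (d : ℝ)) ≤ 2 * (N : ℝ) ^ (1 / (d : ℝ)) := by
    have h3 : (n : ℝ) ≤ 2 * N := by exact_mod_cast hn2
    calc (n : ℝ) ^ (1 / (d : ℝ)) ≤ (2 * (N : ℝ)) ^ (1 / (d : ℝ)) :=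
          Real.rpow_le_rpow (Nat.cast_nonneg _) h3 (by positivity)
      _ = 2 ^ (1 / (d : ℝ)) * (N : ℝ) ^ (1 / (d : ℝ)) :=
          Real.mul_rpow (by norm_num) (Nat.cast_nonneg _)
      _ ≤ 2 * (N : ℝ) ^ (1 / (d : ℝ)) := by
          apply mul_le_mul_of_nonneg_right _ (by positivity)
          calc (2 : ℝ) ^ (1 / (d : ℝ)) ≤ 2 ^ (1 : ℝ) := by
                apply Real.rpow_le_rpow_of_exponent_le (by norm_num)
                rw [div_le_one hd0]
                exact_mod_cast hd1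
            _ = 2 := Real.rpow_one _
  have hs0 := Pool.Agent.CM.singV_nonneg f n
  have h13 : c / 4 * ((n : ℝ) ^ (1 / (d : ℝ)) * singV f n) ≤
      c / 4 * ((2 * (N : ℝ) ^ (1 / (d : ℝ))) * F.V n n') := by
    apply mul_le_mul_of_nonneg_left _ (by positivity)
    exact mul_le_mul hpow hsing hs0 (by positivity)
  have h14 : c / 4 * ((2 * (N : ℝ) ^ (1 / (d : ℝ))) * F.V n n') =
      c / 2 * ((N : ℝ) ^ (1 / (d : ℝ)) * F.V n n') := by ring
  linarith only [hGc, hmain, h2, h13, h14]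

private theorem ns_fin_H {d : ℕ} (hd : 1 ≤ d) : Tendsto (fun N : ℕ => Hn d N) atTop atTop := by
  have hd0 : (0 : ℝ) < d := by exact_mod_cast (by omega : 0 < d)
  unfold Hn
  exact tendsto_nat_floor_atTop.comp ((tendsto_rpow_atTop (by positivity)).comp
    tendsto_natCast_atTop_atTop)

private theorem ns_fin_lt {d : ℕ} (hd : 1 ≤ d) (N : ℕ) : N < (Hn d N + 1) ^ d := by
  have hd0 : (0 : ℝ) < d := by exact_mod_cast (by omega : 0 < d)
  have h1 : (N : ℝ) ^ (1 / (d : ℝ)) < (Hn d N : ℝ) + 1 := Nat.lt_floor_add_one _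
  have h2 : ((N : ℝ) ^ (1 / (d : ℝ))) ^ d < ((Hn d N : ℝ) + 1) ^ d :=
    pow_lt_pow_left₀ h1 (by positivity) (by omega)
  rw [← Real.rpow_natCast, ← Real.rpow_mul (Nat.cast_nonneg _), one_div_mul_cancel hd0.ne',
    Real.rpow_one] at h2
  exact_mod_cast h2

private theorem ns_fin_le {d N : ℕ} (hd : 1 ≤ d) (hN : 1 ≤ N) : Hn d N ≤ N := by
  have hd0 : (0 : ℝ) < d := by exact_mod_cast (by omega : 0 < d)
  have hN1 : (1 : ℝ) ≤ N := by exact_mod_cast hN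
  unfold Hn
  apply Nat.floor_le_of_le
  calc (N : ℝ) ^ (1 / (d : ℝ)) ≤ (N : ℝ) ^ (1 : ℝ) := by
        apply Real.rpow_le_rpow_of_exponent_le hN1
        rw [div_le_one hd0]
        exact_mod_cast hd
    _ = N := Real.rpow_one _

/-- The tenth root. -/
private theorem ns_fin_root {a x : ℝ} (hx : 0 ≤ x) (h : a ^ 10 ≤ x ^ (1 / 1000 : ℝ)) :
    a ≤ x ^ (1 / 10000 : ℝ) := by
  have h1 : (x ^ (1 / 10000 : ℝ)) ^ 10 = x ^ (1 / 1000 : ℝ) := by
    rw [← Real.rpow_natCast, ← Real.rpow_mul hx]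
    norm_num
  rw [← h1] at h
  exact le_of_pow_le_pow_left₀ (by norm_num) (Real.rpow_nonneg hx _) h

/-- The size of the sifting limit. -/
private theorem ns_fin_B0 {d N z e : ℕ} (hd : 1 ≤ d) (hH : 2 ≤ Hn d N) (h : Hn d N ≤ z ^ e) :
    N ≤ z ^ (2 * d * e) := by
  have h1 := ns_fin_lt hd N
  have h2 : Hn d N + 1 ≤ Hn d N ^ 2 := by nlinarith
  calc N ≤ (Hn d N + 1) ^ d := h1.le
    _ ≤ (Hn d N ^ 2) ^ d := Nat.pow_le_pow_left h2 d
    _ ≤ ((z ^ e) ^ 2) ^ d := Nat.pow_le_pow_left (Nat.pow_le_pow_left h 2) d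
    _ = z ^ (2 * d * e) := by
        rw [← pow_mul, ← pow_mul]
        congr 1
        ring

/-- The main term is large. -/
private theorem ns_fin_big {d : ℕ} (hd : 1 ≤ d) {C c : ℝ} (hC : 0 < C) (hc : 0 < c) (k : ℕ) :
    ∀ᶠ N : ℕ in atTop, C ≤ (N : ℝ) ^ (1 / (d : ℝ)) * (c * (1 / Real.log N ^ k)) := by
  have hd0 : (0 : ℝ) < d := by exact_mod_cast (by omega : 0 < d)
  have h := (tendsto_natCast_atTop_atTop (R := ℝ)).eventually
    (ev_err (s := 1 - 1 / (d : ℝ)) hc hC k (by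
      have : 0 < 1 / (d : ℝ) := by positivity
      linarith))
  filter_upwards [h, eventually_ge_atTop 1] with N h1 hN
  have hN0 : (0 : ℝ) < N := by exact_mod_cast (by omega : 0 < N)
  have h2 : (N : ℝ) = (N : ℝ) ^ (1 - 1 / (d : ℝ)) * (N : ℝ) ^ (1 / (d : ℝ)) := by
    rw [← Real.rpow_add hN0]
    norm_num
  have h3 : 0 < (N : ℝ) ^ (1 - 1 / (d : ℝ)) := Real.rpow_pos_of_pos hN0 _
  have h4 : (N : ℝ) ^ (1 - 1 / (d : ℝ)) * C ≤ (N : ℝ) ^ (1 - 1 / (d : ℝ)) *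
      ((N : ℝ) ^ (1 / (d : ℝ)) * (c * (1 / Real.log N ^ k))) := by
    rw [← mul_assoc, ← h2, mul_comm _ C]
    exact h1
  exact le_of_mul_le_mul_left h4 h3

open Classical in
/-- The theorem for fixed `I` and `d`. -/
private theorem ns_fin_Id (hEX : R_EX) {c' : ℝ} (hc'0 : 0 < c')
    (hsy : ∀ (ι : Type) [Fintype ι] [DecidableEq ι] [Nonempty ι],
      ∃ M : ℕ, 1 ≤ M ∧ ∀ (B0 D d E : ℕ) (F : Fam ι D d E), 1 ≤ B0 → 1 ≤ D → ∀ᶠ N : ℕ in atTop,
      ∀ n' : ℕ, N ≤ z0 D n' ^ B0 →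
        (lev (2 * D) n' : ℝ) ^ (3 * M) ≤ (Hn d N : ℝ) ^ (1 / 10000 : ℝ) →
      ∃ (P : Finset ℕ) (Y : ℕ) (g : (PJf P → Option ι) → ℝ) (g1 : ι → (PJf P → Option ι) → ℝ)
        (a τ : ℝ), Par3 F B0 N n' P ∧ (Y : ℝ) ≤ (Hn d N : ℝ) ^ (1 / 10000 : ℝ) ∧
        WP2 P Y ((B0 : ℝ) ^ Fintype.card ι) a (τ * (kapD (z0 D n') * Real.log (Hn d N))) g g1 ∧
        c' / (Fintype.card ι * B0) ≤ τ ∧ τ ≤ 1 ∧
          c' * Real.log (Fintype.card ι) ≤ Fintype.card ι * τ)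
    (hcn : R_cn) (hfm : R_fm) (hgq : A.R_gq) (hgs : A.R_gs) (hwin : M.R_win) (hbk : TC.F.R_bk)
    (m D : ℕ) (hm : 1 ≤ m) (hD : 1 ≤ D) (I : Finset (Fin m)) (hI : I.Nonempty) (d : ℕ)
    (hd : 2 ≤ d) : ∃ (B : ℕ) (c : ℝ), 0 < c ∧
    ∀ f : Fin m → MvPolynomial (Fin 2) ℤ, Admissible f → (∀ k, (f k).totalDegree ≤ D) →
    ∀ (a : Fin m → ℤ) (g : Fin m → ℤ[X]),
    (∀ k ∈ I, a k ≠ 0 ∧ (g k).natDegree = d ∧ f k = MvPolynomial.C (a k) *
      (MvPolynomial.X 0 + MvPolynomial.X 1) + aeval (MvPolynomial.X 0) (g k)) →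
    (∀ k ∈ I, ∀ l ∈ I, k ≠ l → f k ≠ f l ∧ f k ≠ - f l) →
    ∀ A : ℕ, ∀ᶠ N : ℕ in atTop,
      (((Icc 1 N).filter (fun n => n ∈ ns_fin_S D d (c' / 40) c B f I)).card : ℝ) ≤
        N / (Real.log N) ^ A := by
  have hne : Nonempty {k // k ∈ I} := ⟨⟨hI.choose, hI.choose_spec⟩⟩
  obtain ⟨M, hM1, hM⟩ := hsy {k // k ∈ I}
  have hD1 : 1 ≤ m * D := Nat.mul_pos (by omega) (by omega)
  obtain ⟨e, he⟩ : ∃ e, e = 128000 * (2 * (m * D)) * (30 * M) := ⟨_, rfl⟩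
  have he1 : 1 ≤ e := by
    rw [he]
    exact Nat.mul_pos (by omega) (by omega)
  obtain ⟨B0, hB0⟩ : ∃ B0, B0 = 2 * d * e := ⟨_, rfl⟩
  have hB01 : 1 ≤ B0 := by
    rw [hB0]
    exact Nat.mul_pos (by omega) (by omega)
  have hcard : 0 < Fintype.card {k // k ∈ I} := Fintype.card_pos
  have ht0 : 0 < c' / (Fintype.card {k // k ∈ I} * B0) := by
    have h1 : (0 : ℝ) < Fintype.card {k // k ∈ I} := by exact_mod_cast hcard
    have h2 : (0 : ℝ) < B0 := by exact_mod_cast (by omega : 0 < B0)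
    positivity
  obtain ⟨c, hc, hcF⟩ := hcn {k // k ∈ I} (m * D) d (16 * (m + 1)) B0
    (c' / (Fintype.card {k // k ∈ I} * B0)) hD1 hd (by omega) hB01 ht0
  refine ⟨B0 + 1, c / 4, by positivity, ?_⟩
  intro f hf hdeg a g hfg hnf
  obtain ⟨_, F, hFG, hFirr, hFL⟩ := hfm m D hm hD f hf hdeg d I hd a g hfg hnf
  obtain ⟨N₀, hN₀⟩ := hf
  have hCf : ∀ k, ∃ C : ℕ, ∀ n : ℕ, 1 ≤ n → ∀ x y : ℤ, |x| ≤ n → |y| ≤ n →
      |val (f k) x y| ≤ C * (n : ℤ) ^ D := fun k => abs_val_le (f k) D (hdeg k)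
  choose Cf hCf using hCf
  obtain ⟨_, Cw, _, hevw⟩ := hwin {k // k ∈ I} (m * D) d (16 * (m + 1)) F
  apply hbk (ns_fin_S D d (c' / 40) (c / 4) (B0 + 1) f I) (1000 * (16 * (m + 1))) (by omega)
  intro A
  obtain ⟨A', hA'⟩ : ∃ A' : ℕ, A' = max (A + 1) (8 * (m * D) + 8) := ⟨_, rfl⟩
  obtain ⟨K, hK⟩ : ∃ K : ℕ, K = Fintype.card {k // k ∈ I} := ⟨_, rfl⟩
  have hEX1 := fun l : {k // k ∈ I} => hEX {k // k ∈ I} (m * D) d (16 * (m + 1)) F l A' (6 * K)
  choose BE hBE using hEX1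
  have hgs1 := fun l : {k // k ∈ I} => hgs {k // k ∈ I} (m * D) d (16 * (m + 1)) F l A'
  choose BS hBS using hgs1
  obtain ⟨B1, hB1⟩ : ∃ B1 : ℕ, B1 = 3 + ∑ l, BE l + ∑ l, BS l := ⟨_, rfl⟩
  have hB13 : 3 ≤ B1 := by omega
  have hBE1 : ∀ l, BE l ≤ B1 := by
    intro l
    have := Finset.single_le_sum (f := BE) (fun i _ => Nat.zero_le _) (Finset.mem_univ l)
    omega
  have hBS1 : ∀ l, BS l ≤ B1 := by
    intro l
    have := Finset.single_le_sum (f := BS) (fun i _ => Nat.zero_le _) (Finset.mem_univ l)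
    omega
  have evE : ∀ᶠ N : ℕ in atTop, ∀ l : {k // k ∈ I},
      (((Ioc N (Bn (16 * (m + 1)) N)).filter (fun n =>
        (N : ℝ) ^ (1 / (d : ℝ)) / (Real.log N) ^ A' < ErS F N (wN B1 N) n (6 * K) l)).card : ℝ) ≤
        N / (Real.log N) ^ A' := by
    rw [Filter.eventually_all]
    intro l
    exact hBE l B1 (hBE1 l)
  have evS : ∀ᶠ N : ℕ in atTop, ∀ l : {k // k ∈ I}, ∀ z : ℕ,
      (z : ℝ) ≤ (N : ℝ) ^ (1 / 10 : ℝ) →
      (((Ioc N (Bn (16 * (m + 1)) N)).filter (fun n =>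
        sl F n (wN B1 N) z l < - (1 / 100))).card : ℝ) ≤ N / (Real.log N) ^ A' := by
    rw [Filter.eventually_all]
    intro l
    exact hBS l B1 (hBS1 l)
  have evQ := hgq {k // k ∈ I} (m * D) d (16 * (m + 1)) F B0 (B0 ^ K) A' hD1 hB01
  have evY := hM B0 (m * D) d (16 * (m + 1)) F hB01 hD1
  have evC := hcF F B1 hB13
  have hcast : Tendsto (fun n : ℕ => (n : ℝ)) atTop atTop := tendsto_natCast_atTop_atTop
  have hHt := ns_fin_H (show 1 ≤ d by omega)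
  have evL := (hcast.comp hHt).eventually (choose_levS (2 * (m * D)) (30 * M) (by omega)
    (by omega) ((∑ k, Cf k) + 2))
  have evH := hHt.eventually_ge_atTop 2
  have hmd0 : (0 : ℝ) < 2 * ((m * D : ℕ) : ℝ) := by
    have : (0 : ℝ) < ((m * D : ℕ) : ℝ) := by exact_mod_cast hD1
    positivity
  have hc1pos : 0 < ∏ p ∈ small (2 * (m * D)), (1 / (p : ℝ)) := by
    apply Finset.prod_pos
    intro p hp
    have hpp : p.Prime := (Finset.mem_filter.mp hp).2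
    have : (0 : ℝ) < p := by exact_mod_cast hpp.pos
    positivity
  have evB := ns_fin_big (show 1 ≤ d by omega) hmd0
    (show 0 < c / 2 * ∏ p ∈ small (2 * (m * D)), (1 / (p : ℝ)) by positivity) (8 * (m * D))
  have evK : ∀ᶠ N : ℕ in atTop, (3 * K : ℝ) + 1 ≤ Real.log (N : ℝ) :=
    (Real.tendsto_log_atTop.comp hcast).eventually_ge_atTop _
  filter_upwards [evE, evS, evQ, evY, evC, evL, evH, evB, evK, hevw,
    eventually_ge_atTop (N₀ + F.N0 + 100000)] with N hE hS hQ hY hC hL hH hBg hKl hw hNbig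
  obtain ⟨n', hl1, hl2, hl3, hl4⟩ := hL
  simp only [Function.comp_apply] at hl1 hl2 hl3
  have hN1 : (1 : ℝ) ≤ N := by exact_mod_cast (by omega : 1 ≤ N)
  have hK0 : (0 : ℝ) ≤ K := Nat.cast_nonneg _
  have hlog1 : 1 ≤ Real.log (N : ℝ) := by linarith
  have hlog0 : 0 < Real.log (N : ℝ) := by linarith
  have hHN : Hn d N ≤ N := ns_fin_le (by omega) (by omega)
  have hH0 : (0 : ℝ) ≤ Hn d N := Nat.cast_nonneg _
  have hHe : Hn d N ≤ z0 (m * D) n' ^ e := by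
    unfold z0
    rw [he]
    exact_mod_cast hl2
  have hzB : N ≤ z0 (m * D) n' ^ B0 := by
    rw [hB0]
    exact ns_fin_B0 (by omega) hH hHe
  have hlev : (lev (2 * (m * D)) n' : ℝ) ^ (3 * M) ≤ (Hn d N : ℝ) ^ (1 / 10000 : ℝ) := by
    apply ns_fin_root hH0
    rw [← pow_mul, show 3 * M * 10 = 30 * M by ring]
    exact hl1
  have hl3' : (2 : ℝ) ^ (2 * (m * D) + n') ≤ Real.log N := by
    refine hl3.trans ?_
    apply Real.log_le_log
    · exact_mod_cast (by omega : 0 < Hn d N)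
    · exact_mod_cast hHN
  obtain ⟨P, Y, w, w1, a', τ, hPar, hYle, hWP, hτ0, hτ1, hτ⟩ := hY n' hzB hlev
  have hz2 : 2 ≤ z0 (m * D) n' := by
    have : (∑ k, Cf k) + 2 ≤ z0 (m * D) n' := by
      unfold z0; exact hl4
    omega
  have hzle : (z0 (m * D) n' : ℝ) ≤ (N : ℝ) ^ (1 / 10 : ℝ) := by
    have h1 : (z0 (m * D) n' : ℝ) ≤ lev (2 * (m * D)) n' := by
      exact_mod_cast Pool.Agent.CM.F.z0_le_lev (m * D) n'
    have h2 : (1 : ℝ) ≤ lev (2 * (m * D)) n' := by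
      have : (2 : ℝ) ≤ z0 (m * D) n' := by exact_mod_cast hz2
      linarith
    have h3 : (lev (2 * (m * D)) n' : ℝ) ≤ (lev (2 * (m * D)) n' : ℝ) ^ (3 * M) :=
      le_self_pow₀ h2 (by omega)
    have h4 : (Hn d N : ℝ) ^ (1 / 10000 : ℝ) ≤ (N : ℝ) ^ (1 / 10000 : ℝ) :=
      Real.rpow_le_rpow hH0 (by exact_mod_cast hHN) (by norm_num)
    have h5 : (N : ℝ) ^ (1 / 10000 : ℝ) ≤ (N : ℝ) ^ (1 / 10 : ℝ) :=
      Real.rpow_le_rpow_of_exponent_le hN1 (by norm_num)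
    exact h1.trans (h3.trans (hlev.trans (h4.trans h5)))
  have hzN : z0 (m * D) n' ≤ N := by
    have h5 : (N : ℝ) ^ (1 / 10 : ℝ) ≤ N := by
      calc (N : ℝ) ^ (1 / 10 : ℝ) ≤ (N : ℝ) ^ (1 : ℝ) :=
            Real.rpow_le_rpow_of_exponent_le hN1 (by norm_num)
        _ = N := Real.rpow_one _
    exact_mod_cast hzle.trans h5
  have hWt : ∀ α, |w α| ≤ ((B0 ^ K : ℕ) : ℝ) := by
    intro α
    push_cast
    rw [hK]
    exact hWP.bd α
  have hWtw : Wt3 d N (B0 ^ K) w := by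
    refine ⟨hWt, fun α hα => ?_⟩
    refine le_trans ?_ hYle
    exact_mod_cast hWP.sup α hα
  have hWt1 : ∀ l, Wt3 d N (B0 ^ K) (w1 l) := by
    intro l
    refine ⟨fun α => ?_, fun α hα => ?_⟩
    · push_cast
      rw [hK]
      exact hWP.bdi l α
    · refine le_trans ?_ hYle
      exact_mod_cast (hWP.supi l α hα).2
  have hQ0 := hQ n' P hPar w hWtw
  have hQ1 := fun l => hQ n' P hPar (w1 l) (hWt1 l)
  have hS1 := fun l => hS l (z0 (m * D) n') hzle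
  set T0 := (Ioc N (Bn (16 * (m + 1)) N)).filter (fun n =>
    1 / (Real.log N) ^ A' < |qr (rn F P n) w - qf w|) with hT0
  set T1 := fun l : {k // k ∈ I} => (Ioc N (Bn (16 * (m + 1)) N)).filter (fun n =>
    1 / (Real.log N) ^ A' < |qr (rn F P n) (w1 l) - qf (w1 l)|) with hT1
  set T2 := fun l : {k // k ∈ I} => (Ioc N (Bn (16 * (m + 1)) N)).filter (fun n =>
    (N : ℝ) ^ (1 / (d : ℝ)) / (Real.log N) ^ A' < ErS F N (wN B1 N) n (6 * K) l) with hT2
  set T3 := fun l : {k // k ∈ I} => (Ioc N (Bn (16 * (m + 1)) N)).filter (fun n =>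
    sl F n (wN B1 N) (z0 (m * D) n') l < - (1 / 100)) with hT3
  have hsub : (Ioc N (N + N / (1000 * (16 * (m + 1))))).filter
      (fun n => n ∈ ns_fin_S D d (c' / 40) (c / 4) (B0 + 1) f I) ⊆
      T0 ∪ (univ.biUnion T1 ∪ (univ.biUnion T2 ∪ univ.biUnion T3)) := by
    intro n hn
    obtain ⟨hn1, hn2⟩ := Finset.mem_filter.1 hn
    have hn1' : n ∈ Ioc N (Bn (16 * (m + 1)) N) := hn1
    by_contra hcon
    rw [Finset.mem_union, Finset.mem_union, Finset.mem_union] at hcon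
    push Not at hcon
    obtain ⟨k0, k1, k2, k3⟩ := hcon
    have k0' : |qr (rn F P n) w - qf w| ≤ 1 / (Real.log N) ^ A' := by
      by_contra h
      exact k0 (Finset.mem_filter.2 ⟨hn1', not_le.1 h⟩)
    have k1' : ∀ l, |qr (rn F P n) (w1 l) - qf (w1 l)| ≤ 1 / (Real.log N) ^ A' := by
      intro l
      by_contra h
      exact k1 (Finset.mem_biUnion.2 ⟨l, Finset.mem_univ l,
        Finset.mem_filter.2 ⟨hn1', not_le.1 h⟩⟩)
    have k2' : ∀ l, ErS F N (wN B1 N) n (6 * K) l ≤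
        (N : ℝ) ^ (1 / (d : ℝ)) / (Real.log N) ^ A' := by
      intro l
      by_contra h
      exact k2 (Finset.mem_biUnion.2 ⟨l, Finset.mem_univ l,
        Finset.mem_filter.2 ⟨hn1', not_le.1 h⟩⟩)
    have k3' : ∀ l, - (1 / 100) ≤ sl F n (wN B1 N) (z0 (m * D) n') l := by
      intro l
      by_contra h
      exact k3 (Finset.mem_biUnion.2 ⟨l, Finset.mem_univ l,
        Finset.mem_filter.2 ⟨hn1', not_le.1 h⟩⟩)
    have hA8 : (Real.log (N : ℝ)) ^ (8 * (m * D) + 8) ≤ (Real.log N) ^ A' :=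
      pow_le_pow_right₀ hlog1 (by omega)
    have hA8' : 1 / (Real.log (N : ℝ)) ^ A' ≤ 1 / (Real.log N) ^ (8 * (m * D) + 8) :=
      one_div_le_one_div_of_le (by positivity) hA8
    have hA8'' : (N : ℝ) ^ (1 / (d : ℝ)) / (Real.log (N : ℝ)) ^ A' ≤
        (N : ℝ) ^ (1 / (d : ℝ)) / (Real.log N) ^ (8 * (m * D) + 8) :=
      div_le_div_of_nonneg_left (by positivity) (by positivity) hA8
    have hmain := hC n hn1' n' P hPar hl3' Y w w1 a' τ hYle hWP hτ0 hτ1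
      (fun l => by rw [← hK]; exact (k2' l).trans hA8'') (k0'.trans hA8')
      (fun l => (k1' l).trans hA8') k3'
    have hnN := (Finset.mem_Ioc.1 hn1).1
    have hn2N : n ≤ 2 * N := by
      have h1 := (Finset.mem_Ioc.1 hn1).2
      have h2 : N / (1000 * (16 * (m + 1))) ≤ N := Nat.div_le_self _ _
      omega
    obtain ⟨hirr, hloc⟩ := hN₀ n (by omega)
    have hV : (∏ p ∈ small (2 * (m * D)), (1 / (p : ℝ))) *
        (1 / (Real.log N) ^ (8 * (m * D))) ≤ F.V n n' := by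
      have hdens := dens_poly (F.G n) (m * D) (2 * (m * D)) (F.hdeg n (by omega)) (by omega)
        (F.hloc n (by omega))
      have h := W_ge hdens n' hl3'
      rw [show 4 * (2 * (m * D)) = 8 * (m * D) by ring] at h
      refine h.trans (le_of_eq ?_)
      unfold Fam.V
      rfl
    refine ns_fin_n hc I F f hdeg hCf (B := B0 + 1) (N := N) (n' := n') (τ := τ) (by omega)
      (by unfold z0; exact hl4) ?_ (by omega) (hFG n (by omega)) hirr hloc
      (fun i x => hFL n i x) (by omega) hn2N ?_ ?_ ?_ hmain hn2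
    · calc n ≤ 2 * N := hn2N
        _ ≤ z0 (m * D) n' * z0 (m * D) n' ^ B0 := Nat.mul_le_mul hz2 hzB
        _ = z0 (m * D) n' ^ (B0 + 1) := by ring
    · linarith only [hτ]
    · intro x hx1 hx2
      have h := hw.2 n hn1' x hx1 hx2
      exact ⟨h.2.1, h.2.2.1⟩
    · refine hBg.trans ?_
      calc (N : ℝ) ^ (1 / (d : ℝ)) * (c / 2 * (∏ p ∈ small (2 * (m * D)), (1 / (p : ℝ))) *
            (1 / Real.log N ^ (8 * (m * D)))) =
            c / 2 * ((N : ℝ) ^ (1 / (d : ℝ)) * ((∏ p ∈ small (2 * (m * D)), (1 / (p : ℝ))) *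
            (1 / Real.log N ^ (8 * (m * D))))) := by ring
        _ ≤ _ := by
            apply mul_le_mul_of_nonneg_left _ (by positivity)
            exact mul_le_mul_of_nonneg_left hV (by positivity)
  have hKK : K = Fintype.card {k // k ∈ I} := hK
  have hun : ∀ T : {k // k ∈ I} → Finset ℕ, (∀ l, ((T l).card : ℝ) ≤ N / (Real.log N) ^ A') →
      ((univ.biUnion T).card : ℝ) ≤ K * (N / (Real.log N) ^ A') := by
    intro T hT
    have h1 : ((univ.biUnion T).card : ℝ) ≤ ∑ l, ((T l).card : ℝ) := by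
      exact_mod_cast Finset.card_biUnion_le (s := univ) (t := T)
    refine h1.trans ((Finset.sum_le_sum fun l _ => hT l).trans (le_of_eq ?_))
    rw [Finset.sum_const, nsmul_eq_mul, Finset.card_univ, hK]
  have hcardle : (((Ioc N (N + N / (1000 * (16 * (m + 1))))).filter
      (fun n => n ∈ ns_fin_S D d (c' / 40) (c / 4) (B0 + 1) f I)).card : ℝ) ≤
      (T0.card : ℝ) + ((univ.biUnion T1).card + ((univ.biUnion T2).card +
        (univ.biUnion T3).card)) := by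
    have h1 := Finset.card_le_card hsub
    have h2 := Finset.card_union_le T0 (univ.biUnion T1 ∪ (univ.biUnion T2 ∪ univ.biUnion T3))
    have h3 := Finset.card_union_le (univ.biUnion T1) (univ.biUnion T2 ∪ univ.biUnion T3)
    have h4 := Finset.card_union_le (univ.biUnion T2) (univ.biUnion T3)
    have h5 := h1.trans (h2.trans (Nat.add_le_add_left (h3.trans (Nat.add_le_add_left h4 _)) _))
    exact_mod_cast h5
  have h1 := hun T1 hQ1
  have h2 := hun T2 (fun l => hE l)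
  have h3 := hun T3 hS1
  have htot : (((Ioc N (N + N / (1000 * (16 * (m + 1))))).filter
      (fun n => n ∈ ns_fin_S D d (c' / 40) (c / 4) (B0 + 1) f I)).card : ℝ) ≤
      (3 * K + 1) * (N / (Real.log N) ^ A') := by
    linarith only [hcardle, hQ0, h1, h2, h3]
  have hb : (N : ℝ) / (Real.log N) ^ A' ≤ N / (Real.log N) ^ (A + 1) := by
    apply div_le_div_of_nonneg_left (Nat.cast_nonneg _) (by positivity)
    exact pow_le_pow_right₀ hlog1 (by omega)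
  refine htot.trans ?_
  calc (3 * (K : ℝ) + 1) * (N / (Real.log N) ^ A') ≤
        Real.log N * (N / (Real.log N) ^ (A + 1)) := by
        apply mul_le_mul hKl hb (by positivity) (by positivity)
    _ = N / (Real.log N) ^ A := by
        rw [pow_succ]
        field_simp

/-- The final theorem. -/
theorem p_fin : S_fin := by
  classical
  intro hEX hsy hcn hfm hgq hgs hwin hbk
  obtain ⟨c', hc'0, hc'1, hsy⟩ := hsy
  refine ⟨c' / 40, by positivity, fun m D hm hD => ?_⟩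
  have hcore : ∀ p : Finset (Fin m) × ℕ, ∃ (B : ℕ) (c : ℝ), 0 < c ∧
      (p.1.Nonempty → 2 ≤ p.2 →
      ∀ f : Fin m → MvPolynomial (Fin 2) ℤ, Admissible f → (∀ k, (f k).totalDegree ≤ D) →
      ∀ (a : Fin m → ℤ) (g : Fin m → ℤ[X]),
      (∀ k ∈ p.1, a k ≠ 0 ∧ (g k).natDegree = p.2 ∧ f k = MvPolynomial.C (a k) *
        (MvPolynomial.X 0 + MvPolynomial.X 1) + aeval (MvPolynomial.X 0) (g k)) →
      (∀ k ∈ p.1, ∀ l ∈ p.1, k ≠ l → f k ≠ f l ∧ f k ≠ - f l) →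
      ∀ A : ℕ, ∀ᶠ N : ℕ in atTop,
        (((Icc 1 N).filter (fun n => n ∈ ns_fin_S D p.2 (c' / 40) c B f p.1)).card : ℝ) ≤
          N / (Real.log N) ^ A) := by
    rintro ⟨I, d⟩
    by_cases h : I.Nonempty ∧ 2 ≤ d
    · obtain ⟨B, c, h1, h2⟩ := ns_fin_Id hEX hc'0 hsy hcn hfm hgq hgs hwin hbk m D hm hD I h.1 d h.2
      refine ⟨B, c, h1, fun _ _ => ?_⟩
      intro f g1 g2 a g g3 g4 A
      refine (h2 f g1 g2 a g g3 g4 A).mono fun N hN => ?_
      refine le_trans (le_of_eq ?_) hN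
      congr 2
    · exact ⟨0, 1, one_pos, fun h1 h2 => absurd ⟨h1, h2⟩ h⟩
  choose Bf cf hcf0 hcfp using hcore
  obtain ⟨c, hc0', hcle⟩ : ∃ c : ℝ, 0 < c ∧ ∀ p ∈ (univ : Finset (Finset (Fin m))) ×ˢ range (D + 1),
      c ≤ cf p := by
    have h1 : ∀ s : Finset (Finset (Fin m) × ℕ), ∃ c : ℝ, 0 < c ∧ ∀ p ∈ s, c ≤ cf p := by
      intro s
      induction s using Finset.induction_on with
      | empty => exact ⟨1, one_pos, fun K hK => absurd hK (by simp)⟩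
      | insert a s _ ih =>
        obtain ⟨c, h2, h4⟩ := ih
        refine ⟨min c (cf a), lt_min h2 (hcf0 a), ?_⟩
        intro K hK
        rw [Finset.mem_insert] at hK
        rcases hK with h | h
        · rw [h]; exact min_le_right _ _
        · exact (min_le_left _ _).trans (h4 K h)
    exact h1 _
  refine ⟨∑ p ∈ (univ : Finset (Finset (Fin m))) ×ˢ range (D + 1), Bf p, c, hc0', ?_⟩
  intro f hf hdeg d I hd hI a g hfg hnf A
  have hdD : d ≤ D := (hfm m D hm hD f hf hdeg d I hd a g hfg hnf).1 hI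
  have hmem : (I, d) ∈ (univ : Finset (Finset (Fin m))) ×ˢ range (D + 1) :=
    Finset.mem_product.2 ⟨Finset.mem_univ _, Finset.mem_range.2 (by show d < D + 1; omega)⟩
  have hBle : Bf (I, d) ≤ ∑ p ∈ (univ : Finset (Finset (Fin m))) ×ˢ range (D + 1), Bf p :=
    Finset.single_le_sum (f := Bf) (fun i _ => Nat.zero_le _) hmem
  refine (hcfp (I, d) hI hd f hf hdeg a g hfg hnf A).mono fun N hN => ?_
  refine le_trans ?_ hN
  refine Nat.cast_le.2 (Finset.card_le_card ?_)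
  intro n hn
  obtain ⟨h1, h2⟩ := Finset.mem_filter.1 hn
  refine Finset.mem_filter.2 ⟨h1, ?_⟩
  exact ns_fin_mono D d (c' / 40) (hcle (I, d) hmem) hBle f I h2

end Pool.Agent.NC.F
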