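import Pool.Agent.Lib.MP_0da313_nt.NC.F
import Pool.Agent.Lib.MP_0da313_nt.Poly

set_option autoImplicit false

/-!
Project NC, section F: existence of the family data.
-/

namespace Pool.Agent.NC.F

open Finset Filter Polynomial
open Pool.Agent.Lib.MP_0da313_nt

/-- the choice of the centre of the window -/
lemma ns_fm_point {ι : Type} [Fintype ι] (m : ℕ) (hm : Fintype.card ι ≤ m) (a c : ι → ℝ)
    (ha : ∀ i, 0 < |a i|) :
    ∃ s : ℝ, 1 / 4 ≤ s ∧ s ≤ 1 / 2 ∧
      ∀ i, |a i| + |c i| ≤ (16 * ((m : ℝ) + 1)) * |a i + c i * s| := by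
  classical
  by_contra hcon
  push Not at hcon
  have hm0 : (0 : ℝ) ≤ m := Nat.cast_nonneg m
  set g : Fin (m + 1) → ℝ := fun j => 1 / 4 + (j : ℝ) / (4 * ((m : ℝ) + 1)) with hg
  have hgr : ∀ j, 1 / 4 ≤ g j ∧ g j ≤ 1 / 2 := by
    intro j
    simp only [hg]
    have hj : ((j : ℕ) : ℝ) ≤ m := by
      exact_mod_cast Nat.lt_succ_iff.1 j.2
    constructor
    · have : (0 : ℝ) ≤ (j : ℝ) / (4 * ((m : ℝ) + 1)) := by positivity
      linarith
    · have : (j : ℝ) / (4 * ((m : ℝ) + 1)) ≤ 1 / 4 := by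
        rw [div_le_div_iff₀ (by positivity) (by norm_num)]
        linarith
      linarith
  have h1 : ∀ j : Fin (m + 1), ∃ i,
      (16 * ((m : ℝ) + 1)) * |a i + c i * g j| < |a i| + |c i| := by
    intro j
    exact hcon (g j) (hgr j).1 (hgr j).2
  choose e he using h1
  have hcard : Fintype.card ι < Fintype.card (Fin (m + 1)) := by
    rw [Fintype.card_fin]
    omega
  obtain ⟨j, j', hne, hjj⟩ := Fintype.exists_ne_map_eq_of_card_lt e hcard
  have h2 := he j
  have h3 := he j'
  rw [← hjj] at h3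
  set A := a (e j) with hA
  set B := c (e j) with hB
  have hdist : 1 / (4 * ((m : ℝ) + 1)) ≤ |g j - g j'| := by
    have e1 : g j - g j' = ((j : ℝ) - (j' : ℝ)) / (4 * ((m : ℝ) + 1)) := by
      simp only [hg]
      ring
    rw [e1, abs_div, abs_of_pos (show (0 : ℝ) < 4 * ((m : ℝ) + 1) by positivity)]
    apply div_le_div_of_nonneg_right _ (by positivity)
    have hjz : ((j : ℕ) : ℤ) ≠ ((j' : ℕ) : ℤ) := by
      intro h
      apply hne
      apply Fin.ext
      exact_mod_cast h
    have h6 : (1 : ℤ) ≤ |((j : ℕ) : ℤ) - ((j' : ℕ) : ℤ)| := Int.one_le_abs (sub_ne_zero.2 hjz)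
    have h7 : ((1 : ℤ) : ℝ) ≤ ((|((j : ℕ) : ℤ) - ((j' : ℕ) : ℤ)| : ℤ) : ℝ) := by exact_mod_cast h6
    push_cast at h7
    exact h7
  have h4 : |B| * |g j - g j'| ≤ |A + B * g j| + |A + B * g j'| := by
    rw [← abs_mul]
    calc |B * (g j - g j')| = |(A + B * g j) - (A + B * g j')| := by congr 1; ring
      _ ≤ _ := abs_sub _ _
  have h5 : |B| * (1 / (4 * ((m : ℝ) + 1))) ≤ |B| * |g j - g j'| :=
    mul_le_mul_of_nonneg_left hdist (abs_nonneg _)
  have h6 : |B| ≤ (4 * ((m : ℝ) + 1)) * (|A + B * g j| + |A + B * g j'|) := by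
    have h7 := h5.trans h4
    rw [mul_one_div, div_le_iff₀ (by positivity)] at h7
    linarith
  have h7 : |B| < |A| := by nlinarith
  have h8 : |A| - |B| * (1 / 2) ≤ |A + B * g j| := by
    have h9 : |A| - |B * g j| ≤ |A + B * g j| := by
      have := abs_sub_abs_le_abs_sub A (-(B * g j))
      rw [abs_neg, sub_neg_eq_add] at this
      exact this
    have h10 : |B * g j| ≤ |B| * (1 / 2) := by
      rw [abs_mul]
      apply mul_le_mul_of_nonneg_left _ (abs_nonneg _)
      rw [abs_of_nonneg (by linarith [(hgr j).1])]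
      exact (hgr j).2
    linarith
  have h9 : 0 ≤ |A + B * g j| := abs_nonneg _
  have h10 : 16 * |A + B * g j| ≤ (16 * ((m : ℝ) + 1)) * |A + B * g j| := by
    apply mul_le_mul_of_nonneg_right _ h9
    linarith
  have h11 : 0 < |A| := ha _
  linarith

theorem p_fm : S_fm := by
  intro hpe m D hm hD f hf hdeg d I hd a g hI hne
  classical
  have hline : ∀ k ∈ I, ∀ n : ℕ, lineRestrict (f k) n = C (a k * n) + g k := by
    intro k hk n
    have h1 := (hI k hk).2.2
    unfold lineRestrict
    have h2 : (MvPolynomial.aeval ![X, C (n : ℤ) - X] : MvPolynomial (Fin 2) ℤ →ₐ[ℤ] ℤ[X])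
        (aeval (MvPolynomial.X 0) (g k)) = g k := by
      rw [← Polynomial.aeval_algHom_apply]
      simp
    rw [h1, map_add, h2, map_mul, map_add]
    congr 1
    simp
  have hval : ∀ k ∈ I, ∀ (n : ℕ) (x : ℤ), val (f k) x ((n : ℤ) - x) = a k * n + (g k).eval x := by
    intro k hk n x
    rw [← eval_lineRestrict, hline k hk n]
    simp
  have hnd : ∀ k ∈ I, ∀ n : ℕ, (lineRestrict (f k) n).natDegree = d := by
    intro k hk n
    rw [hline k hk n, natDegree_C_add]
    exact (hI k hk).2.1
  refine ⟨?_, ?_⟩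
  · rintro ⟨k, hk⟩
    rw [← hnd k hk 0]
    exact natDegree_lineRestrict_le (f k) 0 D (hdeg k)
  have hcard : Fintype.card {k // k ∈ I} ≤ m := by
    rw [Fintype.card_coe]
    have h1 : I.card ≤ Fintype.card (Fin m) := Finset.card_le_univ _
    rwa [Fintype.card_fin] at h1
  obtain ⟨s0, hs01, hs02, hs03⟩ := ns_fm_point m hcard
    (fun l : {k // k ∈ I} => (a l : ℝ)) (fun l => ((g l).coeff d : ℝ))
    (fun l => abs_pos.2 (by exact_mod_cast (hI l l.2).1))
  have hs : ∀ l : {k // k ∈ I}, ∃ s : ℤ, (s = 1 ∨ s = -1) ∧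
      (s : ℝ) * ((a l : ℝ) + ((g l).coeff d : ℝ) * s0) = |(a l : ℝ) + ((g l).coeff d : ℝ) * s0| := by
    intro l
    rcases le_total 0 ((a l : ℝ) + ((g l).coeff d : ℝ) * s0) with h | h
    · exact ⟨1, Or.inl rfl, by rw [abs_of_nonneg h]; push_cast; ring⟩
    · exact ⟨-1, Or.inr rfl, by rw [abs_of_nonpos h]; push_cast; ring⟩
  choose s hs1 hs2 using hs
  have hss : ∀ l, s l * s l = 1 := by
    intro l
    rcases hs1 l with h | h <;> rw [h] <;> norm_num
  have hsne : ∀ l, s l ≠ 0 := by
    intro l h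
    have := hss l
    rw [h] at this
    norm_num at this
  obtain ⟨N₀, hN₀⟩ := hf
  have hprim : ∀ k ∈ I, (C (a k * (N₀ : ℤ)) + g k).content = 1 := by
    intro k hk
    have h1 := (hN₀ N₀ le_rfl).1 k
    rw [hline k hk N₀] at h1
    have h2 : (C (a k * (N₀ : ℤ)) + g k).natDegree ≠ 0 := by
      rw [natDegree_C_add, (hI k hk).2.1]
      omega
    exact (h1.isPrimitive h2).content_eq_one
  have hk0 : ∀ l l' : {k // k ∈ I}, l ≠ l' → C (a l') * g l ≠ C (a l) * g l' := by
    intro l l' hll h
    have hne' : (l : Fin m) ≠ l' := fun h' => hll (Subtype.ext h')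
    obtain ⟨n1, n2⟩ := hne l l.2 l' l'.2 hne'
    have h1 : C (a l') * (C (a l * (N₀ : ℤ)) + g l) = C (a l) * (C (a l' * (N₀ : ℤ)) + g l') := by
      rw [mul_add, mul_add, h]
      congr 1
      rw [← C_mul, ← C_mul]
      congr 1
      ring
    have h2 := congrArg content h1
    rw [content_C_mul, content_C_mul, hprim l l.2, hprim l' l'.2, mul_one, mul_one] at h2
    have h3 : a l' = a l ∨ a l' = - a l := by
      have h4 : |a l'| = |a l| := by
        simpa [Int.normalize_coe_nat, Int.abs_eq_normalize] using h2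
      exact abs_eq_abs.1 h4
    have hal := (hI l l.2).1
    rcases h3 with h3 | h3
    · rw [h3] at h
      have h4 : g l = g l' := mul_left_cancel₀ (by simpa using hal) h
      apply n1
      rw [(hI l l.2).2.2, (hI l' l'.2).2.2, h3, h4]
    · rw [h3] at h
      have h4 : g l' = - g l := by
        have h5 : C (a l) * g l' = C (a l) * (- g l) := by
          rw [← h, C_neg]
          ring
        exact mul_left_cancel₀ (by simpa using hal) h5
      apply n2
      rw [(hI l l.2).2.2, (hI l' l'.2).2.2, h3, h4]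
      simp
      ring
  refine ⟨{
    N0 := N₀
    G := fun n => ∏ k, lineRestrict (f k) n
    Gc := fun n l => C (s l) * ∏ k ∈ univ.erase (l : Fin m), lineRestrict (f k) n
    a := fun l => s l * a l
    g := fun l => C (s l) * g l
    s := s0
    hG := ?_
    hdeg := ?_
    hloc := ?_
    hper := ?_
    hd := hd
    hE := by omega
    ha := ?_
    hg := ?_
    hk := ?_
    hs0 := hs01
    hs1 := hs02
    ht := ?_ }, fun n _ => rfl, ?_, ?_⟩
  · intro n hn l
    rw [← Finset.mul_prod_erase univ (fun k => lineRestrict (f k) n) (Finset.mem_univ (l : Fin m)),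
      hline l l.2 n]
    have e1 : (C (s l * a l * (n : ℤ)) + C (s l) * g l : ℤ[X]) =
        C (s l) * (C (a l * (n : ℤ)) + g l) := by
      rw [mul_assoc, C_mul]
      ring
    rw [e1]
    have e2 : (C (s l) * C (s l) : ℤ[X]) = 1 := by
      rw [← C_mul, hss l, C_1]
    linear_combination (-(C (a l * (n : ℤ)) + g l) *
      ∏ k ∈ univ.erase (l : Fin m), lineRestrict (f k) n) * e2
  · intro n hn
    refine (natDegree_prod_le _ _).trans ?_
    calc ∑ k : Fin m, (lineRestrict (f k) n).natDegree ≤ ∑ _k : Fin m, D :=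
          Finset.sum_le_sum fun k _ => natDegree_lineRestrict_le (f k) n D (hdeg k)
      _ = m * D := by simp
  · intro n hn p hp h
    exact (hN₀ n hn).2 p hp (fun x => by rw [← eval_prod]; exact h x)
  · intro n n' q _ _ h x
    exact hpe m f n n' q h x
  · intro l
    exact mul_ne_zero (hsne l) (hI l l.2).1
  · intro l
    rw [natDegree_C_mul (hsne l)]
    exact (hI l l.2).2.1
  · intro l l' hll h
    apply hk0 l l' hll
    have h1 : C (s l * s l') * (C (a l') * g l) = C (s l * s l') * (C (a l) * g l') := by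
      rw [C_mul, C_mul] at h
      rw [C_mul]
      linear_combination h
    refine mul_left_cancel₀ ?_ h1
    simpa using mul_ne_zero (hsne l) (hsne l')
  · intro l
    have h1 := hs03 l
    have h2 := hs2 l
    have e1 : |((s l * a l : ℤ) : ℝ)| = |(a l : ℝ)| := by
      push_cast
      rw [abs_mul]
      rcases hs1 l with h | h <;> rw [h] <;> norm_num
    have e2 : |(((C (s l) * g l).coeff d : ℤ) : ℝ)| = |((g l).coeff d : ℝ)| := by
      rw [coeff_C_mul]
      push_cast
      rw [abs_mul]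
      rcases hs1 l with h | h <;> rw [h] <;> norm_num
    have e3 : ((s l * a l : ℤ) : ℝ) + (((C (s l) * g l).coeff d : ℤ) : ℝ) * s0 =
        (s l : ℝ) * ((a l : ℝ) + ((g l).coeff d : ℝ) * s0) := by
      rw [coeff_C_mul]
      push_cast
      ring
    rw [e1, e2, e3, h2]
    push_cast
    exact h1
  · intro n hn k
    exact (hN₀ n hn).1 k
  · intro n l x
    have e1 : s l * a l * n + (C (s l) * g l).eval x = s l * val (f l) x ((n : ℤ) - x) := by
      rw [hval l l.2 n x]
      simp
      ring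
    change (s l * a l * n + (C (s l) * g l).eval x).natAbs = _
    rw [e1, Int.natAbs_mul]
    have e2 : (s l).natAbs = 1 := by
      rcases hs1 l with h | h <;> rw [h] <;> rfl
    rw [e2, one_mul]

end Pool.Agent.NC.F
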