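import Pool.Agent.Lib.MP_0da313_nt.NC.A

set_option autoImplicit false

/-!
Project NC, section A, piece gq: the quadratic form is close to the standard one for almost all `n`.
-/

namespace Pool.Agent.NC.A

open Finset Filter Polynomial
open Pool.Agent.MP89da58 (bil pw nn supp part join compat kapD)
open Pool.Agent.MT (PJf dvI ZI)
open Pool.Agent.BVall (om PK lev)
open Pool.Agent.CM (z0)
open Pool.Agent.TC (wN)
open Pool.Agent.TC.W (qf)
open Pool.Agent.NC.Q (prr nu qr od)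

private lemma ns_gq_ev (m : ℕ) (c s : ℝ) (hs : 0 < s) :
    ∀ᶠ N : ℕ in atTop, c * (Real.log N) ^ m ≤ (N : ℝ) ^ s := by
  have h := isLittleO_log_rpow_rpow_atTop (s := s) (m : ℝ) hs
  have h2 := h.def (show (0 : ℝ) < 1 / (|c| + 1) by positivity)
  have h3 : ∀ᶠ X : ℝ in atTop, c * (Real.log X) ^ m ≤ X ^ s := by
    filter_upwards [h2, eventually_ge_atTop (1 : ℝ)] with X h4 hX
    rw [Real.rpow_natCast, Real.norm_of_nonneg (pow_nonneg (Real.log_nonneg hX) _),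
      Real.norm_of_nonneg (Real.rpow_nonneg (by linarith) _), one_div, inv_mul_eq_div,
      le_div_iff₀ (by positivity)] at h4
    have h5 : 0 ≤ Real.log X ^ m := pow_nonneg (Real.log_nonneg hX) _
    have h6 : c ≤ |c| := le_abs_self c
    nlinarith
  exact tendsto_natCast_atTop_atTop.eventually h3

/-- Chebyshev's inequality. -/
private lemma ns_gq_cheb (s : Finset ℕ) (f : ℕ → ℝ) (L V : ℝ) (A : ℕ) (hL : 0 < L)
    (hV : ∑ n ∈ s, f n ^ 2 ≤ V) :
    ((s.filter (fun n => 1 / L ^ A < |f n|)).card : ℝ) ≤ L ^ (2 * A) * V := by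
  have h1 : ∑ n ∈ s.filter (fun n => 1 / L ^ A < |f n|), (1 / L ^ A) ^ 2 ≤ V := by
    refine le_trans (Finset.sum_le_sum fun n hn => ?_) (le_trans
      (Finset.sum_le_sum_of_subset_of_nonneg (Finset.filter_subset _ _)
        fun i _ _ => sq_nonneg (f i)) hV)
    rw [← sq_abs (f n)]
    exact pow_le_pow_left₀ (by positivity) (Finset.mem_filter.1 hn).2.le 2
  rw [Finset.sum_const, nsmul_eq_mul] at h1
  have e : (1 / L ^ A) ^ 2 = (L ^ (2 * A))⁻¹ := by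
    rw [one_div, inv_pow, ← pow_mul, mul_comm A 2]
  rw [e, ← div_eq_mul_inv, div_le_iff₀ (by positivity)] at h1
  linarith

/-- The product over the primes of `P`. -/
private lemma ns_gq_prod (P : Finset ℕ) (N : ℕ) (c : ℕ) (hP : ∀ p ∈ P, p.Prime ∧ p ≤ N) :
    ∏ j : PJf P, (1 + (c : ℝ) / ((j : ℕ) : ℝ)) ≤
      ∏ p ∈ (Icc 1 N).filter Nat.Prime, (1 + (c : ℝ) / ((p : ℝ) - 1)) := by
  have h1 : ∏ j : PJf P, (1 + (c : ℝ) / ((j : ℕ) : ℝ)) = ∏ p ∈ P, (1 + (c : ℝ) / (p : ℝ)) :=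
    Finset.prod_coe_sort P (fun p => 1 + (c : ℝ) / (p : ℝ))
  rw [h1]
  have hsub : P ⊆ (Icc 1 N).filter Nat.Prime := by
    intro p hp
    obtain ⟨h2, h3⟩ := hP p hp
    exact Finset.mem_filter.2 ⟨Finset.mem_Icc.2 ⟨h2.one_lt.le, h3⟩, h2⟩
  calc ∏ p ∈ P, (1 + (c : ℝ) / (p : ℝ)) ≤ ∏ p ∈ P, (1 + (c : ℝ) / ((p : ℝ) - 1)) := by
        apply Finset.prod_le_prod
        · intro p _
          positivity
        · intro p hp
          have h2 : (2 : ℝ) ≤ p := by exact_mod_cast (hP p hp).1.two_le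
          have h3 : (c : ℝ) / p ≤ c / ((p : ℝ) - 1) := by
            apply div_le_div_of_nonneg_left (by positivity) (by linarith) (by linarith)
          linarith
    _ ≤ ∏ p ∈ (Icc 1 N).filter Nat.Prime, (1 + (c : ℝ) / ((p : ℝ) - 1)) := by
        have hf : ∀ p ∈ (Icc 1 N).filter Nat.Prime, 1 ≤ 1 + (c : ℝ) / ((p : ℝ) - 1) := by
          intro p hp
          have h2 : (2 : ℝ) ≤ p := by exact_mod_cast (Finset.mem_filter.1 hp).2.two_le
          have h3 : 0 ≤ (c : ℝ) / ((p : ℝ) - 1) := by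
            apply div_nonneg (by positivity)
            linarith
          linarith
        rw [← Finset.prod_sdiff hsub]
        have h4 : 1 ≤ ∏ p ∈ (Icc 1 N).filter Nat.Prime \ P, (1 + (c : ℝ) / ((p : ℝ) - 1)) := by
          have := Finset.prod_le_prod (s := (Icc 1 N).filter Nat.Prime \ P)
            (f := fun _ : ℕ => (1 : ℝ)) (g := fun p : ℕ => 1 + (c : ℝ) / ((p : ℝ) - 1)) (fun _ _ => zero_le_one)
            (fun p hp => hf p (Finset.mem_sdiff.1 hp).1)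
          simpa using this
        have h5 : 0 ≤ ∏ p ∈ P, (1 + (c : ℝ) / ((p : ℝ) - 1)) :=
          Finset.prod_nonneg fun p hp => by linarith [hf p (hsub hp)]
        exact le_mul_of_one_le_left h5 h4

private lemma ns_gq_part1 (L N z B C : ℝ) (A C3 : ℕ) (hL : 0 < L) (hN : 0 < N) (hz : 0 < z)
    (h1 : 2 * B ^ 4 * C * L ^ (3 * A + C3) ≤ z) :
    L ^ (2 * A) * (B ^ 4 * (N * (1 / z * (C * L ^ C3)))) ≤ N / L ^ A / 2 := by
  have h2 : L ^ (3 * A + C3) = L ^ (2 * A) * L ^ A * L ^ C3 := by ring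
  rw [h2] at h1
  have hLA : 0 < L ^ A := by positivity
  rw [div_div, le_div_iff₀ (mul_pos hLA two_pos)]
  have e : L ^ (2 * A) * (B ^ 4 * (N * (1 / z * (C * L ^ C3)))) * (L ^ A * 2) =
      N * ((2 * B ^ 4 * C * (L ^ (2 * A) * L ^ A * L ^ C3)) / z) := by
    ring
  rw [e]
  have h3 : (2 * B ^ 4 * C * (L ^ (2 * A) * L ^ A * L ^ C3)) / z ≤ 1 := by
    rw [div_le_one hz]
    exact h1
  exact mul_le_of_le_one_right hN.le h3

private lemma ns_gq_part2 (L N B Y : ℝ) (A : ℕ) (hL : 0 < L)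
    (h1 : 8 * B ^ 4 * L ^ (3 * A) * Y ≤ N) :
    L ^ (2 * A) * (B ^ 4 * (4 * Y)) ≤ N / L ^ A / 2 := by
  have h2 : L ^ (3 * A) = L ^ (2 * A) * L ^ A := by ring
  rw [h2] at h1
  have hLA : 0 < L ^ A := by positivity
  rw [div_div, le_div_iff₀ (mul_pos hLA two_pos)]
  calc L ^ (2 * A) * (B ^ 4 * (4 * Y)) * (L ^ A * 2) = 8 * B ^ 4 * (L ^ (2 * A) * L ^ A) * Y := by
        ring
    _ ≤ N := h1

theorem p_gq : S_gq := by
  intro hla hv2 hpr ι _ _ D d E F B0 B A hD hB0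
  obtain ⟨K1, hK1, hz⟩ := hla ι D d E F
  obtain ⟨Z, hZ⟩ := eventually_atTop.1 hz
  set C3 : ℕ := 240 * Fintype.card ι ^ 2 * K1 ^ 2 + 240 with hC3
  obtain ⟨C, hC, hprod⟩ := hpr C3
  set Z' : ℕ := max Z (max (16 * K1 ^ 2) (3 * Fintype.card ι)) with hZ'
  have hB0' : (0 : ℝ) < 1 / B0 := by
    have : (0 : ℝ) < B0 := by exact_mod_cast hB0
    positivity
  filter_upwards [ns_gq_ev (3 * A + C3) (2 * (B : ℝ) ^ 4 * C) (1 / B0) hB0',
    ns_gq_ev (3 * A) (8 * (B : ℝ) ^ 4) (9 / 10) (by norm_num),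
    eventually_gt_atTop (Z' ^ B0), eventually_ge_atTop 3] with N hN1 hN2 hN3 hN4
  intro n' P hPar g hg
  have hNr : (3 : ℝ) ≤ N := by exact_mod_cast hN4
  have hN0 : (0 : ℝ) < N := by linarith
  set L : ℝ := Real.log N with hL
  have hL0 : 0 < L := Real.log_pos (by linarith)
  set z : ℕ := z0 D n' with hzdef
  have hzZ : Z' ≤ z := by
    by_contra hcon
    push Not at hcon
    have h1 : z ^ B0 ≤ Z' ^ B0 := Nat.pow_le_pow_left hcon.le B0
    exact absurd (lt_of_lt_of_le hN3 (hPar.hzB.trans h1)) (lt_irrefl _)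
  have hz1 : 16 * K1 ^ 2 ≤ z := ((le_max_left _ _).trans (le_max_right _ _)).trans hzZ
  have hz2 : 3 * Fintype.card ι ≤ z := ((le_max_right _ _).trans (le_max_right _ _)).trans hzZ
  have hz3 := hZ z ((le_max_left _ _).trans hzZ)
  have hz0 : 0 < z := by
    have : 0 < K1 := hK1
    have : 0 < 16 * K1 ^ 2 := by positivity
    omega
  have hLd := (hz3.1 P (fun p hp => ⟨(hPar.hP p hp).1, (hPar.hP p hp).2.1⟩)).1
  have hH1 : 1 ≤ Hn d N := by
    unfold Hn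
    rw [Nat.one_le_floor_iff]
    exact Real.one_le_rpow (by linarith) (by positivity)
  have hHN : (Hn d N : ℝ) ≤ N := by
    have h1 : (Hn d N : ℝ) ≤ (N : ℝ) ^ (1 / (d : ℝ)) := Nat.floor_le (by positivity)
    refine h1.trans ?_
    have hd : (1 : ℝ) ≤ d := by
      have := F.hd
      have : 1 ≤ d := by omega
      exact_mod_cast this
    calc (N : ℝ) ^ (1 / (d : ℝ)) ≤ (N : ℝ) ^ (1 : ℝ) := by
          apply Real.rpow_le_rpow_of_exponent_le (by linarith)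
          rw [div_le_one (by linarith)]
          exact hd
      _ = N := Real.rpow_one _
  have hH1r : (1 : ℝ) ≤ Hn d N := by exact_mod_cast hH1
  set Y : ℕ := ⌊(Hn d N : ℝ) ^ (1 / 10000 : ℝ)⌋₊ with hY
  have hY1 : 1 ≤ Y := by
    rw [hY, Nat.one_le_floor_iff]
    exact Real.one_le_rpow hH1r (by norm_num)
  have hYN : (Y : ℝ) ≤ (N : ℝ) ^ (1 / 10000 : ℝ) := by
    refine (Nat.floor_le (by positivity)).trans ?_
    exact Real.rpow_le_rpow (by positivity) hHN (by norm_num)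
  have hBn : N ≤ Bn E N := Nat.le_add_right _ _
  have hBn2 : ((Bn E N : ℕ) : ℝ) - N ≤ N := by
    unfold Bn
    push_cast
    have : ((N / (1000 * E) : ℕ) : ℝ) ≤ N := by exact_mod_cast Nat.div_le_self _ _
    linarith
  have hBn3 : 0 ≤ ((Bn E N : ℕ) : ℝ) - N := by
    have : (N : ℝ) ≤ (Bn E N : ℕ) := by exact_mod_cast hBn
    linarith
  have hvar := hv2 ι P K1 z (fun n => rn F P n) hK1 hz1 hz2 hLd g B Y hY1 hg.bd
    (fun α hα => Nat.le_floor (hg.sup α hα)) N (Bn E N) hBn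
  have hprodle : ∏ j : PJf P, (1 + (240 * (Fintype.card ι : ℝ) ^ 2 * (K1 : ℝ) ^ 2 + 240) /
      ((j : ℕ) : ℝ)) ≤ C * L ^ C3 := by
    have e : (240 * (Fintype.card ι : ℝ) ^ 2 * (K1 : ℝ) ^ 2 + 240) = (C3 : ℝ) := by
      rw [hC3]
      push_cast
      ring
    rw [e]
    refine (ns_gq_prod P N C3 fun p hp => ⟨(hPar.hP p hp).1, ?_⟩).trans (hprod N hN4)
    have h1 := (hPar.hP p hp).2.2
    have h2 : (Hn d N : ℝ) ^ (1 / 10000 : ℝ) ≤ N := by
      calc (Hn d N : ℝ) ^ (1 / 10000 : ℝ) ≤ (Hn d N : ℝ) ^ (1 : ℝ) :=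
            Real.rpow_le_rpow_of_exponent_le hH1r (by norm_num)
        _ = Hn d N := Real.rpow_one _
        _ ≤ N := hHN
    exact_mod_cast h1.trans h2
  have hV : ∑ n ∈ Ioc N (Bn E N), (qr (rn F P n) g - qf g) ^ 2 ≤
      (B : ℝ) ^ 4 * (N * (1 / z * (C * L ^ C3)) + 4 * (Y : ℝ) ^ 12) := by
    refine hvar.trans ?_
    apply mul_le_mul_of_nonneg_left _ (by positivity)
    apply add_le_add_left
    apply mul_le_mul hBn2 _ _ hN0.le
    · exact mul_le_mul_of_nonneg_left hprodle (by positivity)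
    · apply mul_nonneg (by positivity)
      exact Finset.prod_nonneg fun j _ => by positivity
  refine (ns_gq_cheb (Ioc N (Bn E N)) (fun n => qr (rn F P n) g - qf g) L _ A hL0 hV).trans ?_
  -- the two parts
  have hz4 : (N : ℝ) ^ (1 / B0 : ℝ) ≤ z := by
    have hzB : (N : ℝ) ≤ (z : ℝ) ^ B0 := by exact_mod_cast hPar.hzB
    have hB0r : (B0 : ℝ) ≠ 0 := by
      have : B0 ≠ 0 := by omega
      exact_mod_cast this
    calc (N : ℝ) ^ (1 / B0 : ℝ) ≤ ((z : ℝ) ^ B0) ^ (1 / B0 : ℝ) :=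
          Real.rpow_le_rpow hN0.le hzB (by positivity)
      _ = z := by
          rw [← Real.rpow_natCast, ← Real.rpow_mul (by positivity), mul_one_div_cancel hB0r,
            Real.rpow_one]
  have hzr : (0 : ℝ) < z := by exact_mod_cast hz0
  have hp1 : L ^ (2 * A) * ((B : ℝ) ^ 4 * (N * (1 / z * (C * L ^ C3)))) ≤ N / L ^ A / 2 := by
    exact ns_gq_part1 L N z B C A C3 hL0 hN0 hzr (hN1.trans hz4)
  have hp2 : L ^ (2 * A) * ((B : ℝ) ^ 4 * (4 * (Y : ℝ) ^ 12)) ≤ N / L ^ A / 2 := by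
    have hY12 : (Y : ℝ) ^ 12 ≤ (N : ℝ) ^ (1 / 10 : ℝ) := by
      calc (Y : ℝ) ^ 12 ≤ ((N : ℝ) ^ (1 / 10000 : ℝ)) ^ 12 :=
            pow_le_pow_left₀ (by positivity) hYN 12
        _ = (N : ℝ) ^ (12 / 10000 : ℝ) := by
            rw [← Real.rpow_natCast, ← Real.rpow_mul hN0.le]
            norm_num
        _ ≤ _ := Real.rpow_le_rpow_of_exponent_le (by linarith) (by norm_num)
    have h1 : 8 * (B : ℝ) ^ 4 * L ^ (3 * A) * (Y : ℝ) ^ 12 ≤ N := by
      calc 8 * (B : ℝ) ^ 4 * L ^ (3 * A) * (Y : ℝ) ^ 12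
          ≤ (N : ℝ) ^ (9 / 10 : ℝ) * (N : ℝ) ^ (1 / 10 : ℝ) :=
            mul_le_mul hN2 hY12 (by positivity) (by positivity)
        _ = N := by
            rw [← Real.rpow_add hN0]
            norm_num
    exact ns_gq_part2 L N B _ A hL0 h1
  calc L ^ (2 * A) * ((B : ℝ) ^ 4 * (N * (1 / z * (C * L ^ C3)) + 4 * (Y : ℝ) ^ 12))
      = L ^ (2 * A) * ((B : ℝ) ^ 4 * (N * (1 / z * (C * L ^ C3)))) +
        L ^ (2 * A) * ((B : ℝ) ^ 4 * (4 * (Y : ℝ) ^ 12)) := by ring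
    _ ≤ N / L ^ A / 2 + N / L ^ A / 2 := add_le_add hp1 hp2
    _ = N / L ^ A := by ring

end Pool.Agent.NC.A
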