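import Pool.Agent.Lib.MP_0da313_nt.NC.M

set_option autoImplicit false

/-!
Project NC, piece [NS mas]: the mass of the window and its distribution in residue classes.
-/

namespace Pool.Agent.NC.M

open Finset Filter
open Pool.Agent.MP89da58 (tri tri_nonneg tri_le_one)
open Pool.Agent.CM (wd)

private theorem ns_mas_tri_le {a b : ℝ} (h : |b| ≤ |a|) : tri a ≤ tri b := by
  unfold tri
  exact max_le_max le_rfl (by linarith)

/-- total variation of a unimodal function -/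
private theorem ns_mas_tv (f : ℕ → ℝ) (K : ℕ) (h0 : ∀ x, 0 ≤ f x) (h1 : ∀ x, f x ≤ 1)
    (hm : ∀ x, 1 ≤ x → x + 1 ≤ K → f x ≤ f (x + 1)) (ha : ∀ x, K < x → f (x + 1) ≤ f x) (n : ℕ) :
    (n + 1 ≤ K → ∑ i ∈ range n, |f (i + 1 + 1) - f (i + 1)| = f (n + 1) - f 1) ∧
      (K < n + 1 → ∑ i ∈ range n, |f (i + 1 + 1) - f (i + 1)| ≤ 3 - f (n + 1)) := by
  induction n with
  | zero =>
    refine ⟨fun _ => by simp, fun _ => ?_⟩
    have := h1 1
    simp only [Finset.range_zero, Finset.sum_empty, zero_add]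
    linarith
  | succ n ih =>
    rw [Finset.sum_range_succ]
    refine ⟨fun h => ?_, fun h => ?_⟩
    · rw [ih.1 (by omega), abs_of_nonneg (by have := hm (n + 1) (by omega) h; linarith)]
      ring
    · by_cases hK : K < n + 1
      · have h2 := ih.2 hK
        have h3 := ha (n + 1) hK
        rw [abs_of_nonpos (by linarith)]
        linarith
      · have h2 := ih.1 (by omega)
        have h3 : |f (n + 1 + 1) - f (n + 1)| ≤ 1 := by
          rw [abs_le]
          constructor <;> linarith [h0 (n + 1), h1 (n + 1), h0 (n + 1 + 1), h1 (n + 1 + 1)]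
        rw [h2]
        linarith [h0 1, h1 (n + 1), h1 (n + 1 + 1)]

private theorem ns_mas_tv' (f : ℕ → ℝ) (K : ℕ) (h0 : ∀ x, 0 ≤ f x) (h1 : ∀ x, f x ≤ 1)
    (hm : ∀ x, 1 ≤ x → x + 1 ≤ K → f x ≤ f (x + 1)) (ha : ∀ x, K < x → f (x + 1) ≤ f x) (n : ℕ) :
    ∑ i ∈ range n, |f (i + 1 + 1) - f (i + 1)| ≤ 3 := by
  obtain ⟨g1, g2⟩ := ns_mas_tv f K h0 h1 hm ha n
  by_cases h : n + 1 ≤ K
  · rw [g1 h]
    linarith [h1 (n + 1), h0 1]
  · have := g2 (by omega)
    linarith [h0 (n + 1)]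

/-- distribution in residue classes -/
private theorem ns_mas_ap (f : ℕ → ℝ) (K : ℕ) (h0 : ∀ x, 0 ≤ f x) (h1 : ∀ x, f x ≤ 1)
    (hm : ∀ x, 1 ≤ x → x + 1 ≤ K → f x ≤ f (x + 1)) (ha : ∀ x, K < x → f (x + 1) ≤ f x)
    (H q c : ℕ) (hq : 1 ≤ q) :
    |∑ x ∈ (Icc 1 H).filter (fun x => x ≡ c [MOD q]), f x - (∑ x ∈ Icc 1 H, f x) / q| ≤ 4 := by
  have hG : ∀ n : ℕ, |∑ i ∈ range n, ((if i + 1 ≡ c [MOD q] then (1 : ℝ) else 0) - 1 / q)| ≤ 1 := by
    intro n
    have h2 := Pool.Agent.MP89da58.card_ap 0 n q c hq (Nat.zero_le n)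
    have h3 : (((Ioc 0 n).filter (fun x => x ≡ c [MOD q])).card : ℝ) =
        ∑ i ∈ range n, (if i + 1 ≡ c [MOD q] then (1 : ℝ) else 0) := by
      rw [Finset.card_filter]
      push_cast
      have e : Ioc 0 n = Ico 1 (n + 1) := by
        ext x
        simp only [mem_Ioc, mem_Ico]
        omega
      rw [e, Finset.sum_Ico_eq_sum_range]
      refine Finset.sum_congr (by simp) fun i _ => ?_
      rw [add_comm 1 i]
    rw [Finset.sum_sub_distrib, ← h3, Finset.sum_const, Finset.card_range, nsmul_eq_mul,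
      mul_one_div]
    simpa using h2
  have e1 : ∑ x ∈ (Icc 1 H).filter (fun x => x ≡ c [MOD q]), f x - (∑ x ∈ Icc 1 H, f x) / q =
      ∑ i ∈ range H, f (i + 1) • ((if i + 1 ≡ c [MOD q] then (1 : ℝ) else 0) - 1 / q) := by
    rw [Finset.sum_filter, Finset.sum_div, ← Finset.sum_sub_distrib]
    have e : Icc 1 H = Ico 1 (H + 1) := by
      ext x
      simp only [mem_Icc, mem_Ico]
      omega
    rw [e, Finset.sum_Ico_eq_sum_range]
    refine Finset.sum_congr (by simp) fun i _ => ?_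
    rw [add_comm 1 i, smul_eq_mul]
    split_ifs
    · ring
    · ring
  rw [e1, Finset.sum_range_by_parts]
  refine (abs_sub _ _).trans ?_
  have h2 : |f (H - 1 + 1) • ∑ i ∈ range H, ((if i + 1 ≡ c [MOD q] then (1 : ℝ) else 0) - 1 / q)| ≤
      1 := by
    rw [smul_eq_mul, abs_mul, abs_of_nonneg (h0 _)]
    have := mul_le_mul (h1 (H - 1 + 1)) (hG H) (abs_nonneg _) zero_le_one
    linarith
  have h3 : |∑ i ∈ range (H - 1), (f (i + 1 + 1) - f (i + 1)) •
      ∑ j ∈ range (i + 1), ((if j + 1 ≡ c [MOD q] then (1 : ℝ) else 0) - 1 / q)| ≤ 3 := by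
    refine (Finset.abs_sum_le_sum_abs _ _).trans ?_
    refine le_trans (Finset.sum_le_sum fun i _ => ?_) (ns_mas_tv' f K h0 h1 hm ha (H - 1))
    rw [smul_eq_mul, abs_mul]
    have := mul_le_mul_of_nonneg_left (hG (i + 1)) (abs_nonneg (f (i + 1 + 1) - f (i + 1)))
    linarith
  linarith

/-- monotonicity of the window -/
private theorem ns_mas_mono {lam X : ℝ} (hX : 0 < X) {x y : ℕ} (hx : 1 ≤ x)
    (hxy : x ≤ y) (hy : (y : ℝ) ≤ X) : wd lam X x ≤ wd lam X y := by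
  have hx0 : (0 : ℝ) < x := by exact_mod_cast hx
  have hxy' : (x : ℝ) ≤ y := by exact_mod_cast hxy
  have hy0 : (0 : ℝ) < y := by linarith
  apply ns_mas_tri_le
  rw [abs_mul, abs_mul]
  refine mul_le_mul_of_nonneg_left ?_ (abs_nonneg _)
  have h1 : Real.log (y / X) ≤ 0 := Real.log_nonpos (by positivity) (by rw [div_le_one hX]; exact hy)
  have h2 : Real.log (x / X) ≤ Real.log (y / X) :=
    Real.log_le_log (by positivity) (div_le_div_of_nonneg_right hxy' hX.le)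
  rw [abs_of_nonpos h1, abs_of_nonpos (by linarith)]
  linarith

private theorem ns_mas_anti {lam X : ℝ} (hX : 0 < X) {x y : ℕ}
    (hxy : x ≤ y) (hx : X ≤ (x : ℝ)) : wd lam X y ≤ wd lam X x := by
  have hxy' : (x : ℝ) ≤ y := by exact_mod_cast hxy
  have hx0 : (0 : ℝ) < x := lt_of_lt_of_le hX hx
  apply ns_mas_tri_le
  rw [abs_mul, abs_mul]
  refine mul_le_mul_of_nonneg_left ?_ (abs_nonneg _)
  have h1 : 0 ≤ Real.log (x / X) := Real.log_nonneg (by rw [le_div_iff₀ hX]; linarith)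
  have h2 : Real.log (x / X) ≤ Real.log (y / X) :=
    Real.log_le_log (by positivity) (div_le_div_of_nonneg_right hxy' hX.le)
  rw [abs_of_nonneg h1, abs_of_nonneg (by linarith)]
  exact h2

/-- lower bound for the mass -/
private theorem ns_mas_lo {lam X : ℝ} (hlam : 1 ≤ lam) (hX : 0 < X) {H : ℕ} (hH : ⌊X⌋₊ ≤ H) :
    1 / 2 * (X / (2 * lam + 1) - 1) ≤ ∑ x ∈ Icc 1 H, wd lam X x := by
  set a : ℝ := X - X / (2 * lam + 1) with ha
  have hl : 0 < 2 * lam + 1 := by linarith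
  have ha0 : 0 < a := by
    have : X / (2 * lam + 1) < X := by
      rw [div_lt_iff₀ hl]
      nlinarith
    linarith
  have hsub : Icc ⌈a⌉₊ ⌊X⌋₊ ⊆ Icc 1 H := by
    intro x hx
    rw [mem_Icc] at hx ⊢
    have : 1 ≤ ⌈a⌉₊ := Nat.one_le_iff_ne_zero.2 (by
      intro h
      rw [Nat.ceil_eq_zero] at h
      linarith)
    omega
  have h1 : ∑ x ∈ Icc ⌈a⌉₊ ⌊X⌋₊, wd lam X x ≤ ∑ x ∈ Icc 1 H, wd lam X x :=
    Finset.sum_le_sum_of_subset_of_nonneg hsub fun x _ _ => tri_nonneg _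
  refine le_trans ?_ h1
  have h2 : ∀ x ∈ Icc ⌈a⌉₊ ⌊X⌋₊, (1 / 2 : ℝ) ≤ wd lam X x := by
    intro x hx
    rw [mem_Icc] at hx
    have hx1 : a ≤ x := (Nat.le_ceil a).trans (by exact_mod_cast hx.1)
    have hx2 : (x : ℝ) ≤ X := (by exact_mod_cast hx.2 : (x : ℝ) ≤ (⌊X⌋₊ : ℝ)).trans
      (Nat.floor_le hX.le)
    have hx0 : (0 : ℝ) < x := lt_of_lt_of_le ha0 hx1
    have h3 : Real.log (x / X) ≤ 0 :=
      Real.log_nonpos (by positivity) (by rw [div_le_one hX]; exact hx2)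
    have h4 : -Real.log (x / X) ≤ 1 / (2 * lam) := by
      rw [← Real.log_inv, inv_div]
      have h5 : X / x ≤ 1 + 1 / (2 * lam) := by
        rw [div_le_iff₀ hx0]
        have h6 : X = a * (1 + 1 / (2 * lam)) := by
          rw [ha]
          have : lam ≠ 0 := by linarith
          field_simp
          ring
        calc X = a * (1 + 1 / (2 * lam)) := h6
          _ ≤ x * (1 + 1 / (2 * lam)) := mul_le_mul_of_nonneg_right hx1 (by positivity)
          _ = (1 + 1 / (2 * lam)) * x := mul_comm _ _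
      have h7 := Real.log_le_sub_one_of_pos (show 0 < X / x by positivity)
      linarith
    have h8 : |lam * Real.log (x / X)| ≤ 1 / 2 := by
      rw [abs_mul, abs_of_nonneg (by linarith), abs_of_nonpos h3]
      calc lam * -Real.log (x / X) ≤ lam * (1 / (2 * lam)) :=
            mul_le_mul_of_nonneg_left h4 (by linarith)
        _ = 1 / 2 := by
            have : lam ≠ 0 := by linarith
            field_simp
    show (1 / 2 : ℝ) ≤ max 0 (1 - |lam * Real.log (x / X)|)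
    exact le_max_of_le_right (by linarith)
  have h3 := Finset.card_nsmul_le_sum _ _ _ h2
  rw [nsmul_eq_mul, Nat.card_Icc] at h3
  refine le_trans ?_ h3
  rw [mul_comm]
  refine mul_le_mul_of_nonneg_right ?_ (by norm_num)
  have h4 : (⌊X⌋₊ : ℝ) + 1 - ⌈a⌉₊ ≤ ((⌊X⌋₊ + 1 - ⌈a⌉₊ : ℕ) : ℝ) := by
    have : ⌊X⌋₊ + 1 ≤ (⌊X⌋₊ + 1 - ⌈a⌉₊) + ⌈a⌉₊ := by omega
    have h5 : ((⌊X⌋₊ + 1 : ℕ) : ℝ) ≤ (((⌊X⌋₊ + 1 - ⌈a⌉₊) + ⌈a⌉₊ : ℕ) : ℝ) := by exact_mod_cast this
    push_cast at h5 ⊢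
    linarith
  have h5 := Nat.lt_floor_add_one X
  have h6 := Nat.ceil_lt_add_one ha0.le
  linarith

theorem p_mas : S_mas := by
  intro ι _ _ D d E F
  have hd : 2 ≤ d := F.hd
  have hE : 1 ≤ E := F.hE
  have hdR : (2 : ℝ) ≤ d := by exact_mod_cast hd
  have hER : (1 : ℝ) ≤ E := by exact_mod_cast hE
  have hd0 : (0 : ℝ) < 1 / (d : ℝ) := by positivity
  have hlam : (2000 : ℝ) ≤ 1000 * d * E := by nlinarith
  have ht : Tendsto (fun N : ℕ => (N : ℝ) ^ (1 / (d : ℝ))) atTop atTop :=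
    (tendsto_rpow_atTop hd0).comp tendsto_natCast_atTop_atTop
  filter_upwards [eventually_ge_atTop 1, ht.eventually_ge_atTop (25 * (1000 * d * E))]
    with N hN hbig
  have hN0 : (0 : ℝ) < N := by exact_mod_cast hN
  have hs0 := F.hs0
  have hs1 := F.hs1
  have hsN : 0 < F.s * N := by positivity
  have hX : 0 < F.X N := Real.rpow_pos_of_pos hsN _
  have hXle : F.X N ≤ (N : ℝ) ^ (1 / (d : ℝ)) := by
    unfold Fam.X
    apply Real.rpow_le_rpow hsN.le _ hd0.le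
    nlinarith
  have hXge : (N : ℝ) ^ (1 / (d : ℝ)) / 2 ≤ F.X N := by
    unfold Fam.X
    have h1 : (1 / 4 * (N : ℝ)) ^ (1 / (d : ℝ)) ≤ (F.s * N) ^ (1 / (d : ℝ)) := by
      apply Real.rpow_le_rpow (by positivity) _ hd0.le
      nlinarith
    refine le_trans ?_ h1
    rw [Real.mul_rpow (by norm_num) hN0.le]
    have h2 : (1 / 2 : ℝ) ≤ (1 / 4 : ℝ) ^ (1 / (d : ℝ)) := by
      have h3 : (1 / 4 : ℝ) ^ (1 / 2 : ℝ) = 1 / 2 := by
        rw [← Real.sqrt_eq_rpow]
        have : (1 / 4 : ℝ) = (1 / 2) ^ 2 := by norm_num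
        rw [this, Real.sqrt_sq (by norm_num)]
      rw [← h3]
      apply Real.rpow_le_rpow_of_exponent_ge (by norm_num) (by norm_num)
      apply one_div_le_one_div_of_le (by norm_num) hdR
    have h4 : 0 ≤ (N : ℝ) ^ (1 / (d : ℝ)) := by positivity
    nlinarith
  have hwh : ∀ x : ℕ, F.wh N x = wd (1000 * d * E) (F.X N) x := fun _ => rfl
  have hb : ∀ x : ℕ, 0 ≤ F.wh N x ∧ F.wh N x ≤ 1 := fun x => ⟨tri_nonneg _, tri_le_one _⟩
  refine ⟨hb, fun q c hq => ?_, ?_, ?_⟩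
  · refine ns_mas_ap (F.wh N) ⌊F.X N⌋₊ (fun x => (hb x).1) (fun x => (hb x).2) ?_ ?_ (Hn d N) q c hq
    · intro x hx hxK
      refine ns_mas_mono hX hx (Nat.le_succ x) ?_
      exact (by exact_mod_cast hxK : ((x + 1 : ℕ) : ℝ) ≤ (⌊F.X N⌋₊ : ℝ)).trans (Nat.floor_le hX.le)
    · intro x hx
      refine ns_mas_anti hX (Nat.le_succ x) ?_
      have := Nat.lt_of_floor_lt hx
      exact this.le
  · have hH : ⌊F.X N⌋₊ ≤ Hn d N := Nat.floor_le_floor hXle
    have h1 := ns_mas_lo (lam := 1000 * d * E) (by linarith) hX hH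
    have h2 : ∑ x ∈ Icc 1 (Hn d N), wd (1000 * d * E) (F.X N) x = mN F N := rfl
    rw [h2] at h1
    set lam : ℝ := 1000 * d * E with hlamdef
    set R : ℝ := (N : ℝ) ^ (1 / (d : ℝ)) with hR
    have h3 : R / 2 / (2 * lam + 1) ≤ F.X N / (2 * lam + 1) :=
      div_le_div_of_nonneg_right hXge (by linarith)
    have h4 : 24 / 100 * R / lam ≤ R / 2 / (2 * lam + 1) := by
      rw [div_le_div_iff₀ (by linarith) (by linarith)]
      have hR0 : 0 ≤ R := by linarith
      nlinarith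
    have h5 : 1 / 2 * (24 / 100 * R / lam - 1) ≤ mN F N := by linarith
    have h6 : (10000 : ℝ) * d * E = 10 * lam := by
      rw [hlamdef]
      ring
    rw [h6]
    have hl0 : 0 < lam := by linarith
    have h7 := mul_le_mul_of_nonneg_left h5 (show 0 ≤ 10 * lam by linarith)
    refine le_trans ?_ h7
    have h8 : 10 * lam * (1 / 2 * (24 / 100 * R / lam - 1)) = 12 / 10 * R - 5 * lam := by
      field_simp
      ring
    rw [h8]
    linarith
  · have h1 : mN F N ≤ ∑ x ∈ Icc 1 (Hn d N), (1 : ℝ) :=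
      Finset.sum_le_sum fun x _ => (hb x).2
    rw [Finset.sum_const, Nat.card_Icc, Nat.add_sub_cancel, nsmul_eq_mul, mul_one] at h1
    exact h1.trans (Nat.floor_le (by positivity))

end Pool.Agent.NC.M
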