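import Pool.Agent.Lib.MP_0da313_nt.NC.Q

set_option autoImplicit false
set_option linter.unusedSectionVars false

/-!
Project NC, section Q, piece nu: the coefficients of the square of the sieve sum.
-/

namespace Pool.Agent.NC.Q

open Finset
open Pool.Agent.MP89da58 (bil pw nn supp part join compat mem_supp supp_join prod_kap_compat
  prod_kap_not_compat)
open Pool.Agent.MT (dvI ZI dvI_and_iff)

section

variable {ι J : Type} [Fintype ι] [DecidableEq ι] [Fintype J] [DecidableEq J]

open Classical in
private theorem ns_nu_key (g : (J → Option ι) → ℝ) (h : (J → Option ι) → ℝ) :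
    ∑ γ : J → Option ι, nu g γ * h γ = ∑ α : J → Option ι, ∑ β : J → Option ι,
      if compat α β then g α * g β * h (join α β) else 0 := by
  have h1 : ∀ γ : J → Option ι, nu g γ * h γ = ∑ α : J → Option ι, ∑ β : J → Option ι,
      if compat α β ∧ join α β = γ then g α * g β * h γ else 0 := by
    intro γ
    unfold nu
    rw [sum_mul]
    refine sum_congr rfl fun α _ => ?_
    rw [sum_mul]
    refine sum_congr rfl fun β _ => ?_
    split_ifs
    · rfl
    · rw [zero_mul]
  rw [sum_congr rfl fun γ _ => h1 γ, sum_comm]
  refine sum_congr rfl fun α _ => ?_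
  rw [sum_comm]
  refine sum_congr rfl fun β _ => ?_
  by_cases hc : compat α β
  · rw [if_pos hc]
    have h2 : ∀ γ : J → Option ι, (if compat α β ∧ join α β = γ then g α * g β * h γ else 0) =
        if join α β = γ then g α * g β * h γ else 0 := by
      intro γ
      by_cases h3 : join α β = γ
      · rw [if_pos ⟨hc, h3⟩, if_pos h3]
      · rw [if_neg (fun h4 => h3 h4.2), if_neg h3]
    rw [sum_congr rfl fun γ _ => h2 γ, sum_ite_eq, if_pos (mem_univ _)]
  · rw [if_neg hc]
    refine sum_eq_zero fun γ _ => ?_
    rw [if_neg (fun h4 => hc h4.1)]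

open Classical in
private theorem ns_nu_card (γ : J → Option ι) :
    ((univ : Finset ((J → Option ι) × (J → Option ι))).filter
      (fun ab => compat ab.1 ab.2 ∧ join ab.1 ab.2 = γ)).card ≤ 3 ^ (supp γ).card := by
  set A : J → Finset (Option ι × Option ι) := fun j =>
    if j ∈ supp γ then {(γ j, none), (none, γ j), (γ j, γ j)} else {(none, none)} with hA
  have h1 : ((univ : Finset ((J → Option ι) × (J → Option ι))).filter
      (fun ab => compat ab.1 ab.2 ∧ join ab.1 ab.2 = γ)).card ≤ (Fintype.piFinset A).card := by
    refine card_le_card_of_injOn (fun ab j => (ab.1 j, ab.2 j)) ?_ ?_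
    · intro ab hab
      rw [mem_coe, mem_filter] at hab
      rw [mem_coe, Fintype.mem_piFinset]
      intro j
      obtain ⟨_, hc, hs⟩ := hab
      have hj1 : (join ab.1 ab.2) j = γ j := by rw [hs]
      simp only [hA]
      split_ifs with hj
      · rw [mem_insert, mem_insert, mem_singleton]
        rcases ha : ab.1 j with _ | a
        · simp only [join, ha, Option.orElse_none] at hj1
          right; left
          rw [hj1]
        · simp only [join, ha, Option.orElse_some] at hj1
          rcases hb : ab.2 j with _ | b
          · left
            rw [hj1]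
          · right; right
            have hab' : a = b := by
              rcases hc j with h | h | h
              · rw [ha] at h; exact absurd h (by simp)
              · rw [hb] at h; exact absurd h (by simp)
              · rw [ha, hb] at h; exact Option.some.inj h
            rw [← hj1, hab']
      · rw [mem_supp, not_not] at hj
        rw [hj] at hj1
        rw [mem_singleton]
        rcases ha : ab.1 j with _ | a
        · simp only [join, ha, Option.orElse_none] at hj1
          rw [hj1]
        · simp only [join, ha, Option.orElse_some] at hj1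
          exact absurd hj1 (by simp)
    · intro ab _ cd _ h
      have h2 : ∀ j, (ab.1 j, ab.2 j) = (cd.1 j, cd.2 j) := fun j => congrFun h j
      refine Prod.ext (funext fun j => ?_) (funext fun j => ?_)
      · exact (Prod.mk.inj (h2 j)).1
      · exact (Prod.mk.inj (h2 j)).2
  refine h1.trans ?_
  rw [Fintype.card_piFinset]
  have h2 : ∀ j ∈ (univ : Finset J), (A j).card ≤ if j ∈ supp γ then 3 else 1 := by
    intro j _
    simp only [hA]
    split_ifs
    · exact card_le_three
    · simp
  refine (prod_le_prod' h2).trans (le_of_eq ?_)
  rw [prod_ite, prod_const, prod_const_one, mul_one, filter_mem_eq_inter, univ_inter]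

open Classical in
private theorem ns_nu_fib (a : Finset J) :
    ((univ : Finset (J → Option ι)).filter (fun γ => supp γ = a)).card =
      Fintype.card ι ^ a.card := by
  have h1 : (univ : Finset (J → Option ι)).filter (fun γ => supp γ = a) =
      Fintype.piFinset (fun j => if j ∈ a then (univ : Finset ι).map ⟨some, Option.some_injective ι⟩
        else {none}) := by
    ext γ
    rw [mem_filter, Fintype.mem_piFinset]
    constructor
    · rintro ⟨_, h⟩ j
      split_ifs with hj
      · rw [← h, mem_supp] at hj
        obtain ⟨i, hi⟩ := Option.ne_none_iff_exists'.mp hj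
        rw [mem_map]
        exact ⟨i, mem_univ _, hi.symm⟩
      · rw [← h, mem_supp, not_not] at hj
        rw [mem_singleton]
        exact hj
    · intro h
      refine ⟨mem_univ _, ?_⟩
      ext j
      rw [mem_supp]
      have hj := h j
      by_cases hja : j ∈ a
      · rw [if_pos hja, mem_map] at hj
        obtain ⟨i, _, hi⟩ := hj
        have : γ j = some i := hi.symm
        rw [this]
        simp [hja]
      · rw [if_neg hja, mem_singleton] at hj
        simp [hja, hj]
  rw [h1, Fintype.card_piFinset]
  have h2 : ∀ j : J, (if j ∈ a then (univ : Finset ι).map ⟨some, Option.some_injective ι⟩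
      else {none}).card = if j ∈ a then Fintype.card ι else 1 := by
    intro j
    split_ifs
    · rw [card_map, card_univ]
    · simp
  rw [prod_congr rfl fun j _ => h2 j, prod_ite, prod_const, prod_const_one, mul_one,
    filter_mem_eq_inter, univ_inter]

end

theorem p_nu : S_nu := by
  classical
  intro ι J _ _ _ _ g
  refine ⟨?_, ?_, ?_, ?_, ?_⟩
  · intro D hcop s ω
    rw [ns_nu_key g (fun γ => ∑ x ∈ s, if dvI D (x : ℤ) γ then ω x else 0)]
    have h1 : ∑ n ∈ s, ω n * ZI D g (n : ℤ) ^ 2 = ∑ α : J → Option ι, ∑ β : J → Option ι,
        g α * g β * ∑ n ∈ s, if dvI D (n : ℤ) α ∧ dvI D (n : ℤ) β then ω n else 0 := by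
      have h2 : ∀ n ∈ s, ω n * ZI D g (n : ℤ) ^ 2 = ∑ α : J → Option ι, ∑ β : J → Option ι,
          g α * g β * (if dvI D (n : ℤ) α ∧ dvI D (n : ℤ) β then ω n else 0) := by
        intro n _
        unfold ZI
        rw [pow_two, sum_mul_sum, mul_sum]
        apply sum_congr rfl
        intro α _
        rw [mul_sum]
        apply sum_congr rfl
        intro β _
        by_cases ha : dvI D (n : ℤ) α
        · by_cases hb : dvI D (n : ℤ) β
          · simp only [ha, hb, if_true, and_self]; ring
          · simp only [ha, hb, if_true, if_false, and_false]; ring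
        · simp only [ha, if_false, false_and]; ring
      rw [sum_congr rfl h2, sum_comm]
      apply sum_congr rfl
      intro α _
      rw [sum_comm]
      apply sum_congr rfl
      intro β _
      rw [mul_sum]
    rw [h1]
    refine sum_congr rfl fun α _ => sum_congr rfl fun β _ => ?_
    by_cases hc : compat α β
    · rw [if_pos hc]
      congr 1
      refine sum_congr rfl fun n _ => ?_
      simp only [dvI_and_iff D (n : ℤ) α β hc]
    · rw [if_neg hc]
      have h3 : (∑ n ∈ s, if dvI D (n : ℤ) α ∧ dvI D (n : ℤ) β then ω n else 0) = 0 := by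
        apply sum_eq_zero
        intro n _
        rw [if_neg]
        rintro ⟨ha, hb⟩
        unfold MP89da58.compat at hc
        rw [not_forall] at hc
        obtain ⟨j, hj⟩ := hc
        rw [not_or, not_or] at hj
        obtain ⟨h1, h2, h3⟩ := hj
        obtain ⟨a, ha'⟩ := Option.ne_none_iff_exists'.mp h1
        obtain ⟨b, hb'⟩ := Option.ne_none_iff_exists'.mp h2
        have hab : a ≠ b := by
          rintro rfl
          exact h3 (by rw [ha', hb'])
        exact hcop j a b (n : ℤ) hab ⟨ha j a ha', hb j b hb'⟩
      rw [h3, mul_zero]
  · intro B hB γ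
    have hB0 : 0 ≤ B := (abs_nonneg _).trans (hB γ)
    unfold nu
    have h1 : |∑ α : J → Option ι, ∑ β : J → Option ι,
        if compat α β ∧ join α β = γ then g α * g β else 0| ≤
        ∑ α : J → Option ι, ∑ β : J → Option ι,
          if compat α β ∧ join α β = γ then B ^ 2 else 0 := by
      refine (abs_sum_le_sum_abs _ _).trans (sum_le_sum fun α _ => ?_)
      refine (abs_sum_le_sum_abs _ _).trans (sum_le_sum fun β _ => ?_)
      split_ifs
      · rw [abs_mul, pow_two]
        exact mul_le_mul (hB α) (hB β) (abs_nonneg _) hB0
      · rw [abs_zero]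
    refine h1.trans ?_
    have h2 : ∑ α : J → Option ι, ∑ β : J → Option ι,
        (if compat α β ∧ join α β = γ then B ^ 2 else 0) =
        B ^ 2 * (((univ : Finset ((J → Option ι) × (J → Option ι))).filter
          (fun ab => compat ab.1 ab.2 ∧ join ab.1 ab.2 = γ)).card : ℝ) := by
      rw [← Fintype.sum_prod_type'
        (f := fun α β : J → Option ι => if compat α β ∧ join α β = γ then B ^ 2 else 0)]
      rw [← sum_filter, sum_const, nsmul_eq_mul, mul_comm]
    rw [h2]
    refine mul_le_mul_of_nonneg_left ?_ (sq_nonneg B)
    exact_mod_cast ns_nu_card γ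
  · intro γ hγ
    unfold nu at hγ
    obtain ⟨α, _, hα⟩ := exists_ne_zero_of_sum_ne_zero hγ
    obtain ⟨β, _, hβ⟩ := exists_ne_zero_of_sum_ne_zero hα
    by_cases hc : compat α β ∧ join α β = γ
    · rw [if_pos hc] at hβ
      refine ⟨α, β, left_ne_zero_of_mul hβ, right_ne_zero_of_mul hβ, ?_, ?_⟩
      · rw [← hc.2, supp_join]
      · intro j i hj
        rw [← hc.2] at hj
        rcases ha : α j with _ | a
        · simp only [join, ha, Option.orElse_none] at hj
          exact Or.inr hj
        · simp only [join, ha, Option.orElse_some] at hj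
          exact Or.inl hj
    · rw [if_neg hc] at hβ
      exact absurd rfl hβ
  · intro x
    rw [ns_nu_key g (fun γ => pw x (supp γ))]
    unfold MP89da58.bil
    refine sum_congr rfl fun α _ => sum_congr rfl fun β _ => ?_
    by_cases hc : compat α β
    · rw [if_pos hc, prod_kap_compat x α β hc]
    · rw [if_neg hc, prod_kap_not_compat x α β hc, mul_zero]
  · intro f
    rw [← sum_fiberwise (s := (univ : Finset (J → Option ι))) (g := fun γ => supp γ)]
    refine sum_congr rfl fun a _ => ?_
    have h1 : ∑ γ ∈ (univ : Finset (J → Option ι)).filter (fun γ => supp γ = a), f (supp γ) =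
        ∑ γ ∈ (univ : Finset (J → Option ι)).filter (fun γ => supp γ = a), f a := by
      refine sum_congr rfl fun γ hγ => ?_
      rw [(mem_filter.1 hγ).2]
    rw [h1, sum_const, nsmul_eq_mul, ns_nu_fib a]
    push_cast
    rfl

end Pool.Agent.NC.Q
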