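import Pool.Agent.Lib.MP_0da313_nt.NC.Q

set_option autoImplicit false
set_option linter.unusedSectionVars false

/-!
Project NC, piece [NS qp]: the quadratic form with general densities is nonnegative.
-/

namespace Pool.Agent.NC.Q

open Finset
open Pool.Agent.MP89da58 (join compat)

variable {ι J : Type} [Fintype ι] [DecidableEq ι] [Fintype J] [DecidableEq J]

/-- `u` agrees with `γ` on the support of `γ`. -/
private def ns_qp_agree (u γ : J → Option ι) : Prop := ∀ j, γ j = none ∨ u j = γ j

/-- The local probabilities. -/
private noncomputable def ns_qp_w (r : ι → ℝ) : Option ι → ℝ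
  | none => 1 - ∑ l, r l
  | some l => r l

private theorem ns_qp_agree_iff (u α β : J → Option ι) :
    ns_qp_agree u α ∧ ns_qp_agree u β ↔ compat α β ∧ ns_qp_agree u (join α β) := by
  constructor
  · rintro ⟨h1, h2⟩
    refine ⟨fun j => ?_, fun j => ?_⟩
    · rcases h1 j with h | h
      · exact Or.inl h
      · rcases h2 j with h' | h'
        · exact Or.inr (Or.inl h')
        · exact Or.inr (Or.inr (h.symm.trans h'))
    · rcases h1 j with h | h
      · have e : join α β j = β j := by
          simp [join, h]
        rw [e]
        exact h2 j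
      · rcases ha : α j with _ | a
        · have e : join α β j = β j := by
            simp [join, ha]
          rw [e]
          exact h2 j
        · have e : join α β j = α j := by
            simp [join, ha]
          rw [e]
          exact Or.inr h
  · rintro ⟨hc, h⟩
    refine ⟨fun j => ?_, fun j => ?_⟩
    · rcases ha : α j with _ | a
      · exact Or.inl rfl
      · have e : join α β j = some a := by
          simp [join, ha]
        rcases h j with h' | h'
        · rw [e] at h'
          exact absurd h' (by simp)
        · exact Or.inr (h'.trans e)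
    · rcases hc j with h0 | h0 | h0
      · have e : join α β j = β j := by
          simp [join, h0]
        rw [← e]
        exact h j
      · exact Or.inl h0
      · rcases ha : α j with _ | a
        · exact Or.inl (h0.symm.trans ha)
        · have e : join α β j = β j := by
            rw [← h0]
            simp [join, ha]
          rw [← e]
          exact h j

open Classical in
private theorem ns_qp_local (r : ι → ℝ) (o : Option ι) :
    ∑ c : Option ι, ns_qp_w r c * (if o = none ∨ c = o then (1 : ℝ) else 0) = o.elim 1 r := by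
  rcases o with _ | i
  · simp [Fintype.sum_option, ns_qp_w]
  · rw [Fintype.sum_option]
    simp [ns_qp_w]

open Classical in
private theorem ns_qp_prr (r : J → ι → ℝ) (γ : J → Option ι) :
    prr r γ = ∑ u : J → Option ι, (∏ j, ns_qp_w (r j) (u j)) *
      (if ns_qp_agree u γ then (1 : ℝ) else 0) := by
  have h1 : ∀ u : J → Option ι, (∏ j, ns_qp_w (r j) (u j)) *
      (if ns_qp_agree u γ then (1 : ℝ) else 0) =
      ∏ j, (ns_qp_w (r j) (u j) * (if γ j = none ∨ u j = γ j then (1 : ℝ) else 0)) := by
    intro u
    rw [Finset.prod_mul_distrib]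
    congr 1
    by_cases h : ns_qp_agree u γ
    · rw [if_pos h]
      exact (Finset.prod_eq_one fun j _ => if_pos (h j)).symm
    · rw [if_neg h]
      unfold ns_qp_agree at h
      push Not at h
      obtain ⟨j, hj1, hj2⟩ := h
      refine (Finset.prod_eq_zero (Finset.mem_univ j) (if_neg ?_)).symm
      rintro (h | h)
      · exact hj1 h
      · exact hj2 h
  rw [Finset.sum_congr rfl fun u _ => h1 u, ← Fintype.piFinset_univ,
    ← Finset.prod_univ_sum (fun _ => (Finset.univ : Finset (Option ι)))
      (fun j c => ns_qp_w (r j) c * (if γ j = none ∨ c = γ j then (1 : ℝ) else 0))]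
  unfold prr
  exact Finset.prod_congr rfl fun j _ => (ns_qp_local (r j) (γ j)).symm

open Classical in
private theorem ns_qp_nu (g : (J → Option ι) → ℝ) (u : J → Option ι) :
    ∑ γ : J → Option ι, nu g γ * (if ns_qp_agree u γ then (1 : ℝ) else 0) =
      (∑ α : J → Option ι, if ns_qp_agree u α then g α else 0) ^ 2 := by
  have h1 : ∀ γ : J → Option ι, nu g γ * (if ns_qp_agree u γ then (1 : ℝ) else 0) =
      ∑ α : J → Option ι, ∑ β : J → Option ι,
        if compat α β ∧ join α β = γ then g α * g β *
          (if ns_qp_agree u (join α β) then (1 : ℝ) else 0) else 0 := by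
    intro γ
    unfold nu
    rw [Finset.sum_mul]
    refine Finset.sum_congr rfl fun α _ => ?_
    rw [Finset.sum_mul]
    refine Finset.sum_congr rfl fun β _ => ?_
    by_cases h : compat α β ∧ join α β = γ
    · rw [if_pos h, if_pos h, h.2]
    · rw [if_neg h, if_neg h, zero_mul]
  rw [Finset.sum_congr rfl fun γ _ => h1 γ, Finset.sum_comm, sq, Finset.sum_mul_sum]
  refine Finset.sum_congr rfl fun α _ => ?_
  rw [Finset.sum_comm]
  refine Finset.sum_congr rfl fun β _ => ?_
  by_cases hc : compat α β
  · rw [Finset.sum_eq_single (join α β)]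
    · rw [if_pos ⟨hc, rfl⟩]
      by_cases ha : ns_qp_agree u (join α β)
      · have h2 := (ns_qp_agree_iff u α β).2 ⟨hc, ha⟩
        rw [if_pos ha, if_pos h2.1, if_pos h2.2, mul_one]
      · rw [if_neg ha, mul_zero]
        by_cases h3 : ns_qp_agree u α
        · by_cases h4 : ns_qp_agree u β
          · exact absurd ((ns_qp_agree_iff u α β).1 ⟨h3, h4⟩).2 ha
          · rw [if_neg h4, mul_zero]
        · rw [if_neg h3, zero_mul]
    · intro γ _ hγ
      rw [if_neg]
      rintro ⟨_, h⟩
      exact hγ h.symm
    · intro h
      exact absurd (Finset.mem_univ _) h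
  · rw [Finset.sum_eq_zero fun γ _ => if_neg fun h => hc h.1]
    by_cases h3 : ns_qp_agree u α
    · by_cases h4 : ns_qp_agree u β
      · exact absurd ((ns_qp_agree_iff u α β).1 ⟨h3, h4⟩).1 hc
      · rw [if_neg h4, mul_zero]
    · rw [if_neg h3, zero_mul]

theorem p_qp : S_qp := by
  classical
  intro ι J _ _ _ _ r g hr hs
  have h1 : qr r g = ∑ u : J → Option ι, (∏ j, ns_qp_w (r j) (u j)) *
      (∑ α : J → Option ι, if ns_qp_agree u α then g α else 0) ^ 2 := by
    unfold qr
    have h2 : ∀ γ : J → Option ι, nu g γ * prr r γ = ∑ u : J → Option ι,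
        (∏ j, ns_qp_w (r j) (u j)) * (nu g γ * (if ns_qp_agree u γ then (1 : ℝ) else 0)) := by
      intro γ
      rw [ns_qp_prr, Finset.mul_sum]
      refine Finset.sum_congr rfl fun u _ => ?_
      ring
    rw [Finset.sum_congr rfl fun γ _ => h2 γ, Finset.sum_comm]
    refine Finset.sum_congr rfl fun u _ => ?_
    rw [← Finset.mul_sum, ns_qp_nu]
  rw [h1]
  refine Finset.sum_nonneg fun u _ => mul_nonneg (Finset.prod_nonneg fun j _ => ?_) (sq_nonneg _)
  rcases u j with _ | l
  · show 0 ≤ 1 - ∑ l, r j l
    linarith [hs j]
  · exact hr j l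

end Pool.Agent.NC.Q
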