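import Pool.Agent.Lib.MP_0da313_nt.NC.F
import Pool.Agent.Lib.MP_0da313_nt.CM.P.app

set_option autoImplicit false

/-!
The existence of the weights.
-/

namespace Pool.Agent.NC.F

open Finset Filter Polynomial
open Pool.Agent.MP89da58 (kapD)
open Pool.Agent.MT (PJf)
open Pool.Agent.BVall (lev)
open Pool.Agent.CM (z0)
open Pool.Agent.TC.W (WP2)
open Pool.Agent.NC.A (Par3)

/-- the step `y0` -/
private lemma ns_sy_size {M : ℕ} (hM : 1 ≤ M) : ∀ᶠ n : ℕ in atTop, ∀ z : ℕ,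
    (z : ℝ) ^ M ≤ (n : ℝ) ^ (1 / 10000 : ℝ) → ∃ y0 : ℕ, z ≤ y0 ∧
      (y0 : ℝ) ^ M ≤ (n : ℝ) ^ (1 / 10000 : ℝ) ∧ Real.log n ≤ 20000 * M * Real.log y0 := by
  have hMr : (1 : ℝ) ≤ M := by exact_mod_cast hM
  have hM0 : (M : ℝ) ≠ 0 := by linarith
  have hs : (0 : ℝ) < 1 / (10000 * M) := by positivity
  have ht : Tendsto (fun n : ℕ => (n : ℝ) ^ (1 / (10000 * M) : ℝ)) atTop atTop :=
    (tendsto_rpow_atTop hs).comp tendsto_natCast_atTop_atTop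
  filter_upwards [ht.eventually_ge_atTop 4, eventually_ge_atTop 1] with n hn hn1 z hz
  have hn1' : (1 : ℝ) ≤ n := by exact_mod_cast hn1
  have hn0 : (0 : ℝ) ≤ n := by linarith
  set t := (n : ℝ) ^ (1 / (10000 * M) : ℝ) with htdef
  have ht0 : 0 ≤ t := by linarith
  have htM : t ^ M = (n : ℝ) ^ (1 / 10000 : ℝ) := by
    rw [htdef, ← Real.rpow_natCast, ← Real.rpow_mul hn0]
    congr 1
    field_simp
  have hfl : (⌊t⌋₊ : ℝ) ≤ t := Nat.floor_le ht0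
  have hfl2 : t < ⌊t⌋₊ + 1 := Nat.lt_floor_add_one t
  refine ⟨⌊t⌋₊, ?_, ?_, ?_⟩
  · apply Nat.le_floor
    rw [← htM] at hz
    exact le_of_pow_le_pow_left₀ (by omega) ht0 hz
  · rw [← htM]
    exact pow_le_pow_left₀ (Nat.cast_nonneg _) hfl M
  · have h1 : Real.sqrt t ≤ ⌊t⌋₊ := by
      have h2 : 0 ≤ Real.sqrt t := Real.sqrt_nonneg t
      have h3 : Real.sqrt t * Real.sqrt t = t := Real.mul_self_sqrt ht0
      have h4 : 2 ≤ Real.sqrt t := by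
        rw [Real.le_sqrt (by norm_num) ht0]
        linarith
      nlinarith
    have h2 : 0 < Real.sqrt t := Real.sqrt_pos.2 (by linarith)
    have h3 := Real.log_le_log h2 h1
    rw [Real.log_sqrt ht0, htdef, Real.log_rpow (by linarith)] at h3
    have h4 : 1 / (10000 * (M : ℝ)) * Real.log n / 2 * (20000 * M) = Real.log n := by
      field_simp
      ring
    calc Real.log n = 1 / (10000 * (M : ℝ)) * Real.log n / 2 * (20000 * M) := h4.symm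
      _ ≤ Real.log ⌊t⌋₊ * (20000 * M) := mul_le_mul_of_nonneg_right h3 (by positivity)
      _ = _ := by ring

private lemma ns_sy_Hn {d : ℕ} (hd : 2 ≤ d) : Tendsto (fun N : ℕ => Hn d N) atTop atTop := by
  have hs : (0 : ℝ) < 1 / (d : ℝ) := by
    have : (0 : ℝ) < d := by exact_mod_cast (by omega : 0 < d)
    positivity
  have ht : Tendsto (fun n : ℕ => (n : ℝ) ^ (1 / (d : ℝ))) atTop atTop :=
    (tendsto_rpow_atTop hs).comp tendsto_natCast_atTop_atTop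
  exact tendsto_nat_floor_atTop.comp ht

private lemma ns_sy_Hn_le {d : ℕ} (hd : 2 ≤ d) {N : ℕ} (hN : 1 ≤ N) : Hn d N ≤ N := by
  have hN1 : (1 : ℝ) ≤ N := by exact_mod_cast hN
  have hd1 : (1 : ℝ) ≤ d := by exact_mod_cast (by omega : 1 ≤ d)
  apply Nat.floor_le_of_le
  calc (N : ℝ) ^ (1 / (d : ℝ)) ≤ (N : ℝ) ^ (1 : ℝ) :=
        Real.rpow_le_rpow_of_exponent_le hN1 ((div_le_one (by linarith)).2 hd1)
    _ = N := Real.rpow_one _

theorem p_sy : S_sy := by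
  classical
  rintro ⟨c, hc0, hc1, hw⟩
  refine ⟨c, hc0, hc1, ?_⟩
  intro ι _ _ _
  obtain ⟨M, hM, hwM⟩ := hw ι
  refine ⟨M, hM, ?_⟩
  intro B0 D d E F hB0 hD
  filter_upwards [(ns_sy_Hn F.hd).eventually (hwM B0 hB0), (ns_sy_Hn F.hd).eventually
    (ns_sy_size hM), eventually_ge_atTop 1] with N h1 hsize hN1
  intro n' hzB hlev
  set H := Hn d N with hH
  set z := z0 D n' with hz
  have hHN : H ≤ N := ns_sy_Hn_le F.hd hN1
  have hz2 : 2 ≤ z := by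
    rw [hz]
    unfold z0
    calc 2 = 2 ^ 1 := rfl
      _ ≤ _ := Nat.pow_le_pow_right (by norm_num) Nat.one_le_two_pow
  have hzr : (2 : ℝ) ≤ z := by exact_mod_cast hz2
  have hzlev : (z : ℝ) ≤ lev (2 * D) n' := by exact_mod_cast CM.F.z0_le_lev D n'
  have hlev1 : (1 : ℝ) ≤ lev (2 * D) n' := by linarith
  have hzM : (z : ℝ) ^ M ≤ (H : ℝ) ^ (1 / 10000 : ℝ) := by
    calc (z : ℝ) ^ M ≤ (lev (2 * D) n' : ℝ) ^ M :=
          pow_le_pow_left₀ (Nat.cast_nonneg _) hzlev _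
      _ ≤ (lev (2 * D) n' : ℝ) ^ (3 * M) := pow_le_pow_right₀ hlev1 (by omega)
      _ ≤ _ := hlev
  obtain ⟨y, hzy, hyM, hLy⟩ := hsize z hzM
  set P : Finset ℕ := (Ioc z (y ^ M)).filter Nat.Prime with hP
  have hPm : ∀ p, p ∈ P ↔ (z < p ∧ p ≤ y ^ M) ∧ p.Prime := by
    intro p
    rw [hP, mem_filter, mem_Ioc]
  have hYr : (((y ^ M : ℕ)) : ℝ) ≤ (H : ℝ) ^ (1 / 10000 : ℝ) := by
    push_cast
    exact hyM
  obtain ⟨lam, lami, A, τ, hWP, t1, t2, t3⟩ := h1 z y (hHN.trans hzB) hzy hyM hLy P ∅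
    (fun p hp => by
      have := (hPm p).1 hp
      exact ⟨this.2, this.1.1, this.1.2⟩)
    (fun p hp hzp hpy => Or.inl ((hPm p).2 ⟨⟨hzp, hpy⟩, hp⟩)) (by simp)
  refine ⟨P, y ^ M, lam, lami, A, τ, ⟨hzB, ?_, ?_⟩, hYr, hWP, t1, t2, t3⟩
  · exact (pow_le_pow_right₀ hlev1 (by omega)).trans hlev
  · intro p hp
    have := (hPm p).1 hp
    refine ⟨this.2, this.1.1, ?_⟩
    have h2 : (p : ℝ) ≤ ((y ^ M : ℕ) : ℝ) := by exact_mod_cast this.1.2
    exact h2.trans hYr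

end Pool.Agent.NC.F
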