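import Pool.Agent.Lib.MP_0da313_nt.NC.A

set_option autoImplicit false

/-!
Project NC, piece v1: the estimate for a pair of assignments.
-/

namespace Pool.Agent.NC.A

open Finset Filter Polynomial
open Pool.Agent.MP89da58 (bil pw nn supp part join compat kapD)
open Pool.Agent.MT (PJf dvI ZI)
open Pool.Agent.NC.Q (prr nu qr od)

private lemma ns_v1_shift (f : ℕ → ℝ) (q : ℕ) (hf : ∀ n, f (n + q) = f n) (m : ℕ) :
    ∑ n ∈ range q, f (m + n) = ∑ n ∈ range q, f n := by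
  induction m with
  | zero => simp
  | succ m ih =>
    rw [← ih]
    have h1 := Finset.sum_range_succ (fun n => f (m + n)) q
    have h2 := Finset.sum_range_succ' (fun n => f (m + n)) q
    have h3 : ∑ n ∈ range q, f (m + 1 + n) = ∑ n ∈ range q, f (m + (n + 1)) := by
      apply Finset.sum_congr rfl
      intro n _
      congr 1
      ring
    rw [h3]
    have h4 := hf m
    simp only [add_zero] at h2
    linarith

private lemma ns_v1_block (f : ℕ → ℝ) (q : ℕ) (hf : ∀ n, f (n + q) = f n) (m k : ℕ) :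
    ∑ n ∈ range (k * q), f (m + n) = k * ∑ n ∈ range q, f n := by
  induction k with
  | zero => simp
  | succ k ih =>
    rw [Nat.succ_mul, Finset.sum_range_add, ih]
    have h := ns_v1_shift f q hf (m + k * q)
    simp only [add_assoc] at h ⊢
    rw [h]
    push_cast
    ring

private lemma ns_v1_per (f : ℕ → ℝ) (q : ℕ) (hq : 0 < q) (hf : ∀ n, f (n + q) = f n)
    (h1 : ∀ n, |f n| ≤ 1) (N N' : ℕ) (hN : N ≤ N') (m : ℝ)
    (hm : |∑ n ∈ range q, f n| ≤ q * m) :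
    |∑ n ∈ Ioc N N', f n| ≤ ((N' : ℝ) - N) * m + q := by
  obtain ⟨L, rfl⟩ := Nat.exists_eq_add_of_le hN
  have hq0 : (0 : ℝ) < q := by exact_mod_cast hq
  have hm0 : 0 ≤ m := by
    by_contra hlt
    have h2 : (q : ℝ) * m < 0 := mul_neg_of_pos_of_neg hq0 (not_le.mp hlt)
    linarith [abs_nonneg (∑ n ∈ range q, f n)]
  have e2 : Ioc N (N + L) = Ico (N + 1) (N + L + 1) := by
    ext x
    simp only [mem_Ioc, mem_Ico]
    omega
  have e3 : ∑ n ∈ Ioc N (N + L), f n = ∑ n ∈ range L, f (N + 1 + n) := by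
    rw [e2, Finset.sum_Ico_eq_sum_range]
    have e4 : N + L + 1 - (N + 1) = L := by omega
    rw [e4]
  have e5 : L = L / q * q + L % q := (Nat.div_add_mod' L q).symm
  have e6 : ∑ n ∈ range L, f (N + 1 + n) = ((L / q : ℕ) : ℝ) * ∑ n ∈ range q, f n +
      ∑ n ∈ range (L % q), f (N + 1 + (L / q * q + n)) := by
    conv_lhs => rw [e5]
    rw [Finset.sum_range_add, ns_v1_block f q hf]
  have e7 : |∑ n ∈ range (L % q), f (N + 1 + (L / q * q + n))| ≤ q := by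
    refine (Finset.abs_sum_le_sum_abs _ _).trans ?_
    refine (Finset.sum_le_sum (fun n _ => h1 _)).trans ?_
    rw [Finset.sum_const, Finset.card_range, nsmul_eq_mul, mul_one]
    exact_mod_cast (Nat.mod_lt L hq).le
  have e8 : ((L / q : ℕ) : ℝ) * (q * m) ≤ (L : ℝ) * m := by
    have h3 : ((L / q : ℕ) : ℝ) * q ≤ L := by exact_mod_cast Nat.div_mul_le_self L q
    calc ((L / q : ℕ) : ℝ) * (q * m) = (((L / q : ℕ) : ℝ) * q) * m := by ring
      _ ≤ (L : ℝ) * m := mul_le_mul_of_nonneg_right h3 hm0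
  rw [e3, e6]
  have e9 : |((L / q : ℕ) : ℝ) * ∑ n ∈ range q, f n| ≤ ((L / q : ℕ) : ℝ) * (q * m) := by
    rw [abs_mul, abs_of_nonneg (Nat.cast_nonneg _)]
    exact mul_le_mul_of_nonneg_left hm (Nat.cast_nonneg _)
  have e10 : (((N + L : ℕ) : ℝ) - N) * m = (L : ℝ) * m := by
    push_cast
    ring
  rw [e10]
  refine (abs_add_le _ _).trans ?_
  linarith

private lemma ns_v1_diff {J : Type} [DecidableEq J] (S : Finset J) (e x M : J → ℝ) (δ : ℝ)
    (hδ : 0 ≤ δ) (he : ∀ j ∈ S, |e j| ≤ M j) (hx : ∀ j ∈ S, |x j| ≤ M j)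
    (hex : ∀ j ∈ S, |e j - x j| ≤ δ * M j) :
    |∏ j ∈ S, e j - ∏ j ∈ S, x j| ≤ δ * ∏ j ∈ S, (2 * M j) := by
  induction S using Finset.induction_on with
  | empty => simpa using hδ
  | insert a S ha ih =>
    rw [Finset.prod_insert ha, Finset.prod_insert ha, Finset.prod_insert ha]
    have ih' := ih (fun j hj => he j (Finset.mem_insert_of_mem hj))
      (fun j hj => hx j (Finset.mem_insert_of_mem hj))
      (fun j hj => hex j (Finset.mem_insert_of_mem hj))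
    have hea := he a (Finset.mem_insert_self _ _)
    have hexa := hex a (Finset.mem_insert_self _ _)
    have ha0 : 0 ≤ M a := (abs_nonneg _).trans hea
    have hM0 : ∀ j ∈ S, 0 ≤ M j := fun j hj =>
      (abs_nonneg _).trans (he j (Finset.mem_insert_of_mem hj))
    have hpx : |∏ j ∈ S, x j| ≤ ∏ j ∈ S, M j := by
      rw [Finset.abs_prod]
      exact Finset.prod_le_prod (fun j _ => abs_nonneg _)
        (fun j hj => hx j (Finset.mem_insert_of_mem hj))
    have hpM : ∏ j ∈ S, M j ≤ ∏ j ∈ S, (2 * M j) :=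
      Finset.prod_le_prod hM0 (fun j hj => by linarith [hM0 j hj])
    have h1 : e a * ∏ j ∈ S, e j - x a * ∏ j ∈ S, x j =
        e a * (∏ j ∈ S, e j - ∏ j ∈ S, x j) + (e a - x a) * ∏ j ∈ S, x j := by ring
    rw [h1]
    refine (abs_add_le _ _).trans ?_
    rw [abs_mul, abs_mul]
    have h2 : |e a| * |∏ j ∈ S, e j - ∏ j ∈ S, x j| ≤ M a * (δ * ∏ j ∈ S, (2 * M j)) :=
      mul_le_mul hea ih' (abs_nonneg _) ha0
    have h3 : |e a - x a| * |∏ j ∈ S, x j| ≤ (δ * M a) * ∏ j ∈ S, (2 * M j) :=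
      mul_le_mul hexa (hpx.trans hpM) (abs_nonneg _) (mul_nonneg hδ ha0)
    have h4 : δ * (2 * M a * ∏ j ∈ S, (2 * M j)) =
        M a * (δ * ∏ j ∈ S, (2 * M j)) + (δ * M a) * ∏ j ∈ S, (2 * M j) := by ring
    linarith

/-- Independence, for the index type `PJf P`. -/
private lemma ns_v1_cr (hcr : Q.R_cr) {P : Finset ℕ} (hP : ∀ p ∈ P, p.Prime)
    (T : Finset (PJf P)) (F : ℕ → PJf P → ℝ)
    (hF : ∀ (j : PJf P) (n n' : ℕ), n ≡ n' [MOD (j : ℕ)] → F n j = F n' j) :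
    ∑ n ∈ range (∏ j ∈ T, (j : ℕ)), ∏ j ∈ T, F n j =
      ∏ j ∈ T, ∑ n ∈ range (j : ℕ), F n j := by
  classical
  have h := hcr (T.map (Function.Embedding.subtype _)) (by
      intro p hp
      rw [Finset.mem_map] at hp
      obtain ⟨j, _, rfl⟩ := hp
      exact hP _ j.2) (fun p n => if h : p ∈ P then F n ⟨p, h⟩ else 1) (by
      intro p hp n n' hn
      rw [Finset.mem_map] at hp
      obtain ⟨j, _, rfl⟩ := hp
      have hj : (Function.Embedding.subtype (fun x => x ∈ P)) j ∈ P := j.2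
      simp only [hj, dite_true]
      exact hF _ n n' hn)
  rw [Finset.prod_map, Finset.prod_map] at h
  simp only [Finset.prod_map, Function.Embedding.subtype_apply] at h
  have hj : ∀ j : PJf P, (j : ℕ) ∈ P := fun j => j.2
  simp only [hj, dite_true, Subtype.coe_eta] at h
  exact h

/-- The data of one assignment. -/
private structure ns_v1_D {P : Finset ℕ} (K1 : ℕ) (S : Finset (PJf P)) (R : ℕ → PJf P → ℝ)
    (X : PJf P → ℝ) : Prop where
  per : ∀ (j : PJf P) (n n' : ℕ), n ≡ n' [MOD (j : ℕ)] → R n j = R n' j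
  off : ∀ j, j ∉ S → (∀ n, R n j = 1) ∧ X j = 1
  nn : ∀ n j, 0 ≤ R n j
  xn : ∀ j, 0 ≤ X j
  le : ∀ j, j ∈ S → ∀ n, R n j ≤ K1 / ((j : ℕ) : ℝ)
  xle : ∀ j, j ∈ S → X j ≤ 2 * K1 / ((j : ℕ) : ℝ)
  av : ∀ j, j ∈ S → |(∑ n ∈ range (j : ℕ), R n j) / ((j : ℕ) : ℝ) - X j| ≤
    K1 / ((j : ℕ) : ℝ) ^ 2

/-- The mean value. -/
private noncomputable def ns_v1_E {P : Finset ℕ} (R : ℕ → PJf P → ℝ) (j : PJf P) : ℝ :=
  (∑ n ∈ range (j : ℕ), R n j) / ((j : ℕ) : ℝ)

private lemma ns_v1_E_le {P : Finset ℕ} (R : ℕ → PJf P → ℝ) (j : PJf P) (c : ℝ)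
    (hj : 0 < (j : ℕ)) (h : ∀ n, R n j ≤ c) : ns_v1_E R j ≤ c := by
  have hj0 : (0 : ℝ) < ((j : ℕ) : ℝ) := by exact_mod_cast hj
  unfold ns_v1_E
  rw [div_le_iff₀ hj0]
  refine (Finset.sum_le_sum (fun n _ => h n)).trans ?_
  rw [Finset.sum_const, Finset.card_range, nsmul_eq_mul]
  exact le_of_eq (mul_comm _ _)

private lemma ns_v1_E_nn {P : Finset ℕ} (R : ℕ → PJf P → ℝ) (j : PJf P)
    (h : ∀ n, 0 ≤ R n j) : 0 ≤ ns_v1_E R j :=
  div_nonneg (Finset.sum_nonneg (fun n _ => h n)) (Nat.cast_nonneg _)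

private lemma ns_v1_E_one {P : Finset ℕ} (R : ℕ → PJf P → ℝ) (j : PJf P) (hj : 0 < (j : ℕ))
    (h : ∀ n, R n j = 1) : ns_v1_E R j = 1 := by
  have hj0 : ((j : ℕ) : ℝ) ≠ 0 := by exact_mod_cast hj.ne'
  unfold ns_v1_E
  simp only [h, Finset.sum_const, Finset.card_range, nsmul_eq_mul, mul_one]
  exact div_self hj0

private lemma ns_v1_mean (hcr : Q.R_cr) {P : Finset ℕ} (hP : ∀ p ∈ P, p.Prime)
    (T : Finset (PJf P)) (F : ℕ → PJf P → ℝ)
    (hF : ∀ (j : PJf P) (n n' : ℕ), n ≡ n' [MOD (j : ℕ)] → F n j = F n' j) :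
    ∑ n ∈ range (∏ j ∈ T, (j : ℕ)), ∏ j ∈ T, F n j =
      ((∏ j ∈ T, (j : ℕ) : ℕ) : ℝ) * ∏ j ∈ T, ns_v1_E F j := by
  rw [ns_v1_cr hcr hP T F hF]
  push_cast
  rw [← Finset.prod_mul_distrib]
  apply Finset.prod_congr rfl
  intro j _
  have hj0 : ((j : ℕ) : ℝ) ≠ 0 := by exact_mod_cast (hP _ j.2).ne_zero
  unfold ns_v1_E
  field_simp

/-- The mean value of the product is small. -/
private lemma ns_v1_core {P : Finset ℕ} {K1 z : ℕ} (hK : 1 ≤ K1) (hz : 16 * K1 ^ 2 ≤ z)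
    (hP : ∀ p ∈ P, p.Prime ∧ z < p) (S S' : Finset (PJf P)) (R R' : ℕ → PJf P → ℝ)
    (X X' : PJf P → ℝ) (hD : ns_v1_D K1 S R X) (hD' : ns_v1_D K1 S' R' X') :
    |∏ j ∈ S ∪ S', ns_v1_E (fun n j => R n j * R' n j) j -
        ∏ j ∈ S ∪ S', (ns_v1_E R j * X' j) - ∏ j ∈ S ∪ S', (X j * ns_v1_E R' j) +
        ∏ j ∈ S ∪ S', (X j * X' j)| ≤
      1 / z * ∏ j ∈ S ∪ S', (16 * (K1 : ℝ) ^ 2 / ((j : ℕ) : ℝ)) := by
  classical
  have hK0 : (1 : ℝ) ≤ K1 := by exact_mod_cast hK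
  have hz16 : 16 ≤ z := by nlinarith
  have hzr : (16 : ℝ) ≤ z := by exact_mod_cast hz16
  have hz0 : (0 : ℝ) < z := by linarith
  have hjz : ∀ j : PJf P, (z : ℝ) ≤ ((j : ℕ) : ℝ) := fun j => by
    exact_mod_cast (hP _ j.2).2.le
  have hj0 : ∀ j : PJf P, (0 : ℝ) < ((j : ℕ) : ℝ) := fun j => lt_of_lt_of_le hz0 (hjz j)
  have hjn : ∀ j : PJf P, 0 < (j : ℕ) := fun j => (hP _ j.2).1.pos
  have hinv : ∀ j : PJf P, 1 / ((j : ℕ) : ℝ) ≤ 1 / z := fun j =>
    one_div_le_one_div_of_le hz0 (hjz j)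
  have hz1 : 1 / (z : ℝ) ≤ 1 := by
    rw [div_le_one hz0]
    linarith
  -- `K1 / j ≤ 1`
  have hKj : ∀ j : PJf P, K1 / ((j : ℕ) : ℝ) ≤ 1 := fun j => by
    rw [div_le_one (hj0 j)]
    have h1 : (16 : ℝ) * K1 ^ 2 ≤ z := by exact_mod_cast hz
    nlinarith [hjz j]
  set M : PJf P → ℝ := fun j => 2 * K1 / ((j : ℕ) : ℝ) with hM
  have hM0 : ∀ j, 0 ≤ M j := fun j => div_nonneg (by linarith) (hj0 j).le
  have hKM : ∀ j : PJf P, K1 / ((j : ℕ) : ℝ) ≤ M j := fun j => by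
    simp only [hM]
    rw [div_le_div_iff_of_pos_right (hj0 j)]
    linarith
  -- bounds on the means
  have bE : ∀ (U : Finset (PJf P)) (Q : ℕ → PJf P → ℝ) (Y : PJf P → ℝ), ns_v1_D K1 U Q Y →
      (∀ j, 0 ≤ ns_v1_E Q j) ∧ (∀ j, j ∈ U → ns_v1_E Q j ≤ M j) ∧
      (∀ j, j ∉ U → ns_v1_E Q j = 1) ∧
      (∀ j, j ∈ U → |ns_v1_E Q j - Y j| ≤ 1 / z * M j) := by
    intro U Q Y h
    refine ⟨fun j => ns_v1_E_nn Q j (fun n => h.nn n j), fun j hj => ?_, fun j hj => ?_,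
      fun j hj => ?_⟩
    · exact ns_v1_E_le Q j _ (hjn j) (fun n => (h.le j hj n).trans (hKM j))
    · exact ns_v1_E_one Q j (hjn j) (h.off j hj).1
    · refine (h.av j hj).trans ?_
      have h1 : (K1 : ℝ) / ((j : ℕ) : ℝ) ^ 2 = 1 / ((j : ℕ) : ℝ) * (K1 / ((j : ℕ) : ℝ)) := by
        have := (hj0 j).ne'
        field_simp
      rw [h1]
      exact mul_le_mul (hinv j) (hKM j) (div_nonneg (by linarith) (hj0 j).le) (by positivity)
  obtain ⟨e1, e2, e3, e4⟩ := bE S R X hD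
  obtain ⟨e1', e2', e3', e4'⟩ := bE S' R' X' hD'
  have x2 : ∀ j, j ∈ S → X j ≤ M j := fun j hj => hD.xle j hj
  have x2' : ∀ j, j ∈ S' → X' j ≤ M j := fun j hj => hD'.xle j hj
  -- the comparison of the bounds
  have hfin : ∀ j : PJf P, 2 * M j ≤ 16 * (K1 : ℝ) ^ 2 / ((j : ℕ) : ℝ) := fun j => by
    simp only [hM]
    rw [← mul_div_assoc, div_le_div_iff_of_pos_right (hj0 j)]
    nlinarith
  rcases (S ∩ S').eq_empty_or_nonempty with hdis | ⟨j0, hj0m⟩
  · -- disjoint supports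
    have hdj : Disjoint S S' := Finset.disjoint_iff_inter_eq_empty.mpr hdis
    have hn1 : ∀ j, j ∈ S → j ∉ S' := fun j hj => Finset.disjoint_left.mp hdj hj
    have hn2 : ∀ j, j ∈ S' → j ∉ S := fun j hj => Finset.disjoint_right.mp hdj hj
    have p1 : ∏ j ∈ S ∪ S', ns_v1_E (fun n j => R n j * R' n j) j =
        (∏ j ∈ S, ns_v1_E R j) * ∏ j ∈ S', ns_v1_E R' j := by
      rw [Finset.prod_union hdj]
      congr 1
      · apply Finset.prod_congr rfl
        intro j hj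
        unfold ns_v1_E
        simp only [(hD'.off j (hn1 j hj)).1, mul_one]
      · apply Finset.prod_congr rfl
        intro j hj
        unfold ns_v1_E
        simp only [(hD.off j (hn2 j hj)).1, one_mul]
    have p2 : ∏ j ∈ S ∪ S', (ns_v1_E R j * X' j) =
        (∏ j ∈ S, ns_v1_E R j) * ∏ j ∈ S', X' j := by
      rw [Finset.prod_union hdj]
      congr 1
      · apply Finset.prod_congr rfl
        intro j hj
        rw [(hD'.off j (hn1 j hj)).2, mul_one]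
      · apply Finset.prod_congr rfl
        intro j hj
        rw [e3 j (hn2 j hj), one_mul]
    have p3 : ∏ j ∈ S ∪ S', (X j * ns_v1_E R' j) =
        (∏ j ∈ S, X j) * ∏ j ∈ S', ns_v1_E R' j := by
      rw [Finset.prod_union hdj]
      congr 1
      · apply Finset.prod_congr rfl
        intro j hj
        rw [e3' j (hn1 j hj), mul_one]
      · apply Finset.prod_congr rfl
        intro j hj
        rw [(hD.off j (hn2 j hj)).2, one_mul]
    have p4 : ∏ j ∈ S ∪ S', (X j * X' j) = (∏ j ∈ S, X j) * ∏ j ∈ S', X' j := by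
      rw [Finset.prod_union hdj]
      congr 1
      · apply Finset.prod_congr rfl
        intro j hj
        rw [(hD'.off j (hn1 j hj)).2, mul_one]
      · apply Finset.prod_congr rfl
        intro j hj
        rw [(hD.off j (hn2 j hj)).2, one_mul]
    rw [p1, p2, p3, p4]
    have h5 : (∏ j ∈ S, ns_v1_E R j) * ∏ j ∈ S', ns_v1_E R' j -
        (∏ j ∈ S, ns_v1_E R j) * ∏ j ∈ S', X' j -
        (∏ j ∈ S, X j) * ∏ j ∈ S', ns_v1_E R' j + (∏ j ∈ S, X j) * ∏ j ∈ S', X' j =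
        (∏ j ∈ S, ns_v1_E R j - ∏ j ∈ S, X j) *
          (∏ j ∈ S', ns_v1_E R' j - ∏ j ∈ S', X' j) := by ring
    rw [h5, abs_mul]
    have d1 := ns_v1_diff S (ns_v1_E R) X M (1 / z) (by positivity)
      (fun j hj => by rw [abs_of_nonneg (e1 j)]; exact e2 j hj)
      (fun j hj => by rw [abs_of_nonneg (hD.xn j)]; exact x2 j hj) e4
    have d2 := ns_v1_diff S' (ns_v1_E R') X' M 1 zero_le_one
      (fun j hj => by rw [abs_of_nonneg (e1' j)]; exact e2' j hj)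
      (fun j hj => by rw [abs_of_nonneg (hD'.xn j)]; exact x2' j hj)
      (fun j hj => (e4' j hj).trans (mul_le_mul_of_nonneg_right hz1 (hM0 j)))
    rw [one_mul] at d2
    have h6 : ∏ j ∈ S ∪ S', (2 * M j) = (∏ j ∈ S, (2 * M j)) * ∏ j ∈ S', (2 * M j) :=
      Finset.prod_union hdj
    have h7 : ∏ j ∈ S ∪ S', (2 * M j) ≤
        ∏ j ∈ S ∪ S', (16 * (K1 : ℝ) ^ 2 / ((j : ℕ) : ℝ)) :=
      Finset.prod_le_prod (fun j _ => by linarith [hM0 j]) (fun j _ => hfin j)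
    have h8 : 0 ≤ ∏ j ∈ S, (2 * M j) := Finset.prod_nonneg (fun j _ => by linarith [hM0 j])
    calc |∏ j ∈ S, ns_v1_E R j - ∏ j ∈ S, X j| *
          |∏ j ∈ S', ns_v1_E R' j - ∏ j ∈ S', X' j|
        ≤ (1 / z * ∏ j ∈ S, (2 * M j)) * ∏ j ∈ S', (2 * M j) :=
          mul_le_mul d1 d2 (abs_nonneg _) (mul_nonneg (by positivity) h8)
      _ = 1 / z * ∏ j ∈ S ∪ S', (2 * M j) := by rw [h6]; ring
      _ ≤ _ := mul_le_mul_of_nonneg_left h7 (by positivity)
  · -- a common element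
    have hj0S : j0 ∈ S := (Finset.mem_inter.mp hj0m).1
    have hj0S' : j0 ∈ S' := (Finset.mem_inter.mp hj0m).2
    -- the common bound
    set c : PJf P → ℝ := fun j => if j ∈ S ∩ S' then M j * M j else M j with hc
    have hc0 : ∀ j, 0 ≤ c j := fun j => by
      simp only [hc]
      split_ifs
      · exact mul_nonneg (hM0 j) (hM0 j)
      · exact hM0 j
    have key : ∀ (A A' : PJf P → ℝ), (∀ j, 0 ≤ A j) → (∀ j, 0 ≤ A' j) →
        (∀ j, j ∈ S → A j ≤ M j) → (∀ j, j ∉ S → A j = 1) →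
        (∀ j, j ∈ S' → A' j ≤ M j) → (∀ j, j ∉ S' → A' j = 1) →
        ∀ j ∈ S ∪ S', 0 ≤ A j * A' j ∧ A j * A' j ≤ c j := by
      intro A A' hA0 hA0' hA hA1 hA' hA1' j hj
      refine ⟨mul_nonneg (hA0 j) (hA0' j), ?_⟩
      simp only [hc]
      by_cases hS : j ∈ S
      · by_cases hS' : j ∈ S'
        · rw [if_pos (Finset.mem_inter.mpr ⟨hS, hS'⟩)]
          exact mul_le_mul (hA j hS) (hA' j hS') (hA0' j) (hM0 j)
        · rw [if_neg (fun h => hS' (Finset.mem_inter.mp h).2), hA1' j hS', mul_one]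
          exact hA j hS
      · have hS' : j ∈ S' := (Finset.mem_union.mp hj).resolve_left hS
        rw [if_neg (fun h => hS (Finset.mem_inter.mp h).1), hA1 j hS, one_mul]
        exact hA' j hS'
    have k2 := key (ns_v1_E R) X' e1 hD'.xn e2 e3 x2' (fun j hj => (hD'.off j hj).2)
    have k3 := key X (ns_v1_E R') hD.xn e1' x2 (fun j hj => (hD.off j hj).2) e2' e3'
    have k4 := key X X' hD.xn hD'.xn x2 (fun j hj => (hD.off j hj).2) x2'
      (fun j hj => (hD'.off j hj).2)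
    have k1 : ∀ j ∈ S ∪ S', 0 ≤ ns_v1_E (fun n j => R n j * R' n j) j ∧
        ns_v1_E (fun n j => R n j * R' n j) j ≤ c j := by
      intro j hj
      refine ⟨ns_v1_E_nn _ j (fun n => mul_nonneg (hD.nn n j) (hD'.nn n j)), ?_⟩
      refine ns_v1_E_le _ j _ (hjn j) (fun n => ?_)
      simp only [hc]
      by_cases hS : j ∈ S
      · by_cases hS' : j ∈ S'
        · rw [if_pos (Finset.mem_inter.mpr ⟨hS, hS'⟩)]
          exact mul_le_mul ((hD.le j hS n).trans (hKM j)) ((hD'.le j hS' n).trans (hKM j))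
            (hD'.nn n j) (hM0 j)
        · rw [if_neg (fun h => hS' (Finset.mem_inter.mp h).2), (hD'.off j hS').1 n, mul_one]
          exact (hD.le j hS n).trans (hKM j)
      · have hS' : j ∈ S' := (Finset.mem_union.mp hj).resolve_left hS
        rw [if_neg (fun h => hS (Finset.mem_inter.mp h).1), (hD.off j hS).1 n, one_mul]
        exact (hD'.le j hS' n).trans (hKM j)
    have pb : ∀ A : PJf P → ℝ, (∀ j ∈ S ∪ S', 0 ≤ A j ∧ A j ≤ c j) →
        |∏ j ∈ S ∪ S', A j| ≤ ∏ j ∈ S ∪ S', c j := by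
      intro A hA
      rw [abs_of_nonneg (Finset.prod_nonneg (fun j hj => (hA j hj).1))]
      exact Finset.prod_le_prod (fun j hj => (hA j hj).1) (fun j hj => (hA j hj).2)
    have q1 := pb _ k1
    have q2 := pb _ k2
    have q3 := pb _ k3
    have q4 := pb _ k4
    have hjU : j0 ∈ S ∪ S' := Finset.mem_union_left _ hj0S
    -- `c j ≤ 4 K1^2 / j`
    have hcle : ∀ j, c j ≤ 4 * (K1 : ℝ) ^ 2 / ((j : ℕ) : ℝ) := by
      intro j
      simp only [hc]
      split_ifs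
      · have h1 : M j * M j = 4 * (K1 : ℝ) ^ 2 / ((j : ℕ) : ℝ) * (1 / ((j : ℕ) : ℝ)) := by
          simp only [hM]
          have := (hj0 j).ne'
          field_simp
          ring
        rw [h1]
        have h2 : 0 ≤ 4 * (K1 : ℝ) ^ 2 / ((j : ℕ) : ℝ) := div_nonneg (by positivity) (hj0 j).le
        nlinarith [(hinv j).trans hz1]
      · simp only [hM]
        rw [div_le_div_iff_of_pos_right (hj0 j)]
        nlinarith
    have hc00 : c j0 ≤ 1 / z * (4 * (K1 : ℝ) ^ 2 / ((j0 : ℕ) : ℝ)) := by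
      simp only [hc]
      rw [if_pos hj0m]
      have h1 : M j0 * M j0 = 1 / ((j0 : ℕ) : ℝ) * (4 * (K1 : ℝ) ^ 2 / ((j0 : ℕ) : ℝ)) := by
        simp only [hM]
        have := (hj0 j0).ne'
        field_simp
        ring
      rw [h1]
      exact mul_le_mul_of_nonneg_right (hinv j0)
        (div_nonneg (by positivity) (hj0 j0).le)
    have hprod : ∏ j ∈ S ∪ S', c j ≤
        1 / z * ∏ j ∈ S ∪ S', (4 * (K1 : ℝ) ^ 2 / ((j : ℕ) : ℝ)) := by
      rw [← Finset.mul_prod_erase _ _ hjU, ← Finset.mul_prod_erase (S ∪ S')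
        (fun j : PJf P => 4 * (K1 : ℝ) ^ 2 / ((j : ℕ) : ℝ)) hjU, ← mul_assoc]
      exact mul_le_mul hc00 (Finset.prod_le_prod (fun j _ => hc0 j) (fun j _ => hcle j))
        (Finset.prod_nonneg (fun j _ => hc0 j))
        (mul_nonneg (by positivity) (div_nonneg (by positivity) (hj0 j0).le))
    have h16 : ∏ j ∈ S ∪ S', (16 * (K1 : ℝ) ^ 2 / ((j : ℕ) : ℝ)) =
        4 ^ (S ∪ S').card * ∏ j ∈ S ∪ S', (4 * (K1 : ℝ) ^ 2 / ((j : ℕ) : ℝ)) := by
      rw [← Finset.prod_const, ← Finset.prod_mul_distrib]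
      apply Finset.prod_congr rfl
      intro j _
      ring
    have hcard : 1 ≤ (S ∪ S').card := Finset.card_pos.mpr ⟨j0, hjU⟩
    have h4 : (4 : ℝ) ≤ 4 ^ (S ∪ S').card := by
      calc (4 : ℝ) = 4 ^ 1 := (pow_one _).symm
        _ ≤ 4 ^ (S ∪ S').card := pow_le_pow_right₀ (by norm_num) hcard
    have hnn : 0 ≤ ∏ j ∈ S ∪ S', (4 * (K1 : ℝ) ^ 2 / ((j : ℕ) : ℝ)) :=
      Finset.prod_nonneg (fun j _ => div_nonneg (by positivity) (hj0 j).le)
    have hsum : |∏ j ∈ S ∪ S', ns_v1_E (fun n j => R n j * R' n j) j -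
        ∏ j ∈ S ∪ S', (ns_v1_E R j * X' j) - ∏ j ∈ S ∪ S', (X j * ns_v1_E R' j) +
        ∏ j ∈ S ∪ S', (X j * X' j)| ≤ 4 * ∏ j ∈ S ∪ S', c j := by
      have a1 := abs_le.mp q1
      have a2 := abs_le.mp q2
      have a3 := abs_le.mp q3
      have a4 := abs_le.mp q4
      rw [abs_le]
      constructor <;> linarith [a1.1, a1.2, a2.1, a2.2, a3.1, a3.2, a4.1, a4.2]
    refine hsum.trans ?_
    rw [h16]
    have h9 : 4 * ∏ j ∈ S ∪ S', c j ≤
        4 * (1 / z * ∏ j ∈ S ∪ S', (4 * (K1 : ℝ) ^ 2 / ((j : ℕ) : ℝ))) :=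
      mul_le_mul_of_nonneg_left hprod (by norm_num)
    refine h9.trans ?_
    have h10 : 0 ≤ 1 / (z : ℝ) * ∏ j ∈ S ∪ S', (4 * (K1 : ℝ) ^ 2 / ((j : ℕ) : ℝ)) :=
      mul_nonneg (by positivity) hnn
    calc 4 * (1 / (z : ℝ) * ∏ j ∈ S ∪ S', (4 * (K1 : ℝ) ^ 2 / ((j : ℕ) : ℝ)))
        ≤ 4 ^ (S ∪ S').card *
          (1 / (z : ℝ) * ∏ j ∈ S ∪ S', (4 * (K1 : ℝ) ^ 2 / ((j : ℕ) : ℝ))) :=
          mul_le_mul_of_nonneg_right h4 h10
      _ = _ := by ring

/-- The data of an assignment. -/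
private lemma ns_v1_mk {ι : Type} {P : Finset ℕ} {K1 z : ℕ} {r : ℕ → PJf P → ι → ℝ}
    (hK : 1 ≤ K1) (hz : 16 * K1 ^ 2 ≤ z) (h : Ld P K1 z r) [Fintype ι] [DecidableEq ι]
    (γ : PJf P → Option ι) :
    ns_v1_D K1 (supp γ) (fun n j => (γ j).elim 1 (r n j))
      (fun j => (γ j).elim 1 (fun _ => 1 / (((j : ℕ) : ℝ) - 1))) := by
  have hK0 : (1 : ℝ) ≤ K1 := by exact_mod_cast hK
  have hz16 : 16 ≤ z := by nlinarith
  have hj16 : ∀ j : PJf P, (16 : ℝ) < ((j : ℕ) : ℝ) := fun j => by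
    exact_mod_cast lt_of_le_of_lt hz16 (h.hp _ j.2).2
  have hmem : ∀ j, j ∈ supp γ ↔ γ j ≠ none := by
    intro j
    simp [supp]
  refine ⟨?_, ?_, ?_, ?_, ?_, ?_, ?_⟩
  · intro j n n' hn
    rcases hγ : γ j with _ | l
    · simp [hγ]
    · simp only [hγ, Option.elim_some]
      exact h.per j l n n' hn
  · intro j hj
    have hγ : γ j = none := by
      by_contra hne
      exact hj ((hmem j).mpr hne)
    simp [hγ]
  · intro n j
    rcases hγ : γ j with _ | l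
    · simp [hγ]
    · simp only [hγ, Option.elim_some]
      exact h.nn n j l
  · intro j
    rcases hγ : γ j with _ | l
    · simp [hγ]
    · simp only [hγ, Option.elim_some]
      exact div_nonneg zero_le_one (by linarith [hj16 j])
  · intro j hj n
    obtain ⟨l, hl⟩ := Option.ne_none_iff_exists'.mp ((hmem j).mp hj)
    simp only [hl, Option.elim_some]
    exact h.le n j l
  · intro j hj
    obtain ⟨l, hl⟩ := Option.ne_none_iff_exists'.mp ((hmem j).mp hj)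
    simp only [hl, Option.elim_some]
    have h16 := hj16 j
    rw [div_le_div_iff₀ (by linarith) (by linarith)]
    nlinarith
  · intro j hj
    obtain ⟨l, hl⟩ := Option.ne_none_iff_exists'.mp ((hmem j).mp hj)
    simp only [hl, Option.elim_some]
    exact h.av j l

/-- The piece. -/
theorem p_v1 : S_v1 := by
  intro hcr ι _ _ P K1 z r hK hz h γ γ' N N' hN
  classical
  have hK0 : (1 : ℝ) ≤ K1 := by exact_mod_cast hK
  have hz16 : 16 ≤ z := by nlinarith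
  have hzr : (16 : ℝ) ≤ z := by exact_mod_cast hz16
  have hz0 : (0 : ℝ) < z := by linarith
  have hjz : ∀ j : PJf P, (z : ℝ) ≤ ((j : ℕ) : ℝ) := fun j => by
    exact_mod_cast (h.hp _ j.2).2.le
  have hj0 : ∀ j : PJf P, (0 : ℝ) < ((j : ℕ) : ℝ) := fun j => lt_of_lt_of_le hz0 (hjz j)
  have hKj : ∀ j : PJf P, K1 / ((j : ℕ) : ℝ) ≤ 1 := fun j => by
    rw [div_le_one (hj0 j)]
    have h1 : (16 : ℝ) * K1 ^ 2 ≤ z := by exact_mod_cast hz
    nlinarith [hjz j]
  have hPp : ∀ p ∈ P, p.Prime := fun p hp => (h.hp p hp).1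
  have hD := ns_v1_mk hK hz h γ
  have hD' := ns_v1_mk hK hz h γ'
  set S := supp γ with hS
  set S' := supp γ' with hS'
  set R : ℕ → PJf P → ℝ := fun n j => (γ j).elim 1 (r n j) with hR
  set R' : ℕ → PJf P → ℝ := fun n j => (γ' j).elim 1 (r n j) with hR'
  set X : PJf P → ℝ := fun j => (γ j).elim 1 (fun _ => 1 / (((j : ℕ) : ℝ) - 1)) with hX
  set X' : PJf P → ℝ := fun j => (γ' j).elim 1 (fun _ => 1 / (((j : ℕ) : ℝ) - 1)) with hX'
  set T := S ∪ S' with hT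
  -- products over the support
  have hprod : ∀ (U : Finset (PJf P)) (A : PJf P → ℝ), (∀ j, j ∉ U → A j = 1) → U ⊆ T →
      ∏ j ∈ U, A j = ∏ j ∈ T, A j := by
    intro U A hA hU
    exact Finset.prod_subset hU (fun j _ hj => hA j hj)
  have hST : S ⊆ T := Finset.subset_union_left
  have hST' : S' ⊆ T := Finset.subset_union_right
  have hmem : ∀ (δ : PJf P → Option ι) (j : PJf P), j ∈ supp δ ↔ δ j ≠ none := by
    intro δ j
    simp [supp]
  have t1 : ∀ n, prr (r n) γ = ∏ j ∈ T, R n j := by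
    intro n
    unfold prr
    exact (Finset.prod_subset (Finset.subset_univ T)
      (fun j _ hj => (hD.off j (fun hjS => hj (hST hjS))).1 n)).symm
  have t1' : ∀ n, prr (r n) γ' = ∏ j ∈ T, R' n j := by
    intro n
    unfold prr
    exact (Finset.prod_subset (Finset.subset_univ T)
      (fun j _ hj => (hD'.off j (fun hjS => hj (hST' hjS))).1 n)).symm
  have t2 : pw (fun j : PJf P => 1 / (((j : ℕ) : ℝ) - 1)) S = ∏ j ∈ T, X j := by
    rw [← hprod S X (fun j hj => (hD.off j hj).2) hST]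
    unfold pw
    apply Finset.prod_congr rfl
    intro j hj
    obtain ⟨l, hl⟩ := Option.ne_none_iff_exists'.mp ((hmem γ j).mp hj)
    simp only [hX, hl, Option.elim_some]
  have t2' : pw (fun j : PJf P => 1 / (((j : ℕ) : ℝ) - 1)) S' = ∏ j ∈ T, X' j := by
    rw [← hprod S' X' (fun j hj => (hD'.off j hj).2) hST']
    unfold pw
    apply Finset.prod_congr rfl
    intro j hj
    obtain ⟨l, hl⟩ := Option.ne_none_iff_exists'.mp ((hmem γ' j).mp hj)
    simp only [hX', hl, Option.elim_some]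
  -- the function
  set f : ℕ → ℝ := fun n => (∏ j ∈ T, R n j - ∏ j ∈ T, X j) *
    (∏ j ∈ T, R' n j - ∏ j ∈ T, X' j) with hf
  set q : ℕ := ∏ j ∈ T, (j : ℕ) with hq
  have hq0 : 0 < q := Finset.prod_pos (fun j _ => (hPp _ j.2).pos)
  have hsum : ∑ n ∈ Ioc N N', (prr (r n) γ - pw (fun j : PJf P => 1 / (((j : ℕ) : ℝ) - 1)) S) *
      (prr (r n) γ' - pw (fun j : PJf P => 1 / (((j : ℕ) : ℝ) - 1)) S') =
      ∑ n ∈ Ioc N N', f n := by
    apply Finset.sum_congr rfl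
    intro n _
    rw [t1, t1', t2, t2']
  rw [hsum]
  -- periodicity
  have hper : ∀ n, f (n + q) = f n := by
    intro n
    have hmod : ∀ j ∈ T, n + q ≡ n [MOD (j : ℕ)] := by
      intro j hj
      have hdvd : (j : ℕ) ∣ q := Finset.dvd_prod_of_mem _ hj
      have h1 : n + q ≡ n + 0 [MOD (j : ℕ)] :=
        Nat.ModEq.add_left n ((Nat.modEq_zero_iff_dvd).mpr hdvd)
      simpa using h1
    have h2 : ∏ j ∈ T, R (n + q) j = ∏ j ∈ T, R n j :=
      Finset.prod_congr rfl (fun j hj => hD.per j _ _ (hmod j hj))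
    have h3 : ∏ j ∈ T, R' (n + q) j = ∏ j ∈ T, R' n j :=
      Finset.prod_congr rfl (fun j hj => hD'.per j _ _ (hmod j hj))
    simp only [hf]
    rw [h2, h3]
  -- the bound by `1`
  have hR1 : ∀ (U : Finset (PJf P)) (Q : ℕ → PJf P → ℝ) (Y : PJf P → ℝ), ns_v1_D K1 U Q Y →
      (∀ n j, Q n j ≤ 1) := by
    intro U Q Y hh n j
    by_cases hj : j ∈ U
    · exact (hh.le j hj n).trans (hKj j)
    · exact le_of_eq ((hh.off j hj).1 n)
  have hX1 : ∀ (U : Finset (PJf P)) (Q : ℕ → PJf P → ℝ) (Y : PJf P → ℝ), ns_v1_D K1 U Q Y →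
      (∀ j, Y j ≤ 1) := by
    intro U Q Y hh j
    by_cases hj : j ∈ U
    · refine (hh.xle j hj).trans ?_
      rw [div_le_one (hj0 j)]
      have h1 : (16 : ℝ) * K1 ^ 2 ≤ z := by exact_mod_cast hz
      nlinarith [hjz j]
    · exact le_of_eq ((hh.off j hj).2)
  have hp01 : ∀ A : PJf P → ℝ, (∀ j, 0 ≤ A j) → (∀ j, A j ≤ 1) →
      0 ≤ ∏ j ∈ T, A j ∧ ∏ j ∈ T, A j ≤ 1 := by
    intro A h0 h1
    exact ⟨Finset.prod_nonneg (fun j _ => h0 j),
      Finset.prod_le_one (fun j _ => h0 j) (fun j _ => h1 j)⟩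
  have hf1 : ∀ n, |f n| ≤ 1 := by
    intro n
    have a1 := hp01 (R n) (fun j => hD.nn n j) (fun j => hR1 S R X hD n j)
    have a2 := hp01 (R' n) (fun j => hD'.nn n j) (fun j => hR1 S' R' X' hD' n j)
    have a3 := hp01 X hD.xn (hX1 S R X hD)
    have a4 := hp01 X' hD'.xn (hX1 S' R' X' hD')
    simp only [hf]
    rw [abs_mul]
    have b1 : |∏ j ∈ T, R n j - ∏ j ∈ T, X j| ≤ 1 := by
      rw [abs_le]
      constructor <;> linarith [a1.1, a1.2, a3.1, a3.2]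
    have b2 : |∏ j ∈ T, R' n j - ∏ j ∈ T, X' j| ≤ 1 := by
      rw [abs_le]
      constructor <;> linarith [a2.1, a2.2, a4.1, a4.2]
    exact mul_le_one₀ b1 (abs_nonneg _) b2
  -- the mean value
  have hmean : ∑ n ∈ range q, f n = (q : ℝ) *
      (∏ j ∈ T, ns_v1_E (fun n j => R n j * R' n j) j -
        ∏ j ∈ T, (ns_v1_E R j * X' j) - ∏ j ∈ T, (X j * ns_v1_E R' j) +
        ∏ j ∈ T, (X j * X' j)) := by
    have m1 := ns_v1_mean hcr hPp T (fun n j => R n j * R' n j)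
      (fun j n n' hn => by
        show R n j * R' n j = R n' j * R' n' j
        rw [hD.per j n n' hn, hD'.per j n n' hn])
    have m2 := ns_v1_mean hcr hPp T R hD.per
    have m3 := ns_v1_mean hcr hPp T R' hD'.per
    have e1 : ∀ n, f n = ∏ j ∈ T, (R n j * R' n j) - (∏ j ∈ T, R n j) * ∏ j ∈ T, X' j -
        (∏ j ∈ T, X j) * ∏ j ∈ T, R' n j + (∏ j ∈ T, X j) * ∏ j ∈ T, X' j := by
      intro n
      simp only [hf]
      rw [Finset.prod_mul_distrib]
      ring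
    simp only [e1]
    rw [Finset.sum_add_distrib, Finset.sum_sub_distrib, Finset.sum_sub_distrib,
      ← Finset.sum_mul, ← Finset.mul_sum, Finset.sum_const, Finset.card_range, nsmul_eq_mul,
      m1, m2, m3, Finset.prod_mul_distrib, Finset.prod_mul_distrib, Finset.prod_mul_distrib]
    ring
  have hcore := ns_v1_core hK hz h.hp S S' R R' X X' hD hD'
  have hfin := ns_v1_per f q hq0 hper hf1 N N' hN
    (1 / z * ∏ j ∈ T, (16 * (K1 : ℝ) ^ 2 / ((j : ℕ) : ℝ))) (by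
      rw [hmean, abs_mul, abs_of_nonneg (Nat.cast_nonneg q)]
      exact mul_le_mul_of_nonneg_left hcore (Nat.cast_nonneg q))
  refine hfin.trans ?_
  have hqc : (q : ℝ) = ∏ j ∈ T, ((j : ℕ) : ℝ) := by
    rw [hq]
    push_cast
    rfl
  have hq1 : (0 : ℝ) ≤ q := Nat.cast_nonneg q
  rw [← hqc]
  linarith

end Pool.Agent.NC.A
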