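import Pool.Agent.Lib.MP_0da313_nt.NC.A

set_option autoImplicit false

/-!
Project NC, piece v2: the variance of the quadratic form.
-/

namespace Pool.Agent.NC.A

open Finset Filter Polynomial
open Pool.Agent.MP89da58 (bil pw nn supp part join compat kapD)
open Pool.Agent.MT (PJf dvI ZI)
open Pool.Agent.TC.W (qf)
open Pool.Agent.NC.Q (prr nu qr od)

private theorem ns_v2_sum {J : Type} [Fintype J] [DecidableEq J] (f g : J → ℝ) :
    ∑ S : Finset J, (∏ j ∈ S, f j) * ∏ j ∈ univ \ S, g j = ∏ j, (f j + g j) := by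
  rw [Finset.prod_add, Finset.powerset_univ]

/-- the sum over the pairs of subsets of a product over the union -/
private theorem ns_v2_pair {J : Type} [Fintype J] [DecidableEq J] (a : ℝ) (y : J → ℝ) :
    ∑ S : Finset J, a ^ S.card * ∑ S' : Finset J, a ^ S'.card * ∏ j ∈ S ∪ S', y j =
      ∏ j, (1 + (2 * a + a ^ 2) * y j) := by
  have h1 : ∀ S : Finset J, ∑ S' : Finset J, a ^ S'.card * ∏ j ∈ S ∪ S', y j =
      ∏ j, (a * y j + if j ∈ S then y j else 1) := by
    intro S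
    rw [← ns_v2_sum (fun j => a * y j) (fun j => if j ∈ S then y j else 1)]
    refine Finset.sum_congr rfl fun S' _ => ?_
    rw [Finset.prod_mul_distrib, Finset.prod_const, mul_assoc]
    congr 1
    rw [Finset.union_comm, ← Finset.union_sdiff_self_eq_union,
      Finset.prod_union Finset.disjoint_sdiff]
    congr 1
    rw [← Finset.prod_filter]
    refine Finset.prod_congr ?_ fun _ _ => rfl
    ext j
    simp [and_comm]
  have h2 : ∀ S : Finset J, a ^ S.card * ∏ j, (a * y j + if j ∈ S then y j else 1) =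
      (∏ j ∈ S, (a * (a * y j + y j))) * ∏ j ∈ univ \ S, (a * y j + 1) := by
    intro S
    rw [← Finset.prod_sdiff (Finset.subset_univ S), Finset.prod_mul_distrib, Finset.prod_const]
    have e1 : ∏ j ∈ univ \ S, (a * y j + if j ∈ S then y j else 1) =
        ∏ j ∈ univ \ S, (a * y j + 1) := by
      refine Finset.prod_congr rfl fun j hj => ?_
      rw [if_neg (Finset.mem_sdiff.mp hj).2]
    have e2 : ∏ j ∈ S, (a * y j + if j ∈ S then y j else 1) = ∏ j ∈ S, (a * y j + y j) := by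
      refine Finset.prod_congr rfl fun j hj => ?_
      rw [if_pos hj]
    rw [e1, e2]
    ring
  calc ∑ S : Finset J, a ^ S.card * ∑ S' : Finset J, a ^ S'.card * ∏ j ∈ S ∪ S', y j =
        ∑ S : Finset J, (∏ j ∈ S, (a * (a * y j + y j))) * ∏ j ∈ univ \ S, (a * y j + 1) := by
        refine Finset.sum_congr rfl fun S _ => ?_
        rw [h1 S, h2 S]
    _ = ∏ j, (a * (a * y j + y j) + (a * y j + 1)) := ns_v2_sum _ _
    _ = _ := by
        refine Finset.prod_congr rfl fun j _ => ?_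
        ring

/-- the sum of the squares of the products, over the subsets with small product -/
private theorem ns_v2_sq {P : Finset ℕ} (hP : ∀ p ∈ P, p.Prime) (Z : ℕ) :
    ∑ S : Finset (PJf P), (if nn (fun j : PJf P => (j : ℕ)) S ≤ Z then
      ((nn (fun j : PJf P => (j : ℕ)) S : ℕ) : ℝ) ^ 2 else 0) ≤ (Z : ℝ) ^ 3 := by
  classical
  have hinj : Function.Injective (fun a : Finset (PJf P) => nn (fun j : PJf P => (j : ℕ)) a) := by
    have hj : Function.Injective (fun j : PJf P => (j : ℕ)) := Subtype.val_injective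
    have key : ∀ a : Finset (PJf P),
        (nn (fun j : PJf P => (j : ℕ)) a).primeFactors = a.image (fun j : PJf P => (j : ℕ)) := by
      intro a
      have h1 : nn (fun j : PJf P => (j : ℕ)) a =
          ∏ q ∈ a.image (fun j : PJf P => (j : ℕ)), q := by
        unfold nn
        rw [Finset.prod_image (fun i _ j _ hij => hj hij)]
      rw [h1]
      apply Nat.primeFactors_prod
      intro q hq
      rw [Finset.mem_image] at hq
      obtain ⟨j, _, rfl⟩ := hq
      exact hP _ j.2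
    intro a b hab
    have h2 : a.image (fun j : PJf P => (j : ℕ)) = b.image (fun j : PJf P => (j : ℕ)) := by
      rw [← key a, ← key b]
      exact congrArg Nat.primeFactors hab
    exact Finset.image_injective hj h2
  have hpos : ∀ S : Finset (PJf P), 1 ≤ nn (fun j : PJf P => (j : ℕ)) S :=
    Pool.Agent.MP89da58.nn_pos fun j => (hP _ j.2).one_lt.le
  rw [← Finset.sum_filter]
  have h1 : ∑ S ∈ univ.filter (fun S : Finset (PJf P) => nn (fun j : PJf P => (j : ℕ)) S ≤ Z),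
      ((nn (fun j : PJf P => (j : ℕ)) S : ℕ) : ℝ) ^ 2 ≤
      ∑ S ∈ univ.filter (fun S : Finset (PJf P) => nn (fun j : PJf P => (j : ℕ)) S ≤ Z),
      (Z : ℝ) ^ 2 := by
    refine Finset.sum_le_sum fun S hS => ?_
    have : ((nn (fun j : PJf P => (j : ℕ)) S : ℕ) : ℝ) ≤ Z := by
      exact_mod_cast (Finset.mem_filter.mp hS).2
    gcongr
  refine h1.trans ?_
  rw [Finset.sum_const, nsmul_eq_mul]
  have h2 : (univ.filter (fun S : Finset (PJf P) => nn (fun j : PJf P => (j : ℕ)) S ≤ Z)).card ≤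
      (Icc 1 Z).card := by
    refine Finset.card_le_card_of_injOn (fun S => nn (fun j : PJf P => (j : ℕ)) S) ?_
      hinj.injOn
    intro S hS
    rw [Finset.mem_coe, Finset.mem_filter] at hS
    rw [Finset.mem_coe, Finset.mem_Icc]
    exact ⟨hpos S, hS.2⟩
  rw [Nat.card_Icc, Nat.add_sub_cancel] at h2
  have h3 : ((univ.filter (fun S : Finset (PJf P) =>
      nn (fun j : PJf P => (j : ℕ)) S ≤ Z)).card : ℝ) ≤ Z := by exact_mod_cast h2
  calc ((univ.filter (fun S : Finset (PJf P) =>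
      nn (fun j : PJf P => (j : ℕ)) S ≤ Z)).card : ℝ) * (Z : ℝ) ^ 2 ≤ Z * (Z : ℝ) ^ 2 := by
        gcongr
    _ = (Z : ℝ) ^ 3 := by ring

/-- **piece v2** -/
theorem p_v2 : S_v2 := by
  intro hnu hv1 ι _ _ P K1 z r hK1 hz hz3 hL g B Y hY hB hsup N N' hN
  obtain ⟨-, h2, h3, h4, h5⟩ := hnu ι (PJf P) g
  have hP : ∀ p ∈ P, p.Prime := fun p hp => (hL.hp p hp).1
  have hz1 : 1 ≤ z := le_trans (Nat.one_le_iff_ne_zero.mpr (by positivity)) hz
  have hz0 : (0 : ℝ) < z := by exact_mod_cast hz1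
  have hj0 : ∀ j : PJf P, (0 : ℝ) < ((j : ℕ) : ℝ) := fun j => by exact_mod_cast (hP _ j.2).pos
  have hB0 : 0 ≤ B := (abs_nonneg _).trans (hB fun _ => none)
  have hNN : (0 : ℝ) ≤ (N' : ℝ) - N := by
    have : (N : ℝ) ≤ N' := by exact_mod_cast hN
    linarith
  obtain ⟨K, hK⟩ : ∃ K : ℝ, K = (Fintype.card ι : ℝ) := ⟨_, rfl⟩
  have hK0 : 0 ≤ K := by rw [hK]; positivity
  have hKK : K ≤ K ^ 2 := by
    rw [hK]
    exact_mod_cast Nat.le_self_pow (by norm_num) _
  -- the difference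
  obtain ⟨e, he⟩ : ∃ e : ℕ → (PJf P → Option ι) → ℝ, e = fun n γ =>
    prr (r n) γ - pw (fun j : PJf P => 1 / (((j : ℕ) : ℝ) - 1)) (supp γ) := ⟨_, rfl⟩
  have hq : ∀ n, qr (r n) g - qf g = ∑ γ, nu g γ * e n γ := by
    intro n
    unfold qr qf
    rw [h4, ← Finset.sum_sub_distrib]
    refine Finset.sum_congr rfl fun γ _ => ?_
    rw [he]
    ring
  have hsq : ∑ n ∈ Ioc N N', (qr (r n) g - qf g) ^ 2 =
      ∑ γ, ∑ γ', nu g γ * nu g γ' * ∑ n ∈ Ioc N N', e n γ * e n γ' := by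
    have e1 : ∀ n, (qr (r n) g - qf g) ^ 2 =
        ∑ γ, ∑ γ', nu g γ * nu g γ' * (e n γ * e n γ') := by
      intro n
      rw [hq n, sq, Finset.sum_mul_sum]
      refine Finset.sum_congr rfl fun γ _ => Finset.sum_congr rfl fun γ' _ => ?_
      ring
    rw [Finset.sum_congr rfl fun n _ => e1 n, Finset.sum_comm]
    refine Finset.sum_congr rfl fun γ _ => ?_
    rw [Finset.sum_comm]
    refine Finset.sum_congr rfl fun γ' _ => ?_
    rw [Finset.mul_sum]
  -- the bound for the coefficients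
  obtain ⟨m, hm⟩ : ∃ m : Finset (PJf P) → ℝ, ∀ S, m S =
    if nn (fun j : PJf P => (j : ℕ)) S ≤ Y ^ 2 then B ^ 2 * 3 ^ S.card else 0 :=
    ⟨fun S => if nn (fun j : PJf P => (j : ℕ)) S ≤ Y ^ 2 then B ^ 2 * 3 ^ S.card else 0,
      fun _ => rfl⟩
  have hm0 : ∀ S, 0 ≤ m S := by
    intro S
    rw [hm]
    split_ifs
    · positivity
    · exact le_rfl
  have hm1 : ∀ S, m S ≤ B ^ 2 * 3 ^ S.card := by
    intro S
    rw [hm]
    split_ifs
    · exact le_rfl
    · positivity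
  have hp1 : ∀ j : PJf P, 1 ≤ (j : ℕ) := fun j => (hP _ j.2).one_lt.le
  have hmn : ∀ γ, |nu g γ| ≤ m (supp γ) := by
    intro γ
    by_cases h0 : nu g γ = 0
    · rw [h0, abs_zero]
      exact hm0 _
    · obtain ⟨α, β, hα, hβ, hs, -⟩ := h3 γ h0
      have h6 : nn (fun j : PJf P => (j : ℕ)) (supp γ) ≤ Y ^ 2 := by
        rw [hs, sq]
        exact (Pool.Agent.MP89da58.nn_union_le hp1 _ _).trans
          (Nat.mul_le_mul (hsup α hα) (hsup β hβ))
      rw [hm, if_pos h6]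
      exact h2 B hB γ
  -- the bound for the sums over `n`
  obtain ⟨b1, hb1⟩ : ∃ b1 : Finset (PJf P) → ℝ, ∀ S : Finset (PJf P), b1 S =
    ∏ j ∈ S, (16 * (K1 : ℝ) ^ 2 / ((j : ℕ) : ℝ)) :=
    ⟨fun S => ∏ j ∈ S, (16 * (K1 : ℝ) ^ 2 / ((j : ℕ) : ℝ)), fun _ => rfl⟩
  obtain ⟨b2, hb2⟩ : ∃ b2 : Finset (PJf P) → ℝ, ∀ S : Finset (PJf P), b2 S =
    ∏ j ∈ S, ((j : ℕ) : ℝ) := ⟨fun S => ∏ j ∈ S, ((j : ℕ) : ℝ), fun _ => rfl⟩
  have hb10 : ∀ S, 0 ≤ b1 S := fun S => by
    rw [hb1]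
    exact Finset.prod_nonneg fun j _ => by have := hj0 j; positivity
  have hb20 : ∀ S, 0 ≤ b2 S := fun S => by
    rw [hb2]
    exact Finset.prod_nonneg fun j _ => (hj0 j).le
  have hv : ∀ γ γ', |∑ n ∈ Ioc N N', e n γ * e n γ'| ≤
      ((N' : ℝ) - N) * (1 / z * b1 (supp γ ∪ supp γ')) + 4 * b2 (supp γ ∪ supp γ') := by
    intro γ γ'
    rw [he, hb1, hb2]
    exact hv1 ι P K1 z r hK1 hz hL γ γ' N N' hN
  have hbd0 : ∀ S, 0 ≤ ((N' : ℝ) - N) * (1 / z * b1 S) + 4 * b2 S := by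
    intro S
    have := hb10 S
    have := hb20 S
    positivity
  -- first reduction
  have r1 : ∑ n ∈ Ioc N N', (qr (r n) g - qf g) ^ 2 ≤
      ∑ γ : PJf P → Option ι, ∑ γ' : PJf P → Option ι, m (supp γ) * m (supp γ') *
        (((N' : ℝ) - N) * (1 / z * b1 (supp γ ∪ supp γ')) + 4 * b2 (supp γ ∪ supp γ')) := by
    rw [hsq]
    refine Finset.sum_le_sum fun γ _ => Finset.sum_le_sum fun γ' _ => ?_
    refine (le_abs_self _).trans ?_
    rw [abs_mul, abs_mul]
    refine mul_le_mul (mul_le_mul (hmn γ) (hmn γ') (abs_nonneg _) (hm0 _)) (hv γ γ')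
      (abs_nonneg _) (mul_nonneg (hm0 _) (hm0 _))
  have r2 : ∑ γ : PJf P → Option ι, ∑ γ' : PJf P → Option ι, m (supp γ) * m (supp γ') *
        (((N' : ℝ) - N) * (1 / z * b1 (supp γ ∪ supp γ')) + 4 * b2 (supp γ ∪ supp γ')) =
      ∑ S : Finset (PJf P), K ^ S.card * ∑ S' : Finset (PJf P), K ^ S'.card * (m S * m S' *
        (((N' : ℝ) - N) * (1 / z * b1 (S ∪ S')) + 4 * b2 (S ∪ S'))) := by
    rw [hK]
    have e1 : ∀ γ : PJf P → Option ι, ∑ γ' : PJf P → Option ι, m (supp γ) * m (supp γ') *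
        (((N' : ℝ) - N) * (1 / z * b1 (supp γ ∪ supp γ')) + 4 * b2 (supp γ ∪ supp γ')) =
        ∑ S' : Finset (PJf P), (Fintype.card ι : ℝ) ^ S'.card * (m (supp γ) * m S' *
        (((N' : ℝ) - N) * (1 / z * b1 (supp γ ∪ S')) + 4 * b2 (supp γ ∪ S'))) := fun γ =>
      h5 fun S' => m (supp γ) * m S' *
        (((N' : ℝ) - N) * (1 / z * b1 (supp γ ∪ S')) + 4 * b2 (supp γ ∪ S'))
    rw [Finset.sum_congr rfl fun γ _ => e1 γ]
    exact h5 fun S => ∑ S' : Finset (PJf P), (Fintype.card ι : ℝ) ^ S'.card * (m S * m S' *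
        (((N' : ℝ) - N) * (1 / z * b1 (S ∪ S')) + 4 * b2 (S ∪ S')))
  -- splitting
  have r3 : ∑ S : Finset (PJf P), K ^ S.card * ∑ S' : Finset (PJf P), K ^ S'.card * (m S * m S' *
        (((N' : ℝ) - N) * (1 / z * b1 (S ∪ S')) + 4 * b2 (S ∪ S'))) =
      ((N' : ℝ) - N) * (1 / z) * ∑ S : Finset (PJf P), K ^ S.card * ∑ S' : Finset (PJf P),
        K ^ S'.card * (m S * m S' * b1 (S ∪ S')) +
      4 * ∑ S : Finset (PJf P), K ^ S.card * ∑ S' : Finset (PJf P),
        K ^ S'.card * (m S * m S' * b2 (S ∪ S')) := by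
    simp only [Finset.mul_sum]
    rw [← Finset.sum_add_distrib]
    refine Finset.sum_congr rfl fun S _ => ?_
    rw [← Finset.sum_add_distrib]
    refine Finset.sum_congr rfl fun S' _ => ?_
    ring
  -- the first part
  have r4 : ∑ S : Finset (PJf P), K ^ S.card * ∑ S' : Finset (PJf P),
        K ^ S'.card * (m S * m S' * b1 (S ∪ S')) ≤ B ^ 4 * ∏ j : PJf P,
      (1 + (240 * K ^ 2 * (K1 : ℝ) ^ 2 + 240) / ((j : ℕ) : ℝ)) := by
    calc ∑ S : Finset (PJf P), K ^ S.card * ∑ S' : Finset (PJf P),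
        K ^ S'.card * (m S * m S' * b1 (S ∪ S'))
        ≤ ∑ S : Finset (PJf P), K ^ S.card * ∑ S' : Finset (PJf P),
        K ^ S'.card * ((B ^ 2 * 3 ^ S.card) * (B ^ 2 * 3 ^ S'.card) * b1 (S ∪ S')) := by
          refine Finset.sum_le_sum fun S _ => mul_le_mul_of_nonneg_left ?_ (by positivity)
          refine Finset.sum_le_sum fun S' _ => mul_le_mul_of_nonneg_left ?_ (by positivity)
          exact mul_le_mul_of_nonneg_right (mul_le_mul (hm1 S) (hm1 S') (hm0 S') (by positivity))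
            (hb10 _)
      _ = B ^ 4 * ∑ S : Finset (PJf P), (3 * K) ^ S.card * ∑ S' : Finset (PJf P),
          (3 * K) ^ S'.card * ∏ j ∈ S ∪ S', (16 * (K1 : ℝ) ^ 2 / ((j : ℕ) : ℝ)) := by
          simp only [Finset.mul_sum, hb1]
          refine Finset.sum_congr rfl fun S _ => Finset.sum_congr rfl fun S' _ => ?_
          rw [mul_pow, mul_pow]
          ring
      _ = B ^ 4 * ∏ j : PJf P, (1 + (2 * (3 * K) + (3 * K) ^ 2) *
          (16 * (K1 : ℝ) ^ 2 / ((j : ℕ) : ℝ))) := by rw [ns_v2_pair]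
      _ ≤ _ := by
          refine mul_le_mul_of_nonneg_left ?_ (by positivity)
          refine Finset.prod_le_prod (fun j _ => ?_) fun j _ => ?_
          · have := hj0 j
            positivity
          · have h6 : (2 * (3 * K) + (3 * K) ^ 2) * (16 * (K1 : ℝ) ^ 2 / ((j : ℕ) : ℝ)) =
                ((96 * K + 144 * K ^ 2) * (K1 : ℝ) ^ 2) / ((j : ℕ) : ℝ) := by ring
            rw [h6]
            have h7 : (96 * K + 144 * K ^ 2) * (K1 : ℝ) ^ 2 ≤ 240 * K ^ 2 * (K1 : ℝ) ^ 2 + 240 := by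
              have : (96 * K + 144 * K ^ 2) * (K1 : ℝ) ^ 2 ≤ (240 * K ^ 2) * (K1 : ℝ) ^ 2 :=
                mul_le_mul_of_nonneg_right (by linarith) (by positivity)
              linarith
            have := div_le_div_of_nonneg_right h7 (hj0 j).le
            linarith
  -- the second part
  obtain ⟨s, hs⟩ : ∃ s : Finset (PJf P) → ℝ, ∀ S, s S =
    if nn (fun j : PJf P => (j : ℕ)) S ≤ Y ^ 2 then
      ((nn (fun j : PJf P => (j : ℕ)) S : ℕ) : ℝ) ^ 2 else 0 :=
    ⟨fun S => if nn (fun j : PJf P => (j : ℕ)) S ≤ Y ^ 2 then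
      ((nn (fun j : PJf P => (j : ℕ)) S : ℕ) : ℝ) ^ 2 else 0, fun _ => rfl⟩
  have hb2n : ∀ S, b2 S = ((nn (fun j : PJf P => (j : ℕ)) S : ℕ) : ℝ) := by
    intro S
    rw [hb2]
    unfold nn
    push_cast
    rfl
  have hKn : ∀ S : Finset (PJf P), (3 * K) ^ S.card ≤ b2 S := by
    intro S
    rw [hb2, ← Finset.prod_const]
    refine Finset.prod_le_prod (fun j _ => by positivity) fun j _ => ?_
    have h6 : 3 * Fintype.card ι ≤ (j : ℕ) := hz3.trans (hL.hp _ j.2).2.le
    rw [hK]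
    exact_mod_cast h6
  have hms : ∀ S, K ^ S.card * (m S * b2 S) ≤ B ^ 2 * s S := by
    intro S
    rw [hm, hs]
    split_ifs
    · rw [← hb2n]
      calc K ^ S.card * (B ^ 2 * 3 ^ S.card * b2 S) = B ^ 2 * ((3 * K) ^ S.card * b2 S) := by
            rw [mul_pow]; ring
        _ ≤ B ^ 2 * (b2 S * b2 S) := by
            have := mul_le_mul_of_nonneg_right (hKn S) (hb20 S)
            exact mul_le_mul_of_nonneg_left this (by positivity)
        _ = B ^ 2 * b2 S ^ 2 := by ring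
    · simp
  have hs0 : ∀ S, 0 ≤ s S := by
    intro S
    rw [hs]
    split_ifs <;> positivity
  have hun : ∀ S S', b2 (S ∪ S') ≤ b2 S * b2 S' := by
    intro S S'
    rw [hb2n, hb2n, hb2n]
    exact_mod_cast Pool.Agent.MP89da58.nn_union_le hp1 S S'
  have hssum : ∑ S, s S ≤ (Y : ℝ) ^ 6 := by
    rw [Finset.sum_congr rfl fun S _ => hs S]
    have := ns_v2_sq hP (Y ^ 2)
    push_cast at this
    calc _ ≤ _ := this
      _ = (Y : ℝ) ^ 6 := by ring
  have r5 : ∑ S : Finset (PJf P), K ^ S.card * ∑ S' : Finset (PJf P),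
        K ^ S'.card * (m S * m S' * b2 (S ∪ S')) ≤ B ^ 4 * (Y : ℝ) ^ 12 := by
    calc ∑ S : Finset (PJf P), K ^ S.card * ∑ S' : Finset (PJf P),
        K ^ S'.card * (m S * m S' * b2 (S ∪ S'))
        ≤ ∑ S : Finset (PJf P), (B ^ 2 * s S) * ∑ S' : Finset (PJf P), (B ^ 2 * s S') := by
          refine Finset.sum_le_sum fun S _ => ?_
          rw [Finset.mul_sum, Finset.mul_sum]
          refine Finset.sum_le_sum fun S' _ => ?_
          calc K ^ S.card * (K ^ S'.card * (m S * m S' * b2 (S ∪ S')))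
              ≤ K ^ S.card * (K ^ S'.card * (m S * m S' * (b2 S * b2 S'))) := by
                refine mul_le_mul_of_nonneg_left ?_ (by positivity)
                refine mul_le_mul_of_nonneg_left ?_ (by positivity)
                exact mul_le_mul_of_nonneg_left (hun S S') (mul_nonneg (hm0 _) (hm0 _))
            _ = (K ^ S.card * (m S * b2 S)) * (K ^ S'.card * (m S' * b2 S')) := by ring
            _ ≤ _ := by
                refine mul_le_mul (hms S) (hms S') ?_ (by have := hs0 S; positivity)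
                have := hm0 S'
                have := hb20 S'
                positivity
      _ = B ^ 4 * ((∑ S, s S) * ∑ S', s S') := by
          rw [← Finset.mul_sum, ← Finset.sum_mul, ← Finset.mul_sum]
          ring
      _ ≤ B ^ 4 * ((Y : ℝ) ^ 6 * (Y : ℝ) ^ 6) := by
          refine mul_le_mul_of_nonneg_left ?_ (by positivity)
          exact mul_le_mul hssum hssum (Finset.sum_nonneg fun S _ => hs0 S) (by positivity)
      _ = B ^ 4 * (Y : ℝ) ^ 12 := by ring
  rw [← hK]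
  calc ∑ n ∈ Ioc N N', (qr (r n) g - qf g) ^ 2 ≤ _ := r1
    _ = _ := r2
    _ = _ := r3
    _ ≤ ((N' : ℝ) - N) * (1 / z) * (B ^ 4 * ∏ j : PJf P,
      (1 + (240 * K ^ 2 * (K1 : ℝ) ^ 2 + 240) / ((j : ℕ) : ℝ))) + 4 * (B ^ 4 * (Y : ℝ) ^ 12) := by
        refine add_le_add (mul_le_mul_of_nonneg_left r4 (by positivity)) (by linarith)
    _ = _ := by ring

end Pool.Agent.NC.A
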