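import Pool.Agent.Lib.MP_0da313_nt.NC.M

set_option autoImplicit false

/-!
Project NC, section M, piece win: the location of the window.
-/

namespace Pool.Agent.NC.M

open Finset Filter Polynomial
open Pool.Agent.CM (wd)
open Pool.Agent.MP89da58 (tri)

/-- The value at `x` without the leading term. -/
private theorem ns_win_low (g : ℤ[X]) (d : ℕ) (hg : g.natDegree = d) (hd : 1 ≤ d) (x : ℕ) (hx : 1 ≤ x) :
    |((g.eval (x : ℤ) : ℤ) : ℝ) - (g.coeff d : ℝ) * (x : ℝ) ^ d| * x ≤
      (∑ i ∈ range d, |(g.coeff i : ℝ)|) * (x : ℝ) ^ d := by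
  have hx' : (1 : ℝ) ≤ x := by exact_mod_cast hx
  have h1 : ((g.eval (x : ℤ) : ℤ) : ℝ) - (g.coeff d : ℝ) * (x : ℝ) ^ d =
      ∑ i ∈ range d, (g.coeff i : ℝ) * (x : ℝ) ^ i := by
    rw [Polynomial.eval_eq_sum_range, hg, Finset.sum_range_succ]
    push_cast
    ring
  rw [h1, Finset.sum_mul]
  calc |∑ i ∈ range d, (g.coeff i : ℝ) * (x : ℝ) ^ i| * x
      ≤ (∑ i ∈ range d, |(g.coeff i : ℝ)| * (x : ℝ) ^ i) * x := by
        apply mul_le_mul_of_nonneg_right _ (by linarith)
        refine (Finset.abs_sum_le_sum_abs _ _).trans (Finset.sum_le_sum fun i _ => ?_)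
        rw [abs_mul, abs_of_nonneg (by positivity : (0 : ℝ) ≤ (x : ℝ) ^ i)]
    _ = ∑ i ∈ range d, |(g.coeff i : ℝ)| * (x : ℝ) ^ (i + 1) := by
        rw [Finset.sum_mul]
        refine Finset.sum_congr rfl fun i _ => ?_
        rw [pow_succ]
        ring
    _ ≤ ∑ i ∈ range d, |(g.coeff i : ℝ)| * (x : ℝ) ^ d := by
        refine Finset.sum_le_sum fun i hi => ?_
        apply mul_le_mul_of_nonneg_left _ (abs_nonneg _)
        exact pow_le_pow_right₀ hx' (Finset.mem_range.1 hi)

theorem p_win : S_win := by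
  classical
  intro ι _ _ D d E F
  have hE : (1 : ℝ) ≤ E := by exact_mod_cast F.hE
  have hd2 : 2 ≤ d := F.hd
  have hdR : (0 : ℝ) < d := by
    have : 0 < d := by omega
    exact_mod_cast this
  have ha1 : ∀ l, (1 : ℝ) ≤ |(F.a l : ℝ)| := by
    intro l
    have h := Int.one_le_abs (F.ha l)
    exact_mod_cast h
  have hEt : ∀ l, |(F.a l : ℝ)| + |((F.g l).coeff d : ℝ)| ≤ E * F.t l := fun l => F.ht l
  have hE1 : ∀ l, 1 ≤ E * F.t l := by
    intro l
    have h1 := ha1 l
    have h2 := hEt l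
    have h3 := abs_nonneg ((F.g l).coeff d : ℝ)
    linarith
  have ht0 : ∀ l, 0 < F.t l := by
    intro l
    by_contra h
    push Not at h
    have h1 := hE1 l
    have h2 : (E : ℝ) * F.t l ≤ 0 := mul_nonpos_of_nonneg_of_nonpos (by linarith) h
    linarith
  refine ⟨ht0, ?_⟩
  obtain ⟨C, hC⟩ := exists_nat_ge (2 * (E : ℝ) + ∑ l, 2 * F.t l)
  have hsum0 : 0 ≤ ∑ l, 2 * F.t l := Finset.sum_nonneg fun l _ => by have := ht0 l; linarith
  have hCE : 2 * (E : ℝ) ≤ C := by linarith
  have hCt : ∀ l, 2 * F.t l ≤ C := by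
    intro l
    have h1 : 2 * F.t l ≤ ∑ l, 2 * F.t l :=
      Finset.single_le_sum (f := fun l => 2 * F.t l) (fun l _ => by have := ht0 l; linarith) (Finset.mem_univ l)
    linarith
  have hC1 : 1 ≤ C := by
    have : (1 : ℝ) ≤ C := by linarith
    exact_mod_cast this
  let cs : ι → ℝ := fun l => ∑ i ∈ range d, |((F.g l).coeff i : ℝ)|
  have hcs0 : ∀ l, 0 ≤ cs l := fun l => Finset.sum_nonneg fun i _ => abs_nonneg _
  obtain ⟨M, hM⟩ := exists_nat_ge (∑ l, 200 * (E : ℝ) * cs l)
  have hMl : ∀ l, 200 * (E : ℝ) * cs l ≤ M := by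
    intro l
    have h1 : 200 * (E : ℝ) * cs l ≤ ∑ l, 200 * (E : ℝ) * cs l :=
      Finset.single_le_sum (f := fun l => 200 * (E : ℝ) * cs l)
        (fun l _ => mul_nonneg (by linarith) (hcs0 l)) (Finset.mem_univ l)
    linarith
  refine ⟨C, hC1, ?_⟩
  filter_upwards [eventually_ge_atTop F.N0, eventually_ge_atTop (5 * M ^ d + 5)] with N hN0 hN5
  refine ⟨hN0, ?_⟩
  intro n hn x hx1 hwh
  obtain ⟨hn1, hn2⟩ := Finset.mem_Ioc.1 hn
  have hNpos : (0 : ℝ) < N := by
    have : 0 < N := by omega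
    exact_mod_cast this
  have hxpos : (0 : ℝ) < x := by exact_mod_cast hx1
  have hs0 := F.hs0
  have hs1 := F.hs1
  have hspos : 0 < F.s := by linarith
  have hsN : 0 < F.s * N := mul_pos hspos hNpos
  -- the window
  have hlog : |1000 * (d : ℝ) * E * Real.log (x / F.X N)| < 1 := by
    by_contra h
    push Not at h
    apply hwh
    unfold Fam.wh Pool.Agent.CM.wd Pool.Agent.MP89da58.tri
    exact max_eq_left (by linarith)
  have hX : Real.log (x / F.X N) = Real.log x - 1 / (d : ℝ) * Real.log (F.s * N) := by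
    unfold Fam.X
    rw [Real.log_div hxpos.ne' (Real.rpow_pos_of_pos hsN _).ne', Real.log_rpow hsN]
  set δ : ℝ := d * Real.log x - Real.log (F.s * N) with hδ
  have hδ1 : |1000 * (E : ℝ) * δ| < 1 := by
    have h1 : 1000 * (E : ℝ) * δ = 1000 * (d : ℝ) * E * Real.log (x / F.X N) := by
      rw [hX, hδ]
      field_simp
    rw [h1]
    exact hlog
  have hδ2 : 1000 * (E : ℝ) * |δ| < 1 := by
    rwa [abs_mul, abs_of_nonneg (by linarith : (0 : ℝ) ≤ 1000 * (E : ℝ))] at hδ1
  have hδ0 : 0 ≤ |δ| := abs_nonneg δ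
  have hδ3 : |δ| ≤ 1 / 1000 := by
    have h1 : 1000 * |δ| ≤ 1000 * (E : ℝ) * |δ| := by
      have := mul_le_mul_of_nonneg_right hE (by positivity : 0 ≤ 1000 * |δ|)
      linarith
    linarith
  have hxd : (x : ℝ) ^ d = F.s * N * Real.exp δ := by
    have h1 : Real.exp δ = (x : ℝ) ^ d / (F.s * N) := by
      rw [hδ, Real.exp_sub, Real.exp_log hsN, ← Real.log_pow, Real.exp_log (by positivity)]
    rw [h1]
    field_simp
  have hexp : |Real.exp δ - 1| ≤ 2 * |δ| := Real.abs_exp_sub_one_le (by linarith)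
  have hexp1 : Real.exp δ ≤ 1 + 2 / 1000 := by
    have := (abs_le.1 hexp).2
    linarith
  have hexp2 : 1 - 2 / 1000 ≤ Real.exp δ := by
    have := (abs_le.1 hexp).1
    linarith
  have hup : (x : ℝ) ^ d ≤ N := by
    rw [hxd]
    calc F.s * N * Real.exp δ ≤ F.s * N * (1 + 2 / 1000) := mul_le_mul_of_nonneg_left hexp1 hsN.le
      _ ≤ (1 / 2) * N * (1 + 2 / 1000) := by
          apply mul_le_mul_of_nonneg_right _ (by norm_num)
          exact mul_le_mul_of_nonneg_right hs1 hNpos.le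
      _ ≤ N := by linarith
  have hlo : (N : ℝ) / 5 ≤ (x : ℝ) ^ d := by
    rw [hxd]
    calc (N : ℝ) / 5 ≤ (1 / 4) * N * (1 - 2 / 1000) := by linarith
      _ ≤ F.s * N * (1 - 2 / 1000) := by
          apply mul_le_mul_of_nonneg_right _ (by norm_num)
          exact mul_le_mul_of_nonneg_right hs0 hNpos.le
      _ ≤ F.s * N * Real.exp δ := mul_le_mul_of_nonneg_left hexp2 hsN.le
  have hupN : x ^ d ≤ N := by exact_mod_cast hup
  have hMx : M ≤ x := by
    by_contra h
    push Not at h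
    have h1 : x ^ d ≤ M ^ d := Nat.pow_le_pow_left h.le d
    have h2 : (x : ℝ) ^ d ≤ (M : ℝ) ^ d := by exact_mod_cast h1
    have h3 : (5 * (M : ℝ) ^ d + 5) ≤ N := by exact_mod_cast hN5
    linarith
  have hMxR : (M : ℝ) ≤ x := by exact_mod_cast hMx
  refine ⟨?_, ?_, ?_, ?_⟩
  · unfold Hn
    apply Nat.le_floor
    have h1 : (x : ℝ) = ((x : ℝ) ^ d) ^ (1 / (d : ℝ)) := by
      rw [← Real.rpow_natCast, ← Real.rpow_mul hxpos.le, mul_one_div_cancel hdR.ne', Real.rpow_one]
    rw [h1]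
    exact Real.rpow_le_rpow (by positivity) hup (by positivity)
  · have h1 : x ≤ x ^ d := Nat.le_self_pow (by omega) x
    omega
  · omega
  · intro l
    have htl := ht0 l
    have htN : 0 < F.t l * N := mul_pos htl hNpos
    -- the distance of n and N
    have hnN : |(n : ℝ) - N| ≤ N / (1000 * E) := by
      have h1 : (n : ℝ) ≤ N + N / (1000 * E) := by
        have h2 : (n : ℝ) ≤ ((N + N / (1000 * E) : ℕ) : ℝ) := by exact_mod_cast hn2
        have h3 : ((N / (1000 * E) : ℕ) : ℝ) ≤ (N : ℝ) / ((1000 * E : ℕ) : ℝ) := Nat.cast_div_le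
        push_cast at h2 h3
        linarith
      have h4 : (N : ℝ) ≤ n := by exact_mod_cast hn1.le
      rw [abs_of_nonneg (by linarith)]
      linarith
    have hlow := ns_win_low (F.g l) d (F.hg l) (by omega) x hx1
    set Rm : ℝ := (((F.g l).eval (x : ℤ) : ℤ) : ℝ) - ((F.g l).coeff d : ℝ) * (x : ℝ) ^ d with hRm
    have hR1 : |Rm| * (200 * E) ≤ N := by
      have h1 : |Rm| * x ≤ cs l * N := hlow.trans (mul_le_mul_of_nonneg_left hup (hcs0 l))
      have h2 : (|Rm| * (200 * E)) * x ≤ N * x := by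
        calc (|Rm| * (200 * E)) * x = (200 * E) * (|Rm| * x) := by ring
          _ ≤ (200 * E) * (cs l * N) := mul_le_mul_of_nonneg_left h1 (by linarith)
          _ = (200 * E * cs l) * N := by ring
          _ ≤ x * N := mul_le_mul_of_nonneg_right ((hMl l).trans hMxR) hNpos.le
          _ = N * x := by ring
      exact le_of_mul_le_mul_right h2 hxpos
    have hR2 : |Rm| ≤ F.t l * N / 200 := by
      have h1 : |Rm| * (200 * E) ≤ (F.t l * N / 200) * (200 * E) := by
        calc |Rm| * (200 * E) ≤ 1 * N := by rw [one_mul]; exact hR1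
          _ ≤ (E * F.t l) * N := mul_le_mul_of_nonneg_right (hE1 l) hNpos.le
          _ = (F.t l * N / 200) * (200 * E) := by ring
      exact le_of_mul_le_mul_right h1 (by linarith)
    have hLv : (F.L n l x : ℝ) - F.t l * N = (F.a l : ℝ) * ((n : ℝ) - N) +
        ((F.g l).coeff d : ℝ) * (F.s * N) * (Real.exp δ - 1) + Rm := by
      unfold Fam.L Fam.t
      rw [hRm, hxd]
      push_cast
      ring
    have hA : |(F.a l : ℝ) * ((n : ℝ) - N)| ≤ |(F.a l : ℝ)| * (N / (1000 * E)) := by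
      rw [abs_mul]
      exact mul_le_mul_of_nonneg_left hnN (abs_nonneg _)
    have hB : |((F.g l).coeff d : ℝ) * (F.s * N) * (Real.exp δ - 1)| ≤
        |((F.g l).coeff d : ℝ)| * (N / (1000 * E)) := by
      rw [abs_mul, abs_mul, abs_of_pos hsN, mul_assoc]
      apply mul_le_mul_of_nonneg_left _ (abs_nonneg _)
      calc F.s * N * |Real.exp δ - 1| ≤ (1 / 2) * N * (2 * |δ|) := by
            apply mul_le_mul _ hexp (abs_nonneg _) (by positivity)
            exact mul_le_mul_of_nonneg_right hs1 hNpos.le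
        _ = N * |δ| := by ring
        _ ≤ N / (1000 * E) := by
            rw [le_div_iff₀ (by linarith)]
            have := mul_le_mul_of_nonneg_left hδ2.le hNpos.le
            linarith
    have hAB : |(F.a l : ℝ)| * (N / (1000 * E)) + |((F.g l).coeff d : ℝ)| * (N / (1000 * E)) ≤
        F.t l * N / 1000 := by
      rw [← add_mul]
      calc (|(F.a l : ℝ)| + |((F.g l).coeff d : ℝ)|) * (N / (1000 * E)) ≤
          (E * F.t l) * (N / (1000 * E)) := mul_le_mul_of_nonneg_right (hEt l) (by positivity)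
        _ = F.t l * N / 1000 := by field_simp
    have hdiff : |(F.L n l x : ℝ) - F.t l * N| ≤ F.t l * N / 100 := by
      rw [hLv]
      refine (abs_add_le _ _).trans ?_
      have h1 := abs_add_le ((F.a l : ℝ) * ((n : ℝ) - N))
        (((F.g l).coeff d : ℝ) * (F.s * N) * (Real.exp δ - 1))
      linarith
    obtain ⟨hd1, hd3⟩ := abs_le.1 hdiff
    refine ⟨?_, ?_, ?_⟩
    · have h1 : (99 / 100) * (F.t l * N) ≤ F.L n l x := by linarith
      have h2 : (N : ℝ) ≤ 2 * E * ((99 / 100) * (F.t l * N)) := by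
        have h3 := mul_le_mul_of_nonneg_right (hE1 l) hNpos.le
        linarith
      refine h2.trans ?_
      exact mul_le_mul hCE h1 (by positivity) (by positivity)
    · have h1 : (F.L n l x : ℝ) ≤ (101 / 100) * (F.t l * N) := by linarith
      have h2 := mul_le_mul_of_nonneg_right (hCt l) hNpos.le
      linarith
    · have h1 : (F.L n l x : ℝ) / (F.t l * N) - 1 = ((F.L n l x : ℝ) - F.t l * N) / (F.t l * N) := by
        field_simp
      rw [h1, abs_div, abs_of_pos htN, div_le_iff₀ htN]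
      linarith

end Pool.Agent.NC.M
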