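import Pool.Agent.Lib.MP_0da313_nt.NC.F

set_option autoImplicit false

/-!
The numerical inequality behind the final count.
-/

namespace Pool.Agent.NC.F

open Finset

private theorem ns_nm_core (l h m x v k τ a q0 S e C' R Cr Br t : ℝ) (hl1 : 1 ≤ l)
    (hh0 : 0 ≤ h) (hhl : h ≤ l) (hm : 0 ≤ m) (hx : x ≤ Cr * m) (hv0 : 0 ≤ v) (hv1 : v ≤ 1)
    (hk : 0 < k) (hu : 1 / k ≤ 1000 * l) (hτ0 : 0 ≤ τ) (hτ1 : τ ≤ 1) (ha : 1 ≤ a)
    (he : 0 ≤ e) (hCr : 0 ≤ Cr) (hBr : 0 ≤ Br)
    (hC' : C' = 900 + (1 + 3 * Br) * Cr + 1 + Cr)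
    (hS : S ≤ 1001 / 1000 * (m * v) * q0 + x * e) (hq0 : q0 ≤ 2 * a + e)
    (ht : 9 / 10 * (m * (v / k)) * (τ * (k * h) * a - e) - x * e - 3 * Br * (x * e) ≤ t)
    (hR : R = τ * h * a * (m * v))
    (hX : e * m * l * C' ≤ 1 / 10 * R) :
    1 / 2 * R ≤ t - τ * h / 10 * S := by
  have hmv : 0 ≤ m * v := mul_nonneg hm hv0
  have hxe : x * e ≤ Cr * m * e := mul_le_mul_of_nonneg_right hx he
  have h1 : 9 / 10 * (m * (v / k)) * (τ * (k * h) * a - e)
      = 9 / 10 * R - 9 / 10 * (m * v * e) * (1 / k) := by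
    rw [hR]; field_simp
  have h2 : 9 / 10 * (m * v * e) * (1 / k) ≤ 900 * (m * l * e) := by
    have h3 : m * v * e ≤ m * e := by
      have := mul_le_mul_of_nonneg_left hv1 (mul_nonneg hm he)
      nlinarith
    have h4 : 0 ≤ m * e := mul_nonneg hm he
    have h5 : 0 ≤ 1 / k := by positivity
    calc 9 / 10 * (m * v * e) * (1 / k) ≤ 9 / 10 * (m * e) * (1000 * l) :=
          mul_le_mul (by linarith) hu h5 (by positivity)
      _ = 900 * (m * l * e) := by ring
  have h3 : x * e + 3 * Br * (x * e) ≤ (1 + 3 * Br) * Cr * (m * l * e) := by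
    have h4 : (1 + 3 * Br) * (x * e) ≤ (1 + 3 * Br) * (Cr * m * e) :=
      mul_le_mul_of_nonneg_left hxe (by positivity)
    have h5 : (1 + 3 * Br) * (Cr * m * e) ≤ (1 + 3 * Br) * (Cr * m * e) * l :=
      le_mul_of_one_le_right (by positivity) hl1
    nlinarith
  -- the upper sum
  have h4 : S ≤ 1001 / 1000 * (m * v) * (2 * a + e) + Cr * m * e := by
    have := mul_le_mul_of_nonneg_left hq0 (by positivity : 0 ≤ 1001 / 1000 * (m * v))
    linarith
  have hτh : 0 ≤ τ * h / 10 := by positivity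
  have h5 : τ * h / 10 * S ≤ τ * h / 10 * (1001 / 1000 * (m * v) * (2 * a + e) + Cr * m * e) :=
    mul_le_mul_of_nonneg_left h4 hτh
  have h6 : τ * h / 10 * (1001 / 1000 * (m * v) * (2 * a + e) + Cr * m * e)
      = 1001 / 5000 * R + τ * h / 10 * (1001 / 1000 * (m * v) * e + Cr * m * e) := by
    rw [hR]; ring
  have h7 : τ * h / 10 * (1001 / 1000 * (m * v) * e + Cr * m * e) ≤ (1 + Cr) * (m * l * e) := by
    have h8 : τ * h ≤ l := by
      calc τ * h ≤ 1 * h := mul_le_mul_of_nonneg_right hτ1 hh0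
        _ ≤ l := by linarith
    have h9 : m * v ≤ m := mul_le_of_le_one_right hm hv1
    have h10 : 1001 / 1000 * (m * v) * e + Cr * m * e ≤ (2 + Cr) * (m * e) := by
      have : m * v * e ≤ m * e := mul_le_mul_of_nonneg_right h9 he
      nlinarith [mul_nonneg hm he]
    calc τ * h / 10 * (1001 / 1000 * (m * v) * e + Cr * m * e)
        ≤ l / 10 * ((2 + Cr) * (m * e)) :=
          mul_le_mul (by linarith) h10 (by positivity) (by positivity)
      _ ≤ (1 + Cr) * (m * l * e) := by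
          have : 0 ≤ m * l * e := by positivity
          have h11 : 0 ≤ Cr * (m * l * e) := by positivity
          nlinarith
  have h8 : e * m * l * C' = 900 * (m * l * e) + (1 + 3 * Br) * Cr * (m * l * e)
      + (1 + Cr) * (m * l * e) := by
    rw [hC']; ring
  have hR0 : 0 ≤ R := by
    rw [hR]
    have : 0 ≤ a := by linarith
    positivity
  linarith

/-- **nm** the numerical inequality. -/
theorem p_nm : S_nm := by
  intro ι _ _ D d C B c1 t0 hd hC hc1 ht0
  have hdr : (1 : ℝ) ≤ d := by exact_mod_cast hd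
  have hCr : (1 : ℝ) ≤ C := by exact_mod_cast hC
  set C' : ℝ := 900 + (1 + 3 * (B : ℝ) ^ 2) * C + 1 + C with hC'
  have hC'p : 0 < C' := by positivity
  refine ⟨max 1 (20 * d * C' / (t0 * c1)), ?_⟩
  intro l h m x v k τ a q0 S q T hl hlh hhl hm hmx hx hv hv1 hk hkl hτ hτ1 ha hq hq0 hT hS
  have hl1 : 1 ≤ l := le_trans (le_max_left _ _) hl
  have hl2 : 20 * d * C' / (t0 * c1) ≤ l := le_trans (le_max_right _ _) hl
  have hl0 : 0 < l := by linarith
  have hh0 : 0 < h := by
    by_contra hcon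
    have h1 : 2 * d * h ≤ 0 := mul_nonpos_of_nonneg_of_nonpos (by positivity) (not_lt.1 hcon)
    linarith
  have hLp : 0 < l ^ (8 * D) := pow_pos hl0 _
  have hv0 : 0 < v := lt_of_lt_of_le (by positivity) hv
  have hτ0 : 0 < τ := lt_of_lt_of_le ht0 hτ
  set e : ℝ := 1 / l ^ (8 * D + 8) with he
  have he0 : 0 < e := by positivity
  have hu : 1 / k ≤ 1000 * l := by
    rw [div_le_iff₀ hk]
    linarith
  have hxe : x / l ^ (8 * D + 8) = x * e := by rw [he]; ring
  set R : ℝ := τ * h * a * (m * v) with hR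
  have hX : e * m * l * C' ≤ 1 / 10 * R := by
    have h4 : e = 1 / l ^ (8 * D) * (1 / l ^ 8) := by
      rw [he, pow_add]
      field_simp
    have hl8 : l ≤ l ^ 8 := by
      calc l = l ^ 1 := (pow_one l).symm
        _ ≤ l ^ 8 := pow_le_pow_right₀ hl1 (by norm_num)
    have h5 : C' * (1 / l ^ 8) ≤ t0 * c1 / (20 * d) := by
      rw [mul_one_div, div_le_div_iff₀ (by positivity) (by positivity)]
      have h6 : 20 * d * C' ≤ l * (t0 * c1) := (div_le_iff₀ (by positivity)).1 hl2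
      have h7 : l * (t0 * c1) ≤ l ^ 8 * (t0 * c1) :=
        mul_le_mul_of_nonneg_right hl8 (by positivity)
      linarith
    have h9 : 0 ≤ m * l * (1 / l ^ (8 * D)) := by positivity
    have h10 := mul_le_mul_of_nonneg_left h5 h9
    have h11 : l / (2 * d) ≤ h := by
      rw [div_le_iff₀ (by positivity)]
      linarith
    have h12 : t0 * (l / (2 * d)) * 1 * (m * (c1 / l ^ (8 * D))) ≤ R := by
      rw [hR]
      have h13 : t0 * (l / (2 * d)) ≤ τ * h := mul_le_mul hτ h11 (by positivity) hτ0.le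
      have h14 : t0 * (l / (2 * d)) * 1 ≤ τ * h * a :=
        mul_le_mul h13 ha (by norm_num) (by positivity)
      exact mul_le_mul h14 (mul_le_mul_of_nonneg_left hv hm) (by positivity) (by positivity)
    calc e * m * l * C' = m * l * (1 / l ^ (8 * D)) * (C' * (1 / l ^ 8)) := by
          rw [h4]; ring
      _ ≤ m * l * (1 / l ^ (8 * D)) * (t0 * c1 / (20 * d)) := h10
      _ = 1 / 10 * (t0 * (l / (2 * d)) * 1 * (m * (c1 / l ^ (8 * D)))) := by
          field_simp; ring
      _ ≤ 1 / 10 * R := by linarith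
  have hlow : ∀ i, 1 / 2 * R ≤ T i - τ * h / 10 * S := by
    intro i
    refine ns_nm_core l h m x v k τ a q0 S e C' R C ((B : ℝ) ^ 2) (T i) hl1 hh0.le hhl hm hx
      hv0.le hv1 hk hu hτ0.le hτ1 ha he0.le (by positivity) (by positivity) hC' ?_ hq0 ?_ hR hX
    · rw [← hxe]; exact hS
    · have h1 := hT i
      rw [hxe] at h1
      have h2 : 9 / 10 * (m * (v / k)) * (τ * (k * h) * a - e) ≤ 9 / 10 * (m * (v / k)) * q i :=
        mul_le_mul_of_nonneg_left (hq i) (by positivity)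
      linarith
  have hsum : ∑ _i : ι, (1 / 2 * R) ≤ ∑ i : ι, (T i - τ * h / 10 * S) :=
    Finset.sum_le_sum fun i _ => hlow i
  rw [Finset.sum_sub_distrib, Finset.sum_const, Finset.sum_const, Finset.card_univ,
    nsmul_eq_mul, nsmul_eq_mul] at hsum
  have e1 : 1 / 2 * (Fintype.card ι * τ * h * a * (m * v)) = (Fintype.card ι : ℝ) * (1 / 2 * R) := by
    rw [hR]; ring
  have e2 : (Fintype.card ι : ℝ) * τ * h / 10 * S = (Fintype.card ι : ℝ) * (τ * h / 10 * S) := by
    ring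
  rw [e1, e2]
  exact hsum

end Pool.Agent.NC.F
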